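import Mathlib
import Pool.Agent.TH170.QD.Defs

/-!
# The fields of definition of the isotypic components
-/

namespace Pool.Agent.Y1.KN

open NumberField Module Pool.Agent.TH170.MF

/-- The values of the functions in `W` depend only on the restrictions of the embeddings to `F`. -/
def FactorsThrough {E : Type*} [Field E] [NumberField E] (W : Submodule ℚ ((E →+* ℂ) → ℚ))
    (F : IntermediateField ℚ E) : Prop :=
  ∀ u ∈ W, ∀ φ ψ : E →+* ℂ, (∀ x ∈ F, φ x = ψ x) → u φ = u ψ

/-- The fields of definition of the isotypic components: the smallest subfields `F` such that the
values of the functions in some component depend only on the restrictions of the embeddings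
to `F`. -/
def fieldsOfDefinition (E : Type*) [Field E] [NumberField E] : Set (IntermediateField ℚ E) :=
  {F | ∃ W ∈ Pool.Agent.TH170.QD.components E, Minimal (FactorsThrough W) F}

/-- The number of the subfields (with the field itself) that are CM fields. -/
noncomputable def numCMSubfields (E : Type*) [Field E] [NumberField E] : ℕ :=
  {F : IntermediateField ℚ E | IsCMField F}.ncard

open Classical in
/-- The fourth root of the degree for a normal field with a nonabelian Galois group, and `1` for the
other fields. -/
noncomputable def galFactor (F : Type*) [Field F] [NumberField F] : ℝ :=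
  if IsGalois ℚ F ∧ ¬ IsAbelianGalois ℚ F then (finrank ℚ F : ℝ) ^ (1 / 4 : ℝ) else 1

/-- The sum of the numbers of the CM subfields of the fields of definition, multiplied by the fourth
root of the degree if the field is normal and not abelian. -/
noncomputable def subfieldWeight (E : Type*) [Field E] [NumberField E] : ℝ :=
  ∑ᶠ F ∈ fieldsOfDefinition E, numCMSubfields F * galFactor F

/-- The estimate of the sum by the number of the CM subfields and the largest degree `D` of a CM
subfield that is normal and not abelian (`D = 1` if there are none). -/
def WeightEstimate : Prop :=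
  ∀ (E : Type) [Field E] [NumberField E] [IsCMField E] (D : ℝ), 1 ≤ D →
    (∀ F : IntermediateField ℚ E, IsCMField F → IsGalois ℚ F → ¬ IsAbelianGalois ℚ F →
      (finrank ℚ F : ℝ) ≤ D) →
    subfieldWeight E ≤ (numCMSubfields E : ℝ) ^ 2 * D ^ (1 / 4 : ℝ)

/-- The bound for the proportion of the exceptional types of a field of degree `2 g`. -/
noncomputable def rate (E : Type*) [Field E] [NumberField E] (g p : ℕ) : ℝ :=
  (1 + Real.log (2 * g)) ^ 16 * min (subfieldWeight E / √g) (√g / p)

end Pool.Agent.Y1.KN
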