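import Mathlib
import Pool.Agent.TH170.MF.Field
import Pool.Agent.TH170.QC.Final

/-!
# Statements of three auxiliary theorems
-/

set_option linter.unusedSectionVars false
set_option linter.unusedVariables false

namespace Pool.Agent.Y1.KN

open Matrix Finset Module

section signs

variable {n ι : Type*} [Fintype n] [DecidableEq n] [Fintype ι] [DecidableEq ι]

/-- The matrix does not increase the length of vectors. -/
def Contr (V : Matrix n n ℝ) : Prop := ∀ u : n → ℝ, (V *ᵥ u) ⬝ᵥ (V *ᵥ u) ≤ u ⬝ᵥ u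

/-- The matrix of an orthogonal projection. -/
structure OProj (P : Matrix n n ℝ) : Prop where
  idem : P * P = P
  symm : Pᵀ = P

/-- The sum of the matrices with the signs `ε`. -/
noncomputable def sMat (A : ι → Matrix n n ℝ) (ε : ι → Bool) : Matrix n n ℝ :=
  ∑ i, (if ε i then (1 : ℝ) else -1) • A i

end signs

/-- The kernel inequality for sums with random signs. -/
def P_signs : Prop :=
  ∀ (n ι : Type) [Fintype n] [DecidableEq n] [Fintype ι] [DecidableEq ι]
    (A : ι → Matrix n n ℝ) (P : Matrix n n ℝ) (P₁ P₂ : (ι → Bool) → Matrix n n ℝ),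
    (∀ i, Contr (A i)) → OProj P → (∀ i, A i * P = A i) → (∀ ε, OProj (P₁ ε)) →
    (∀ ε, OProj (P₂ ε)) → (∀ ε, P₁ ε * sMat A ε = 0) → (∀ ε, sMat A ε * P₂ ε = 0) →
    ∑ ε, ∑ i, trace (P₁ ε * A i * P₂ ε * (A i)ᵀ) ≤
      2 ^ Fintype.card ι * (trace P * √(Fintype.card ι))

/-- The traces of an element of a division algebra on stable subspaces. -/
def P_trace : Prop :=
  ∀ (V : Type) [AddCommGroup V] [Module ℚ V] [FiniteDimensional ℚ V]
    (D : Subalgebra ℚ (Module.End ℚ V)), (∀ δ ∈ D, δ ≠ 0 → Function.Injective δ) →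
    ∀ (K : Submodule ℚ V) (hK : ∀ δ ∈ D, ∀ v ∈ K, δ v ∈ K) (δ : Module.End ℚ V) (hδ : δ ∈ D),
      (finrank ℚ V : ℚ) * LinearMap.trace ℚ K (δ.restrict (hK δ hδ)) =
        finrank ℚ K * LinearMap.trace ℚ V δ

open NumberField Pool.Agent.H204R3.CM Pool.Agent.TH170.MF in
/-- Subgroups above the stabilizer of an embedding, and subfields. -/
def P_field : Prop :=
  ∀ (E : Type) [Field E] [NumberField E] [IsCMField E] (φ₀ : E →+* ℂ) (c : Gal E) (B : ℕ),
    (∀ φ : E →+* ℂ, c • φ = ComplexEmbedding.conjugate φ) →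
    (∀ F : IntermediateField ℚ E, F ≠ ⊤ → (∃ ψ : F →+* ℂ, ComplexEmbedding.conjugate ψ ≠ ψ) →
      finrank ℚ F ≤ 2 * B) →
    ∀ H' : Subgroup (Gal E), MulAction.stabilizer (Gal E) φ₀ ≤ H' →
      H' ≠ MulAction.stabilizer (Gal E) φ₀ → c ∉ H' → H'.index ≤ 2 * B

open NumberField Pool.Agent.H204R3.CM Pool.Agent.TH170.MF in
/-- The stabilizer of an embedding and the degree of the normal closure. -/
def P_closure : Prop :=
  ∀ (E : Type) [Field E] [NumberField E] [IsCMField E] (φ₀ : E →+* ℂ),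
    Nat.card (Gal E) = finrank ℚ (IntermediateField.normalClosure ℚ E ℂ) ∧
    Nat.card (Gal E) = Nat.card (MulAction.stabilizer (Gal E) φ₀) * finrank ℚ E

end Pool.Agent.Y1.KN
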