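import Mathlib
import Pool.Agent.Y1.KN.Stm
import Pool.Agent.TH170.QE.Gen

/-!
# Orthogonal projections and translations
-/

set_option linter.unusedSectionVars false
set_option linter.unusedVariables false

namespace Pool.Agent.Y1.KN

open Finset Module Pool.Agent.TH170.MF Pool.Agent.TH170.QC Pool.Agent.TH170.QE

section proj

variable {X : Type*} [Fintype X]

theorem dot_sub_proj (S : Submodule ℚ (X → ℚ)) {s : X → ℚ} (hs : s ∈ S) (u : X → ℚ) :
    dot X s (u - proj S u) = 0 := (mem_orth S _).1 (sub_proj_mem S u) s hs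

theorem proj_symm (S : Submodule ℚ (X → ℚ)) (u v : X → ℚ) :
    dot X (proj S u) v = dot X u (proj S v) := by
  have h1 : dot X (proj S u) v = dot X (proj S u) (proj S v) := by
    have h := dot_sub_proj S (proj_mem S u) v
    rw [map_sub, sub_eq_zero] at h
    exact h
  have h2 : dot X u (proj S v) = dot X (proj S u) (proj S v) := by
    have h := dot_sub_proj S (proj_mem S v) u
    rw [map_sub, sub_eq_zero] at h
    rw [dot_comm, h, dot_comm]
  rw [h1, h2]

theorem isProj (S : Submodule ℚ (X → ℚ)) : LinearMap.IsProj S (proj S) :=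
  ⟨fun u => proj_mem S u, fun u hu => proj_of_mem S hu⟩

theorem trace_proj (S : Submodule ℚ (X → ℚ)) :
    LinearMap.trace ℚ (X → ℚ) (proj S) = finrank ℚ S := (isProj S).trace

/-- The trace of a projection after a map that preserves the space. -/
theorem trace_proj_comp (K : Submodule ℚ (X → ℚ)) (T : (X → ℚ) →ₗ[ℚ] (X → ℚ))
    (hT : ∀ k ∈ K, T k ∈ K) :
    LinearMap.trace ℚ (X → ℚ) (proj K ∘ₗ T) = LinearMap.trace ℚ K (T.restrict hT) := by
  let q : (X → ℚ) →ₗ[ℚ] K := (proj K).codRestrict K (proj_mem K)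
  have h1 : proj K = K.subtype ∘ₗ q := rfl
  have h2 : T.restrict hT = (q ∘ₗ T) ∘ₗ K.subtype := by
    ext k : 1
    apply Subtype.ext
    change T k = proj K (T k)
    rw [proj_of_mem K (hT k k.2)]
  rw [h1, LinearMap.comp_assoc, h2, LinearMap.trace_comp_comm']

theorem proj_comp_of_le {K S : Submodule ℚ (X → ℚ)} (h : K ≤ S) :
    proj S ∘ₗ proj K = proj K := by
  ext1 u
  ext1
  exact congrArg (fun w : X → ℚ => w _) (proj_of_mem S (h (proj_mem K _)))

end proj

section trans

variable {G X : Type*} [Group G] [MulAction G X]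

/-- The translation of functions. -/
def tr (γ : G) : (X → ℚ) →ₗ[ℚ] (X → ℚ) where
  toFun u x := u (γ • x)
  map_add' _ _ := rfl
  map_smul' _ _ := rfl

@[simp] theorem tr_apply (γ : G) (u : X → ℚ) (x : X) : tr γ u x = u (γ • x) := rfl

theorem tr_tr (γ δ : G) (u : X → ℚ) : tr γ (tr δ u) = tr (δ * γ) u := by
  funext x
  simp only [tr_apply, mul_smul]

theorem tr_one (u : X → ℚ) : tr (1 : G) u = u := by
  funext x
  simp only [tr_apply, one_smul]

theorem tr_inv_tr (γ : G) (u : X → ℚ) : tr γ⁻¹ (tr γ u) = u := by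
  rw [tr_tr, mul_inv_cancel, tr_one]

theorem tr_tr_inv (γ : G) (u : X → ℚ) : tr γ (tr γ⁻¹ u) = u := by
  rw [tr_tr, inv_mul_cancel, tr_one]

theorem tr_mem {S : Submodule ℚ (X → ℚ)} (hS : Invariant G S) (γ : G) {s : X → ℚ} (hs : s ∈ S) :
    tr γ s ∈ S := hS γ s hs

variable [Fintype X]

theorem dot_tr (γ : G) (u v : X → ℚ) : dot X (tr γ u) v = dot X u (tr γ⁻¹ v) := by
  rw [dot_apply, dot_apply, ← Equiv.sum_comp (MulAction.toPerm γ) (fun x => u x * tr γ⁻¹ v x)]
  refine sum_congr rfl fun x _ => ?_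
  rw [MulAction.toPerm_apply, tr_apply, tr_apply, inv_smul_smul]

theorem proj_tr {S : Submodule ℚ (X → ℚ)} (hS : Invariant G S) (γ : G) (u : X → ℚ) :
    proj S (tr γ u) = tr γ (proj S u) := by
  refine proj_eq S (tr_mem hS γ (proj_mem S u)) ?_
  rw [mem_orth]
  intro s hs
  have h2 := (mem_orth S _).1 (sub_proj_mem S u) _ (tr_mem hS γ⁻¹ hs)
  have h3 := dot_tr γ⁻¹ s (u - proj S u)
  rw [inv_inv, dot_apply, dot_apply] at h3
  rw [h3, map_sub] at h2
  exact h2

end trans

end Pool.Agent.Y1.KN
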