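import Mathlib
import Pool.Agent.Y1.KN.Proj
import Pool.Agent.TH170.FW.Main

/-!
# Statements of further auxiliary theorems
-/

set_option linter.unusedSectionVars false
set_option linter.unusedVariables false

namespace Pool.Agent.Y1.KN

open Finset Module Pool.Agent.TH170.MF Pool.Agent.TH170.QC Pool.Agent.TH170.QE Pool.Agent.TH170.FW

/-- The space `K` is stable under the equivariant endomorphisms of `S`. -/
def DStable (G : Type*) {X : Type*} [Group G] [MulAction G X] (S K : Submodule ℚ (X → ℚ)) :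
    Prop :=
  ∀ A ∈ homs G S S, ∀ s : S, (s : X → ℚ) ∈ K → A s ∈ K

/-- The sum of the conjugates of the orthogonal projection to `K`. -/
noncomputable def avg (G : Type*) {X : Type*} [Group G] [Fintype G] [MulAction G X] [Fintype X]
    (K : Submodule ℚ (X → ℚ)) : (X → ℚ) →ₗ[ℚ] (X → ℚ) :=
  ∑ γ : G, tr γ ∘ₗ proj K ∘ₗ tr γ⁻¹

/-- The trace formula. -/
def P_avg : Prop :=
  ∀ (G X : Type) [Group G] [Fintype G] [MulAction G X] [Fintype X] (c : G)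
    (S K₁ K₂ : Submodule ℚ (X → ℚ)), S ∈ MinInv G (fun x : X => c • x) → K₁ ≤ S →
    DStable G S K₁ → K₂ ≤ S →
    (finrank ℚ S : ℚ) * LinearMap.trace ℚ (X → ℚ) (proj K₁ ∘ₗ avg G K₂) =
      finrank ℚ K₁ * (Nat.card G * finrank ℚ K₂)

/-- The number of the copies of a minimal space. -/
def P_mult : Prop :=
  ∀ (G X : Type) [Group G] [Fintype G] [MulAction G X] [Fintype X] [DecidableEq X]
    [MulAction.IsPretransitive G X] (c : G), c * c = 1 → (∀ x : X, c • x ≠ x) →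
    (∀ x, c * x = x * c) → ∀ S ∈ MinInv G (fun x : X => c • x), ∀ x₀ : X,
    ∃ F : Finset (Submodule ℚ (X → ℚ)),
      (∀ S' ∈ F, S' ∈ MinInv G (fun x : X => c • x) ∧
        killers G (S' : Set (X → ℚ)) = killers G (S : Set (X → ℚ)) ∧
        finrank ℚ S' = finrank ℚ S) ∧
      (∀ S' ∈ F, ∀ S'' ∈ F, S' ≠ S'' → S'' ≤ (dot X).orthogonal S') ∧
      finrank ℚ (fixedPart G x₀ S) ≤ edim G S * F.card

/-- The bound for the order of the group. -/
def P_base : Prop :=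
  ∀ (G X : Type) [Group G] [Fintype G] [MulAction G X] [Fintype X] [DecidableEq X]
    [MulAction.IsPretransitive G X] (c : G), ∀ S ∈ MinInv G (fun x : X => c • x), ∀ x₀ : X,
    (∀ γ : G, (∀ s ∈ S, ∀ x, s (γ • x) = s x) → γ = 1) → ∀ b : ℕ,
    (finrank ℚ S : ℝ) * (1 - (finrank ℚ (fixedPart G x₀ S) : ℝ) / finrank ℚ S) ^ b < 1 →
    Nat.card G ≤ Fintype.card X ^ b

/-- The kernel inequality. -/
def P_key : Prop :=
  ∀ (G X : Type) [Group G] [Fintype G] [MulAction G X] [Fintype X] [DecidableEq X]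
    [MulAction.IsPretransitive G X] (M : X → ℤ) (n : ℕ), (∀ x, 1 ≤ |M x| ∧ |M x| ≤ n) →
    ∀ c : G, (∀ x, M (c • x) = M x) → c * c = 1 → (∀ x : X, c • x ≠ x) →
    (∀ x, c * x = x * c) → ∀ g : ℕ, Fintype.card X = 2 * g →
    ∀ S ∈ MinInv G (fun x : X => c • x), ∀ x₀ : X,
    ((orthClassW M c (killers G (S : Set (X → ℚ)))).ncard : ℝ) * (edim G S : ℝ) ^ 2 * √g ≤
      2 ^ g * (n : ℝ) ^ 2 * finrank ℚ (fixedPart G x₀ S) * finrank ℚ S

/-- The numerical part. -/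
def P_num : Prop :=
  ∃ C : ℝ, ∀ (g d h e c n Gc : ℕ) (N : ℝ), 1 ≤ n → 1 ≤ h → h ≤ d → d ≤ g → 1 ≤ e →
    h * d ≤ e * g → c = e + (d - h) → 3 ≤ c → 2 * g ≤ Gc → Gc ≤ (2 * g) ^ (2 * g) →
    (∀ b : ℕ, (d : ℝ) * (1 - (h : ℝ) / d) ^ b < 1 → Gc ≤ (2 * g) ^ b) → N ≤ 1 →
    N ≤ Pool.Agent.TH170.QE.boundA g d c (Real.log ((Gc * n : ℕ) : ℝ)) →
    N ≤ (n : ℝ) ^ 2 * h * d / ((e : ℝ) ^ 2 * √g) →
    (∀ P : ℝ, 10 ^ 4 ≤ P → 10 * Real.log ((Gc * n : ℕ) : ℝ) ≤ P → N ≤ (4 / 5) ^ d * P ^ h) →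
    N ≤ C * (n : ℝ) ^ 2 * (d / g) * (g : ℝ) ^ (-(1 / 5) : ℝ)

open NumberField Pool.Agent.H204R3.CM in
/-- Subgroups above the stabilizer of an embedding and subfields. -/
def P_corr : Prop :=
  ∀ (E : Type) [Field E] [NumberField E] [IsCMField E] (φ₀ : E →+* ℂ) (H' : Subgroup (Gal E)),
    MulAction.stabilizer (Gal E) φ₀ ≤ H' →
    ∃ F : IntermediateField ℚ E, ∀ γ : Gal E, γ ∈ H' ↔ ∀ x ∈ F, (γ • φ₀) x = φ₀ x

open NumberField Pool.Agent.H204R3.CM in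
/-- The odd functions that depend only on the restriction to a subfield. -/
def P_dim : Prop :=
  ∀ (E : Type) [Field E] [NumberField E] [IsCMField E] (F : IntermediateField ℚ E)
    (V : Submodule ℚ ((E →+* ℂ) → ℚ)), IsOddSpace V →
    (∀ u ∈ V, ∀ φ ψ : E →+* ℂ, (∀ x ∈ F, φ x = ψ x) → u φ = u ψ) →
    2 * finrank ℚ V ≤ finrank ℚ F

end Pool.Agent.Y1.KN
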