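import Mathlib
import Pool.Agent.Y1.KN.Stm2

/-!
# The bound with a prime number
-/

set_option linter.unusedSectionVars false
set_option linter.unusedVariables false

namespace Pool.Agent.Y1.KN

open Finset Module Pool.Agent.TH170.MF Pool.Agent.TH170.QC Pool.Agent.TH170.QE Pool.Agent.TH170.FW
  Pool.Agent.TH170.GC

variable {G X : Type*} [Group G] [Fintype G] [MulAction G X] [Fintype X]
  [DecidableEq X] [MulAction.IsPretransitive G X]

/-- The trivial bound. -/
theorem ncard_class_le_two_pow (M : X → ℤ) {c : G} (hc : c * c = 1) (hfree : ∀ x : X, c • x ≠ x)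
    {g : ℕ} (hg : Fintype.card X = 2 * g) (K : Submodule ℚ (ConjClasses G → ℚ)) :
    ((orthClassW M c K (X := X)).ncard : ℝ) ≤ 2 ^ g := by
  have hcc : ∀ x : X, c • c • x = x := fun x => by rw [smul_smul, hc, one_smul]
  have h1 : (orthClassW M c K (X := X)).ncard ≤ 2 ^ g :=
    (Set.ncard_le_ncard (fun f hf => hf.1) (finite_oddSigns _)).trans
      (ncard_oddSigns_le hcc hfree hg)
  exact_mod_cast h1

open Real

/-- The count in terms of the dimension and the fixed vectors. -/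
theorem ncard_class_le_prime (M : X → ℤ) {n : ℕ} (hn0 : n ≠ 0)
    (hMn : ∀ x, M x ∣ (n : ℤ)) {c : G} (hMc : ∀ x, M (c • x) = M x) (hc : c * c = 1)
    (hfree : ∀ x : X, c • x ≠ x) (hcen : ∀ x, c * x = x * c) {g : ℕ}
    (hg : Fintype.card X = 2 * g) {S₀ : Submodule ℚ (X → ℚ)}
    (hS₀ : S₀ ∈ MinInv G (fun x : X => c • x)) (x₀ : X) {P : ℝ} (hP1 : 10 ^ 4 ≤ P)
    (hP2 : 10 * log ((Nat.card G * n : ℕ) : ℝ) ≤ P) :
    ((orthClassW M c (killers G (S₀ : Set (X → ℚ)))).ncard : ℝ) ≤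
      2 ^ g * ((4 / 5) ^ finrank ℚ S₀ * P ^ finrank ℚ (fixedPart G x₀ S₀)) := by
  classical
  obtain ⟨hg1, hn, hd1, hdg, hr0, hL69⟩ := basicsW hn0 hc hfree hg hS₀ x₀
  have hP0 : 0 < P := lt_of_lt_of_le (by norm_num) hP1
  have hcardpos : 0 < Nat.card G * n := Nat.mul_pos Nat.card_pos (Nat.pos_of_ne_zero hn0)
  obtain ⟨p, hp, hpGn, hp1, hp2⟩ := exists_prime_not_dvd hP1 hcardpos hP2
  have hfact : Fact p.Prime := ⟨hp⟩
  have hpG : ¬ p ∣ Nat.card G := fun h => hpGn (Dvd.dvd.mul_right h n)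
  have hMp := cast_ne_zero_of_dvd (G := G) hMn hpGn
  have hp2500 : (2500 : ℝ) < p := by
    have h1 : (10 : ℝ) ^ 4 = 10000 := by norm_num
    rw [h1] at hP1
    linarith
  have hp3 : 2 < p := by
    have h1 : (2 : ℝ) < p := by linarith
    exact_mod_cast h1
  have hodd : Odd p := hp.odd_of_ne_two (by omega)
  have hp0 : (0 : ℝ) < p := by linarith
  have hmain := ncard_orth_iso (p := p) (by omega) hpG M hMp hMc hc hfree hcen hg hS₀ x₀
  set d := finrank ℚ S₀ with hd
  set h := finrank ℚ (fixedPart G x₀ S₀) with hh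
  have hfix : h ≤ d := Submodule.finrank_mono fun u hu => hu.1
  have hdR : (1 : ℝ) ≤ d := by exact_mod_cast hd1
  have hgR : (1 : ℝ) ≤ g := by exact_mod_cast hg1
  have hdgR : (d : ℝ) ≤ g := by exact_mod_cast hdg
  have hsig1 : sig p ((g : ℝ) / d) ≤ 4 / 5 * p := by
    have h1 := sum_cw_le p hodd (a := (g : ℝ) / d) (by positivity)
    have h2 : √(2 / (π * ((g : ℝ) / d))) ≤ 0.799 := by
      rw [sqrt_le_left (by norm_num)]
      have h3 : (1 : ℝ) ≤ (g : ℝ) / d := by
        rw [one_le_div (by linarith)]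
        exact hdgR
      rw [div_le_iff₀ (by positivity)]
      have h4 : (3.14 : ℝ) < π := pi_gt_d2
      nlinarith
    have h3 : (p : ℝ) * √(2 / (π * ((g : ℝ) / d))) ≤ p * 0.799 :=
      mul_le_mul_of_nonneg_left h2 hp0.le
    calc sig p ((g : ℝ) / d) ≤ 1 + p * √(2 / (π * ((g : ℝ) / d))) := h1
      _ ≤ 4 / 5 * p := by linarith
  have hpe : (1 : ℝ) ≤ ((p - 1 : ℕ) : ℝ) ^ edim G S₀ := by
    refine one_le_pow₀ ?_
    have : 1 ≤ p - 1 := by omega
    exact_mod_cast this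
  set N := (((orthClassW M c (killers G (S₀ : Set (X → ℚ)))).ncard : ℕ) : ℝ) with hN
  have hN0 : 0 ≤ N := Nat.cast_nonneg _
  have h1 : N * (p : ℝ) ^ (d - h) ≤ 2 ^ g * ((4 / 5) ^ d * p ^ h) * p ^ (d - h) := by
    calc N * (p : ℝ) ^ (d - h) ≤ N * (((p - 1 : ℕ) : ℝ) ^ edim G S₀ * (p : ℝ) ^ (d - h)) := by
          refine mul_le_mul_of_nonneg_left ?_ hN0
          exact le_mul_of_one_le_left (by positivity) hpe
      _ ≤ 2 ^ g * sig p ((g : ℝ) / d) ^ d := hmain
      _ ≤ 2 ^ g * (4 / 5 * p) ^ d := by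
          refine mul_le_mul_of_nonneg_left (pow_le_pow_left₀ (sig_nonneg _ _) hsig1 d)
            (by positivity)
      _ = _ := by
          have h2 : (p : ℝ) ^ d = p ^ h * p ^ (d - h) := by
            rw [← pow_add, Nat.add_sub_cancel' hfix]
          rw [mul_pow, h2]
          ring
  have h2 := le_of_mul_le_mul_right h1 (by positivity)
  refine h2.trans ?_
  gcongr

end Pool.Agent.Y1.KN
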