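import Mathlib
import Pool.Agent.Y1.KN.Prime

/-!
# The bound for a faithful minimal space
-/

set_option linter.unusedSectionVars false
set_option linter.unusedVariables false

namespace Pool.Agent.Y1.KN

open Finset Module Pool.Agent.TH170.MF Pool.Agent.TH170.QC Pool.Agent.TH170.QE Pool.Agent.TH170.FW
  Pool.Agent.TH170.GC

section

variable {G X : Type*} [Group G] [Fintype G] [MulAction G X] [Fintype X]

/-- Only the identity acts trivially on the space. -/
def Faith (G : Type*) {X : Type*} [Group G] [MulAction G X] (S : Submodule ℚ (X → ℚ)) : Prop :=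
  ∀ γ : G, (∀ s ∈ S, ∀ x, s (γ • x) = s x) → γ = 1

/-- If the stabilizer has more than two elements, the fixed vectors of a faithful space have
codimension at least two. -/
theorem codim_ge_two {S : Submodule ℚ (X → ℚ)} (hS : Invariant G S) (hf : Faith G S) (x₀ : X)
    (h3 : 3 ≤ Nat.card (MulAction.stabilizer G x₀)) :
    2 ≤ finrank ℚ S - finrank ℚ (fixedPart G x₀ S) := by
  classical
  set F := fixedPart G x₀ S with hF
  have hFS : F ≤ S := fun u hu => hu.1
  let C : Submodule ℚ (X → ℚ) := S ⊓ (dot X).orthogonal F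
  have hsup : F ⊔ C = S := by
    refine le_antisymm (sup_le hFS inf_le_left) ?_
    intro s hs
    have h1 : s = proj F s + (s - proj F s) := by abel
    rw [h1]
    exact Submodule.add_mem_sup (proj_mem F s)
      ⟨S.sub_mem hs (hFS (proj_mem F s)), sub_proj_mem F s⟩
  have hinf : F ⊓ C = ⊥ := by
    rw [eq_bot_iff]
    intro s hs
    exact (Submodule.disjoint_def.1 (isCompl_orth F).disjoint) s hs.1 hs.2.2
  have hdim := Submodule.finrank_sup_add_finrank_inf_eq F C
  rw [hsup, hinf, finrank_bot, add_zero] at hdim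
  by_contra hcon
  have hC1 : finrank ℚ C ≤ 1 := by omega
  obtain ⟨v, hv⟩ := finrank_le_one_iff.1 hC1
  have hval : ∀ η : MulAction.stabilizer G x₀, ∃ r : ℚ, (r = 1 ∨ r = -1) ∧
      tr (η : G) (v : X → ℚ) = r • (v : X → ℚ) := by
    intro η
    have hη : (η : G) • x₀ = x₀ := η.2
    have hmem : tr (η : G) (v : X → ℚ) ∈ C := by
      refine ⟨tr_mem hS _ v.2.1, fun s hs => ?_⟩
      change ∑ x, s x * tr (η : G) (v : X → ℚ) x = 0
      have h4 := dot_tr (η : G)⁻¹ s (v : X → ℚ)
      rw [inv_inv, dot_apply, dot_apply] at h4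
      rw [← h4]
      have h5 : tr (η : G)⁻¹ s = s := by
        funext x
        exact hs.2 _ (by rw [inv_smul_eq_iff, hη]) x
      rw [h5]
      exact (mem_orth F _).1 v.2.2 s hs
    obtain ⟨r, hr⟩ := hv ⟨_, hmem⟩
    have hr' : r • (v : X → ℚ) = tr (η : G) (v : X → ℚ) := congrArg Subtype.val hr
    by_cases hv0 : (v : X → ℚ) = 0
    · exact ⟨1, Or.inl rfl, by rw [hv0, map_zero, smul_zero]⟩
    refine ⟨r, ?_, hr'.symm⟩
    have h6 : dot X (tr (η : G) (v : X → ℚ)) (tr (η : G) (v : X → ℚ)) =
        dot X (v : X → ℚ) (v : X → ℚ) := by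
      rw [dot_tr, tr_inv_tr]
    rw [← hr', map_smul, map_smul, LinearMap.smul_apply, smul_eq_mul, smul_eq_mul] at h6
    have h7 : dot X (v : X → ℚ) (v : X → ℚ) ≠ 0 := fun h => hv0 (dot_self h)
    have h8 : (r * r - 1) * dot X (v : X → ℚ) (v : X → ℚ) = 0 := by linarith
    have h9 := (mul_eq_zero.1 h8).resolve_right h7
    exact mul_self_eq_one_iff.1 (by linarith)
  choose φ hφ1 hφ2 using hval
  have hinj : Function.Injective φ := by
    intro η η' hηη
    apply Subtype.ext
    have h4 : (η : G) * (η' : G)⁻¹ = 1 := by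
      apply hf
      intro s hs x
      have h5 : tr (η : G) s = tr (η' : G) s := by
        have h6 : s = proj F s + (s - proj F s) := by abel
        obtain ⟨r, hr⟩ := hv ⟨s - proj F s, S.sub_mem hs (hFS (proj_mem F s)), sub_proj_mem F s⟩
        have hr' : r • (v : X → ℚ) = s - proj F s := congrArg Subtype.val hr
        have h7 : ∀ ζ : MulAction.stabilizer G x₀, tr (ζ : G) (proj F s) = proj F s := by
          intro ζ
          funext y
          exact (proj_mem F s).2 _ ζ.2 y
        rw [h6, ← hr', map_add, map_add, h7, h7, map_smul, map_smul, hφ2, hφ2, hηη]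
      have h8 := congrFun h5 ((η' : G)⁻¹ • x)
      rw [tr_apply, tr_apply, smul_inv_smul, smul_smul] at h8
      exact h8
    exact mul_inv_eq_one.1 h4
  have hcard : Nat.card (MulAction.stabilizer G x₀) ≤ 2 := by
    have h4 : ∀ η, φ η ∈ ({1, -1} : Finset ℚ) := by
      intro η
      rw [mem_insert, mem_singleton]
      exact hφ1 η
    have h5 := Nat.card_le_card_of_injective
      (fun η => (⟨φ η, h4 η⟩ : ({1, -1} : Finset ℚ))) (fun η η' h => hinj (congrArg Subtype.val h))
    refine h5.trans ?_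
    rw [Nat.card_eq_fintype_card, Fintype.card_coe]
    exact card_le_two
  omega

/-- The order of a group with a faithful space of functions. -/
theorem card_le_of_faith {S : Submodule ℚ (X → ℚ)} (hf : Faith G S) {g : ℕ}
    (hg : Fintype.card X = 2 * g) : Nat.card G ≤ (2 * g) ^ (2 * g) := by
  classical
  have h1 := Nat.card_le_card_of_injective (fun (γ : G) (x : X) => γ • x) (fun γ δ h => by
    have h2 : γ * δ⁻¹ = 1 := by
      apply hf
      intro s hs x
      have h3 := congrFun h (δ⁻¹ • x)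
      beta_reduce at h3
      rw [smul_inv_smul, smul_smul] at h3
      rw [h3]
    exact mul_inv_eq_one.1 h2)
  rw [Nat.card_fun, Nat.card_eq_fintype_card (α := X), hg] at h1
  exact h1

end

section mult

variable {G X : Type} [Group G] [Fintype G] [MulAction G X] [Fintype X]
  [DecidableEq X] [MulAction.IsPretransitive G X]

/-- The fixed vectors, the dimension and the endomorphisms. -/
theorem fixed_mul_le (hM : P_mult) {c : G} (hc : c * c = 1) (hfree : ∀ x : X, c • x ≠ x)
    (hcen : ∀ x, c * x = x * c) {g : ℕ} (hg : Fintype.card X = 2 * g)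
    {S : Submodule ℚ (X → ℚ)} (hS : S ∈ MinInv G (fun x : X => c • x)) (x₀ : X) :
    finrank ℚ (fixedPart G x₀ S) * finrank ℚ S ≤ edim G S * g := by
  classical
  obtain ⟨F, hF, horth, hle⟩ := hM G X c hc hfree hcen S hS x₀
  have hcc : ∀ x : X, c • c • x = x := fun x => by rw [smul_smul, hc, one_smul]
  have h1 := sum_finrank_le (c := fun x : X => c • x) hcc hfree F
    (fun S' hS' => (hF S' hS').1.2.2.1) horth hg
  rw [sum_congr rfl fun S' hS' => (hF S' hS').2.2, sum_const, smul_eq_mul] at h1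
  calc finrank ℚ (fixedPart G x₀ S) * finrank ℚ S ≤ edim G S * F.card * finrank ℚ S :=
        Nat.mul_le_mul_right _ hle
    _ = edim G S * (F.card * finrank ℚ S) := by ring
    _ ≤ _ := Nat.mul_le_mul_left _ h1

end mult

/-- The bound for the faithful spaces. -/
def P_faith : Prop :=
  ∃ C : ℝ, ∀ (G X : Type) [Group G] [Fintype G] [MulAction G X] [Fintype X] [DecidableEq X]
    [MulAction.IsPretransitive G X] (M : X → ℤ) (n : ℕ), n ≠ 0 → (∀ x, M x ∣ (n : ℤ)) →
    ∀ c : G, (∀ x, M (c • x) = M x) → c * c = 1 → (∀ x : X, c • x ≠ x) →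
    (∀ x, c * x = x * c) → ∀ g : ℕ, Fintype.card X = 2 * g →
    ∀ S ∈ MinInv G (fun x : X => c • x), ∀ x₀ : X, Faith G S →
    3 ≤ Nat.card (MulAction.stabilizer G x₀) →
    ((orthClassW M c (killers G (S : Set (X → ℚ)))).ncard : ℝ) ≤
      2 ^ g * (C * (n : ℝ) ^ 2 * (finrank ℚ S / g) * (g : ℝ) ^ (-(1 / 5) : ℝ))

theorem abs_le_of_dvd {m : ℤ} {n : ℕ} (hn : n ≠ 0) (h : m ∣ (n : ℤ)) : 1 ≤ |m| ∧ |m| ≤ n := by
  have hm : m ≠ 0 := by
    rintro rfl
    rw [zero_dvd_iff] at h
    exact hn (by exact_mod_cast h)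
  refine ⟨Int.one_le_abs hm, ?_⟩
  have h1 : |m| ∣ (n : ℤ) := (abs_dvd m _).2 h
  exact Int.le_of_dvd (by exact_mod_cast Nat.pos_of_ne_zero hn) h1

theorem faith (hM : P_mult) (hB : P_base) (hK : P_key) (hN : P_num) : P_faith := by
  classical
  obtain ⟨C, hC⟩ := hN
  refine ⟨C, ?_⟩
  intro G X _ _ _ _ _ _ M n hn0 hMn c hMc hc hfree hcen g hg S hS x₀ hf h3
  obtain ⟨hg1, hn, hd1, hdg, hr0, hL69⟩ := basicsW hn0 hc hfree hg hS x₀
  have hhd : finrank ℚ (fixedPart G x₀ S) ≤ finrank ℚ S := Submodule.finrank_mono fun u hu => hu.1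
  have he1 : 0 < edim G S := edim_pos hS.1
  have heh : edim G S ≤ finrank ℚ (fixedPart G x₀ S) := edim_le hc hcen x₀ hS.2.1 hS.2.2.1
  have hpow : (0 : ℝ) < 2 ^ g := by positivity
  have hg0 : (0 : ℝ) < g := by exact_mod_cast hg1
  have he0 : (0 : ℝ) < edim G S := by exact_mod_cast he1
  set N : ℝ := ((orthClassW M c (killers G (S : Set (X → ℚ)))).ncard : ℝ) / 2 ^ g with hNdef
  have key := hC g (finrank ℚ S) (finrank ℚ (fixedPart G x₀ S)) (edim G S)
    (edim G S + codimFix G x₀ S) n (Nat.card G) N (Nat.pos_of_ne_zero hn0) (he1.trans_le heh) hhd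
    hdg he1 (fixed_mul_le hM hc hfree hcen hg hS x₀) rfl
    (by
      have := codim_ge_two hS.2.1 hf x₀ h3
      unfold codimFix
      omega)
    (by
      have h5 : Nat.card (MulAction.stabilizer G x₀) * (2 * g) = Nat.card G := by
        rw [← hg, ← Nat.card_eq_fintype_card (α := X),
          ← MulAction.index_stabilizer_of_transitive (G := G) (x := x₀)]
        exact Subgroup.card_mul_index _
      nlinarith)
    (card_le_of_faith hf hg)
    (fun b hb => by
      have h4 := hB G X c S hS x₀ hf b hb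
      rwa [hg] at h4)
    (by
      rw [hNdef, div_le_one hpow]
      exact ncard_class_le_two_pow M hc hfree hg _)
    (by
      rw [hNdef, div_le_iff₀' hpow]
      exact ncard_orth_boundA M hn0 hMn hMc hc hfree hcen hg hS x₀)
    (by
      have h4 := hK G X M n (fun x => abs_le_of_dvd hn0 (hMn x)) c hMc hc hfree hcen g hg S hS x₀
      rw [hNdef, div_le_iff₀ hpow, div_mul_eq_mul_div, le_div_iff₀ (by positivity)]
      calc ((orthClassW M c (killers G (S : Set (X → ℚ)))).ncard : ℝ) *
            ((edim G S : ℝ) ^ 2 * √g) = ((orthClassW M c (killers G (S : Set (X → ℚ)))).ncard : ℝ) *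
            (edim G S : ℝ) ^ 2 * √g := by ring
        _ ≤ _ := h4
        _ = _ := by ring)
    (fun P hP1 hP2 => by
      rw [hNdef, div_le_iff₀' hpow]
      exact ncard_class_le_prime M hn0 hMn hMc hc hfree hcen hg hS x₀ hP1 hP2)
  rw [hNdef, div_le_iff₀' hpow] at key
  exact key

end Pool.Agent.Y1.KN
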