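import Mathlib
import Pool.Agent.Y1.KN.Faithful

/-!
# Statements about groups with small stabilizers
-/

set_option linter.unusedSectionVars false
set_option linter.unusedVariables false

namespace Pool.Agent.Y1.KN

open Finset Module Pool.Agent.TH170.MF Pool.Agent.TH170.QC Pool.Agent.TH170.QE Pool.Agent.TH170.FW

/-- The order of a group with a faithful space (Minkowski). -/
def P_mink : Prop :=
  ∀ (G X : Type) [Group G] [Fintype G] [MulAction G X] [Fintype X] (S : Submodule ℚ (X → ℚ)),
    Invariant G S → Faith G S → Nat.card G ≤ 3 ^ (finrank ℚ S ^ 2)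

/-- The dimension of a space on which an element of prime order acts nontrivially. -/
def P_order : Prop :=
  ∀ (G X : Type) [Group G] [Fintype G] [MulAction G X] [Fintype X] (S : Submodule ℚ (X → ℚ))
    (γ : G) (p : ℕ), Invariant G S → p.Prime → γ ^ p = 1 →
    (¬ ∀ s ∈ S, ∀ x, s (γ • x) = s x) → p - 1 ≤ finrank ℚ S

/-- The order of a 2-group with one involution that acts by `-1`. -/
def P_free : Prop :=
  ∀ (G X : Type) [Group G] [Fintype G] [MulAction G X] [Fintype X] (S : Submodule ℚ (X → ℚ))
    (z : G) (a : ℕ), Invariant G S → S ≠ ⊥ → (∀ s ∈ S, ∀ x, s (z • x) = - s x) →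
    Nat.card G = 2 ^ a → (∀ γ : G, γ ≠ 1 → γ * γ = 1 → γ = z) →
    Nat.card G ≤ 4 * finrank ℚ S

/-- The value of the character of a minimal space. -/
def P_char : Prop :=
  ∀ (G X : Type) [Group G] [Fintype G] [MulAction G X] [Fintype X] (S : Submodule ℚ (X → ℚ))
    (η : G), Invariant G S →
    (LinearMap.trace ℚ (X → ℚ) (proj S ∘ₗ tr η)) ^ 2 ≤
      (edim G S : ℚ) * Nat.card (Subgroup.centralizer ({η} : Set G))

end Pool.Agent.Y1.KN
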