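import Mathlib
import Pool.Agent.Y1.KN.Stm3

/-!
# Faithful spaces whose fixed vectors have small codimension
-/

set_option linter.unusedSectionVars false
set_option linter.unusedVariables false

namespace Pool.Agent.Y1.KN

open Finset Module Pool.Agent.TH170.MF Pool.Agent.TH170.QC Pool.Agent.TH170.QE Pool.Agent.TH170.FW
  Pool.Agent.TH170.GC

/-- The subgroups above the stabilizer that do not contain `c` have a small index. -/
def Star (G : Type*) {X : Type*} [Group G] [MulAction G X] (c : G) (x₀ : X) (g : ℕ) : Prop :=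
  ∀ H' : Subgroup G, MulAction.stabilizer G x₀ ≤ H' → H' ≠ MulAction.stabilizer G x₀ → c ∉ H' →
    H'.index ^ 2 < 2 * g

theorem card_eq_two_pow {C : Type*} [Group C] [Finite C]
    (h : ∀ (q : ℕ) (a : C), q.Prime → q ≠ 2 → orderOf a ≠ q) : ∃ k, Nat.card C = 2 ^ k := by
  rcases Nat.eq_two_pow_or_exists_odd_prime_and_dvd (Nat.card C) with h1 | ⟨q, hq, hqd, hodd⟩
  · exact h1
  · exfalso
    have : Fact q.Prime := ⟨hq⟩
    obtain ⟨a, ha⟩ := exists_prime_orderOf_dvd_card' q hqd
    refine h q a hq ?_ ha
    rintro rfl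
    exact absurd hodd (by decide)

section

variable {G X : Type} [Group G] [Fintype G] [MulAction G X] [Fintype X] [DecidableEq X]
  [MulAction.IsPretransitive G X]

theorem card_stab_mul {g : ℕ} (hg : Fintype.card X = 2 * g) (x₀ : X) :
    Nat.card (MulAction.stabilizer G x₀) * (2 * g) = Nat.card G := by
  rw [← hg, ← Nat.card_eq_fintype_card (α := X),
    ← MulAction.index_stabilizer_of_transitive (G := G) (x := x₀)]
  exact Subgroup.card_mul_index _

/-- The case of a trivial stabilizer. -/
theorem small_one (hF : P_free) (hO : P_order) (hM : P_mult) {c : G} (hc : c * c = 1)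
    (hfree : ∀ x : X, c • x ≠ x) (hcen : ∀ x, c * x = x * c) {g : ℕ}
    (hg : Fintype.card X = 2 * g) {S : Submodule ℚ (X → ℚ)}
    (hS : S ∈ MinInv G (fun x : X => c • x)) (x₀ : X) (hf : Faith G S)
    (hstar : Star G c x₀ g) (hstab : Nat.card (MulAction.stabilizer G x₀) = 1)
    (he : edim G S ≤ 2) :
    g ≤ 8 ∨ (finrank ℚ (fixedPart G x₀ S) = finrank ℚ S ∧ Nat.card G = 2 * g ∧
      2 * g < (finrank ℚ S + 1) ^ 2 ∧ finrank ℚ S ^ 2 ≤ 2 * g) := by
  classical
  have hbot : MulAction.stabilizer G x₀ = ⊥ := Subgroup.card_eq_one.1 hstab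
  have hcard : Nat.card G = 2 * g := by
    have h1 := card_stab_mul (G := G) hg x₀
    rw [hstab, one_mul] at h1
    exact h1.symm
  have hc1 : c ≠ 1 := by
    rintro rfl
    exact hfree x₀ (one_smul G x₀)
  have hfix : fixedPart G x₀ S = S := by
    refine le_antisymm (fun u hu => hu.1) fun u hu => ⟨hu, fun h hh x => ?_⟩
    have h1 : h ∈ MulAction.stabilizer G x₀ := hh
    rw [hbot, Subgroup.mem_bot] at h1
    rw [h1, one_smul]
  have hmul := fixed_mul_le hM hc hfree hcen hg hS x₀
  rw [hfix] at hmul
  have hd2 : finrank ℚ S ^ 2 ≤ 2 * g := by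
    calc finrank ℚ S ^ 2 = finrank ℚ S * finrank ℚ S := sq _
      _ ≤ edim G S * g := hmul
      _ ≤ 2 * g := Nat.mul_le_mul_right _ he
  by_cases hex : ∃ (q : ℕ) (a : G), q.Prime ∧ orderOf a = q ∧ a ≠ c
  · obtain ⟨q, a, hq, haq, hac⟩ := hex
    right
    refine ⟨by rw [hfix], hcard, ?_, hd2⟩
    have ha1 : a ≠ 1 := by
      rintro rfl
      rw [orderOf_one] at haq
      exact hq.one_lt.ne haq
    have hnot : c ∉ Subgroup.zpowers a := by
      intro hmem
      have h1 : Nat.card (Subgroup.zpowers a) = q := by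
        rw [Nat.card_zpowers, haq]
      have h2 : orderOf c = 2 := orderOf_eq_prime (by rw [sq, hc]) hc1
      have h3 : 2 ∣ q := by
        rw [← h2, ← h1]
        exact Subgroup.orderOf_dvd_natCard _ hmem
      have h4 : q = 2 := ((Nat.prime_dvd_prime_iff_eq Nat.prime_two hq).1 h3).symm
      obtain ⟨k, hk⟩ := Subgroup.mem_zpowers_iff.1 hmem
      have h5 : a ^ 2 = 1 := by
        rw [← h4, ← haq]
        exact pow_orderOf_eq_one a
      rcases Int.even_or_odd' k with ⟨j, rfl | rfl⟩
      · rw [zpow_mul] at hk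
        have h6 : a ^ (2 : ℤ) = 1 := by exact_mod_cast h5
        rw [h6, one_zpow] at hk
        exact hc1 hk.symm
      · rw [zpow_add, zpow_mul] at hk
        have h6 : a ^ (2 : ℤ) = 1 := by exact_mod_cast h5
        rw [h6, one_zpow, one_mul, zpow_one] at hk
        exact hac hk
    have h1 := hstar (Subgroup.zpowers a) (by rw [hbot]; exact bot_le) (by
      rw [hbot]
      intro h
      exact ha1 (Subgroup.zpowers_eq_bot.1 h)) hnot
    have h2 : q * (Subgroup.zpowers a).index = 2 * g := by
      rw [← hcard, ← haq, ← Nat.card_zpowers]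
      exact Subgroup.card_mul_index _
    have h3 := hO G X S a q hS.2.1 hq (by rw [← haq]; exact pow_orderOf_eq_one a)
      (fun h => ha1 (hf a h))
    have hq1 : 1 ≤ q := hq.one_lt.le
    have h4 : q ≤ finrank ℚ S + 1 := by omega
    have hpos : 0 < (Subgroup.zpowers a).index := by
      rcases Nat.eq_zero_or_pos (Subgroup.zpowers a).index with h0 | h0
      · exact absurd h0 Subgroup.index_ne_zero_of_finite
      · exact h0
    have h5 : 2 * g < q ^ 2 := by
      have h6 : (Subgroup.zpowers a).index < q := by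
        rw [← h2] at h1
        nlinarith
      nlinarith
    exact h5.trans_le (Nat.pow_le_pow_left h4 2)
  · push Not at hex
    left
    obtain ⟨k, hk⟩ := card_eq_two_pow (C := G) (fun q a hq hq2 ha => by
      have h1 := hex q a hq ha
      rw [h1] at ha
      have h2 : orderOf c = 2 := orderOf_eq_prime (by rw [sq, hc]) hc1
      exact hq2 (ha.symm.trans h2))
    have h1 := hF G X S c k hS.2.1 hS.1 (fun s hs x => hS.2.2.1 s hs x) hk
      (fun γ hγ hγγ => hex 2 γ Nat.prime_two (orderOf_eq_prime (by rw [sq, hγγ]) hγ))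
    rw [hcard] at h1
    have h2 : g ≤ 2 * finrank ℚ S := by omega
    nlinarith

/-- The case of a stabilizer with two elements. -/
theorem small_two (hF : P_free) (hO : P_order) (hM : P_mult) (hC : P_char) (hK : P_mink) {c : G}
    (hc : c * c = 1) (hfree : ∀ x : X, c • x ≠ x) (hcen : ∀ x, c * x = x * c) {g : ℕ}
    (hg : Fintype.card X = 2 * g) {S : Submodule ℚ (X → ℚ)}
    (hS : S ∈ MinInv G (fun x : X => c • x)) (x₀ : X) (hf : Faith G S)
    (hstar : Star G c x₀ g) (hstab : Nat.card (MulAction.stabilizer G x₀) = 2)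
    (hcS : edim G S + codimFix G x₀ S ≤ 2) : g ≤ 3 ^ 100 := by
  classical
  rcases Nat.lt_or_ge g 13 with hg13 | hg13
  · exact (Nat.le_of_lt hg13).trans (by norm_num)
  have hcard : Nat.card G = 4 * g := by
    have h1 := card_stab_mul (G := G) hg x₀
    rw [hstab] at h1
    omega
  have hc1 : c ≠ 1 := by
    rintro rfl
    exact hfree x₀ (one_smul G x₀)
  -- the involution in the stabilizer
  obtain ⟨η, hηS, hη1, hηall⟩ : ∃ η : G, η • x₀ = x₀ ∧ η ≠ 1 ∧
      ∀ h : G, h • x₀ = x₀ → h = 1 ∨ h = η := by
    have h1 : Nat.card (MulAction.stabilizer G x₀) = 2 := hstab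
    obtain ⟨a, b, hab, huniv⟩ := Nat.card_eq_two_iff.1 h1
    by_cases ha : a = 1
    · refine ⟨b, b.2, fun h => hab (by rw [ha]; exact (Subtype.ext h).symm), fun h hh => ?_⟩
      have h2 : (⟨h, hh⟩ : MulAction.stabilizer G x₀) ∈ ({a, b} : Set _) := by
        rw [huniv]
        trivial
      rcases h2 with h2 | h2
      · left
        rw [ha] at h2
        exact congrArg Subtype.val h2
      · right
        exact congrArg Subtype.val h2
    · refine ⟨a, a.2, fun h => ha (Subtype.ext h), fun h hh => ?_⟩
      have hb : b = 1 := by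
        have h2 : (1 : MulAction.stabilizer G x₀) ∈ ({a, b} : Set _) := by
          rw [huniv]
          trivial
        rcases h2 with h2 | h2
        · exact absurd h2.symm ha
        · exact (Set.mem_singleton_iff.1 h2).symm
      have h2 : (⟨h, hh⟩ : MulAction.stabilizer G x₀) ∈ ({a, b} : Set _) := by
        rw [huniv]
        trivial
      rcases h2 with h2 | h2
      · right
        exact congrArg Subtype.val h2
      · left
        exact congrArg Subtype.val ((Set.mem_singleton_iff.1 h2).trans hb)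
  have hηη : η * η = 1 := by
    have h1 : (η * η) • x₀ = x₀ := by rw [mul_smul, hηS, hηS]
    rcases hηall _ h1 with h2 | h2
    · exact h2
    · exfalso
      apply hη1
      have h3 : η * η = η * 1 := by rw [h2, mul_one]
      exact mul_left_cancel h3
  have hcη : c ≠ η := by
    rintro rfl
    exact hfree x₀ hηS
  set F := fixedPart G x₀ S with hFdef
  have hFS : F ≤ S := fun u hu => hu.1
  have hmul := fixed_mul_le hM hc hfree hcen hg hS x₀
  rw [← hFdef] at hmul
  have he1 : 0 < edim G S := edim_pos hS.1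
  have heh : edim G S ≤ finrank ℚ F := edim_le hc hcen x₀ hS.2.1 hS.2.2.1
  have hhd : finrank ℚ F ≤ finrank ℚ S := Submodule.finrank_mono hFS
  have hlt : finrank ℚ F < finrank ℚ S := by
    rcases Nat.lt_or_ge (finrank ℚ F) (finrank ℚ S) with h1 | h1
    · exact h1
    · exfalso
      have h2 : F = S := Submodule.eq_of_le_of_finrank_le hFS h1
      apply hη1
      apply hf
      intro s hs x
      rw [← h2] at hs
      exact hs.2 η hηS x
  have hcod : codimFix G x₀ S = finrank ℚ S - finrank ℚ F := rfl
  have heq1 : edim G S = 1 := by omega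
  have hhd1 : finrank ℚ S = finrank ℚ F + 1 := by omega
  rw [heq1, one_mul, hhd1] at hmul
  set h := finrank ℚ F with hh
  -- the vector that changes the sign
  let C₁ : Submodule ℚ (X → ℚ) := S ⊓ (dot X).orthogonal F
  have hsup : F ⊔ C₁ = S := by
    refine le_antisymm (sup_le hFS inf_le_left) ?_
    intro s hs
    have h1 : s = proj F s + (s - proj F s) := by abel
    rw [h1]
    exact Submodule.add_mem_sup (proj_mem F s)
      ⟨S.sub_mem hs (hFS (proj_mem F s)), sub_proj_mem F s⟩
  have hinf : F ⊓ C₁ = ⊥ := by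
    rw [eq_bot_iff]
    intro s hs
    exact (Submodule.disjoint_def.1 (isCompl_orth F).disjoint) s hs.1 hs.2.2
  have hdim := Submodule.finrank_sup_add_finrank_inf_eq F C₁
  rw [hsup, hinf, finrank_bot, add_zero, hhd1] at hdim
  have hC1 : finrank ℚ C₁ = 1 := by omega
  obtain ⟨v, hv0, hv⟩ := finrank_eq_one_iff'.1 hC1
  have hv0' : (v : X → ℚ) ≠ 0 := fun h0 => hv0 (Subtype.ext h0)
  have hηu : ∀ u ∈ F, tr η u = u := fun u hu => funext fun x => hu.2 η hηS x
  -- the centralizer acts on the line by signs
  have hval : ∀ γ : G, γ * η = η * γ → tr γ (v : X → ℚ) = v ∨ tr γ (v : X → ℚ) = -v := by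
    intro γ hγ
    have hinv : ∀ δ : G, δ * η = η * δ → ∀ u ∈ F, tr δ u ∈ F := by
      intro δ hδ u hu
      refine ⟨tr_mem hS.2.1 _ hu.1, fun h' hh' x => ?_⟩
      rcases hηall h' hh' with rfl | rfl
      · rw [one_smul]
      · rw [tr_apply, tr_apply, smul_smul, hδ, mul_smul, hu.2 _ hηS]
    have hγ' : γ⁻¹ * η = η * γ⁻¹ := by
      rw [inv_mul_eq_iff_eq_mul, ← mul_assoc, hγ, mul_inv_cancel_right]
    have hmem : tr γ (v : X → ℚ) ∈ C₁ := by
      refine ⟨tr_mem hS.2.1 _ v.2.1, fun s hs => ?_⟩
      change ∑ x, s x * tr γ (v : X → ℚ) x = 0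
      have h4 := dot_tr γ⁻¹ s (v : X → ℚ)
      rw [inv_inv, dot_apply, dot_apply] at h4
      rw [← h4]
      exact (mem_orth F _).1 v.2.2 _ (hinv γ⁻¹ hγ' s hs)
    obtain ⟨r, hr⟩ := hv ⟨_, hmem⟩
    have hr' : r • (v : X → ℚ) = tr γ (v : X → ℚ) := congrArg Subtype.val hr
    have h6 : dot X (tr γ (v : X → ℚ)) (tr γ (v : X → ℚ)) =
        dot X (v : X → ℚ) (v : X → ℚ) := by
      rw [dot_tr, tr_inv_tr]
    rw [← hr', map_smul, map_smul, LinearMap.smul_apply, smul_eq_mul, smul_eq_mul] at h6
    have h7 : dot X (v : X → ℚ) (v : X → ℚ) ≠ 0 := fun h => hv0' (dot_self h)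
    have h8 : (r * r - 1) * dot X (v : X → ℚ) (v : X → ℚ) = 0 := by linarith
    have h9 := (mul_eq_zero.1 h8).resolve_right h7
    rcases mul_self_eq_one_iff.1 (by linarith : r * r = 1) with h10 | h10
    · left
      rw [← hr', h10, one_smul]
    · right
      rw [← hr', h10, neg_one_smul]
  have hvne : (v : X → ℚ) ≠ -v := by
    intro h1
    apply hv0'
    funext x
    have h2 := congrFun h1 x
    rw [Pi.neg_apply] at h2
    rw [Pi.zero_apply]
    linarith
  have hηv : tr η (v : X → ℚ) = -v := by
    rcases hval η rfl with h1 | h1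
    · exfalso
      have h2 : (v : X → ℚ) ∈ F := by
        refine ⟨v.2.1, fun h' hh' x => ?_⟩
        rcases hηall h' hh' with rfl | rfl
        · rw [one_smul]
        · exact congrFun h1 x
      have h3 : (v : X → ℚ) ∈ F ⊓ C₁ := ⟨h2, v.2⟩
      rw [hinf] at h3
      exact hv0' h3
    · exact h1
  have hcv : tr c (v : X → ℚ) = -v := funext fun x => hS.2.2.1 _ v.2.1 x
  -- no elements of odd prime order in the centralizer
  have hnoodd : ∀ (q : ℕ) (a : G), q.Prime → q ≠ 2 → a * η = η * a → orderOf a ≠ q := by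
    intro q a hq hq2 hcomm haq
    have ha1 : a ≠ 1 := by
      rintro rfl
      rw [orderOf_one] at haq
      exact hq.one_lt.ne haq
    have hη2 : orderOf η = 2 := orderOf_eq_prime (by rw [sq, hηη]) hη1
    have hcop : Nat.Coprime (orderOf η) (orderOf a) := by
      rw [hη2, haq]
      exact (Nat.coprime_primes Nat.prime_two hq).2 (Ne.symm hq2)
    have hco : Commute η a := hcomm.symm
    have hord : orderOf (η * a) = 2 * q := by
      rw [hco.orderOf_mul_eq_mul_orderOf_of_coprime hcop, hη2, haq]
    have hqodd : Odd q := hq.odd_of_ne_two hq2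
    obtain ⟨j, hj⟩ := hqodd
    have haq' : a ^ q = 1 := by
      rw [← haq]
      exact pow_orderOf_eq_one a
    have hη2' : η ^ 2 = 1 := by rw [sq, hηη]
    have hpow : (η * a) ^ q = η := by
      rw [hco.mul_pow, haq', mul_one, hj, pow_add, pow_mul, hη2', one_pow, one_mul, pow_one]
    have hηmem : η ∈ Subgroup.zpowers (η * a) :=
      Subgroup.mem_zpowers_iff.2 ⟨q, by rw [zpow_natCast, hpow]⟩
    have hle : MulAction.stabilizer G x₀ ≤ Subgroup.zpowers (η * a) := by
      intro h' hh'
      rcases hηall h' hh' with rfl | rfl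
      · exact Subgroup.one_mem _
      · exact hηmem
    have hne : Subgroup.zpowers (η * a) ≠ MulAction.stabilizer G x₀ := by
      intro heq
      have h1 : Nat.card (Subgroup.zpowers (η * a)) = 2 := by rw [heq, hstab]
      rw [Nat.card_zpowers, hord] at h1
      have := hq.one_lt
      omega
    have hcnot : c ∉ Subgroup.zpowers (η * a) := by
      intro hmem
      obtain ⟨k, hk⟩ := Subgroup.mem_zpowers_iff.1 hmem
      have h1 : (η * a) ^ (2 * k) = 1 := by
        rw [mul_comm 2 k, zpow_mul, hk]
        rw [show (2 : ℤ) = ((2 : ℕ) : ℤ) from rfl, zpow_natCast, sq, hc]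
      rw [← orderOf_dvd_iff_zpow_eq_one, hord] at h1
      push_cast at h1
      have h2 : (q : ℤ) ∣ k := by
        obtain ⟨t, ht⟩ := h1
        exact ⟨t, by linarith⟩
      obtain ⟨t, rfl⟩ := h2
      rw [zpow_mul, zpow_natCast, hpow] at hk
      rcases Int.even_or_odd' t with ⟨i, rfl | rfl⟩
      · rw [zpow_mul, show (η ^ (2 : ℤ)) = 1 by exact_mod_cast hη2', one_zpow] at hk
        exact hc1 hk.symm
      · rw [zpow_add, zpow_mul, show (η ^ (2 : ℤ)) = 1 by exact_mod_cast hη2', one_zpow,
          one_mul, zpow_one] at hk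
        exact hcη hk.symm
    have h1 := hstar _ hle hne hcnot
    have h2 : (2 * q) * (Subgroup.zpowers (η * a)).index = 4 * g := by
      rw [← hcard, ← hord, ← Nat.card_zpowers]
      exact Subgroup.card_mul_index _
    have h3 := hO G X S a q hS.2.1 hq haq' (fun h => ha1 (hf a h))
    rw [hhd1] at h3
    have hq1 : 1 ≤ q := hq.one_lt.le
    have h4 : q ≤ h + 2 := by omega
    set idx := (Subgroup.zpowers (η * a)).index with hidx
    have h5 : q * idx = 2 * g := by nlinarith
    have h6 : idx < q := by
      rw [← h5] at h1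
      nlinarith
    have h7 : 2 * g < q ^ 2 := by nlinarith
    have h8 : q ^ 2 ≤ (h + 2) ^ 2 := Nat.pow_le_pow_left h4 2
    have h9 : h ≤ 3 := by
      by_contra hcon
      have : 4 ≤ h := by omega
      nlinarith
    have h10 : (h + 2) ^ 2 ≤ 25 := by
      have : h + 2 ≤ 5 := by omega
      calc (h + 2) ^ 2 ≤ 5 ^ 2 := Nat.pow_le_pow_left this 2
        _ = 25 := by norm_num
    omega
  -- the involutions of the centralizer
  have hinvol : ∀ b : G, b * η = η * b → b ≠ 1 → b * b = 1 → b = η ∨ b = c ∨ b = η * c := by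
    intro b hb hb1 hbb
    by_contra hcon
    push Not at hcon
    obtain ⟨hbη, hbc, hbηc⟩ := hcon
    let H' : Subgroup G :=
      { carrier := {x | x = 1 ∨ x = η ∨ x = b ∨ x = η * b}
        one_mem' := Or.inl rfl
        mul_mem' := by
          intro x y hx hy
          have e1 : η * (η * b) = b := by rw [← mul_assoc, hηη, one_mul]
          have e2 : b * (η * b) = η := by rw [← mul_assoc, hb, mul_assoc, hbb, mul_one]
          have e3 : (η * b) * η = b := by rw [mul_assoc, hb, e1]
          have e4 : (η * b) * b = η := by rw [mul_assoc, hbb, mul_one]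
          have e5 : (η * b) * (η * b) = 1 := by rw [← mul_assoc, e3, hbb]
          rcases hx with rfl | rfl | rfl | rfl <;> rcases hy with rfl | rfl | rfl | rfl
          · exact Or.inl (one_mul _)
          · exact Or.inr (Or.inl (one_mul _))
          · exact Or.inr (Or.inr (Or.inl (one_mul _)))
          · exact Or.inr (Or.inr (Or.inr (one_mul _)))
          · exact Or.inr (Or.inl (mul_one _))
          · exact Or.inl hηη
          · exact Or.inr (Or.inr (Or.inr rfl))
          · exact Or.inr (Or.inr (Or.inl e1))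
          · exact Or.inr (Or.inr (Or.inl (mul_one _)))
          · exact Or.inr (Or.inr (Or.inr hb))
          · exact Or.inl hbb
          · exact Or.inr (Or.inl e2)
          · exact Or.inr (Or.inr (Or.inr (mul_one _)))
          · exact Or.inr (Or.inr (Or.inl e3))
          · exact Or.inr (Or.inl e4)
          · exact Or.inl e5
        inv_mem' := by
          intro x hx
          have e5 : (η * b) * (η * b) = 1 := by
            rw [← mul_assoc, mul_assoc η b η, hb, ← mul_assoc, hηη, one_mul, hbb]
          rcases hx with rfl | rfl | rfl | rfl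
          · exact Or.inl inv_one
          · exact Or.inr (Or.inl (inv_eq_of_mul_eq_one_right hηη))
          · exact Or.inr (Or.inr (Or.inl (inv_eq_of_mul_eq_one_right hbb)))
          · exact Or.inr (Or.inr (Or.inr (inv_eq_of_mul_eq_one_right e5))) }
    have hmem : ∀ x, x ∈ H' ↔ x = 1 ∨ x = η ∨ x = b ∨ x = η * b := fun x => Iff.rfl
    have hle : MulAction.stabilizer G x₀ ≤ H' := by
      intro h' hh'
      rcases hηall h' hh' with rfl | rfl
      · exact Or.inl rfl
      · exact Or.inr (Or.inl rfl)
    have hne : H' ≠ MulAction.stabilizer G x₀ := by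
      intro heq
      have h1 : b ∈ MulAction.stabilizer G x₀ := by
        rw [← heq]
        exact Or.inr (Or.inr (Or.inl rfl))
      rcases hηall b h1 with h2 | h2
      · exact hb1 h2
      · exact hbη h2
    have hcnot : c ∉ H' := by
      rw [hmem]
      rintro (h1 | h1 | h1 | h1)
      · exact hc1 h1
      · exact hcη h1
      · exact hbc h1.symm
      · apply hbηc
        rw [h1, ← mul_assoc, hηη, one_mul]
    have hcard4 : Nat.card H' ≤ 4 := by
      have h1 : (H' : Set G) ⊆ (({1, η, b, η * b} : Finset G) : Set G) := by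
        intro x hx
        rw [Finset.mem_coe, Finset.mem_insert, Finset.mem_insert, Finset.mem_insert,
          Finset.mem_singleton]
        exact hx
      have h2 : Nat.card H' ≤ ({1, η, b, η * b} : Finset G).card := by
        rw [← Set.ncard_coe_finset, ← Nat.card_coe_set_eq]
        exact Nat.card_mono (Finset.finite_toSet _) h1
      exact h2.trans Finset.card_le_four
    have h1 := hstar H' hle hne hcnot
    have h2 : Nat.card H' * H'.index = 4 * g := by
      rw [← hcard]
      exact Subgroup.card_mul_index _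
    have h3 : g ≤ H'.index := by
      by_contra hcon
      push Not at hcon
      have h4 : Nat.card H' * H'.index ≤ 4 * H'.index := Nat.mul_le_mul_right _ hcard4
      omega
    nlinarith
  -- the subgroup that fixes the vector
  let C' : Subgroup G :=
    { carrier := {γ | γ * η = η * γ ∧ tr γ (v : X → ℚ) = v}
      one_mem' := ⟨by rw [one_mul, mul_one], tr_one _⟩
      mul_mem' := by
        rintro x y ⟨hx1, hx2⟩ ⟨hy1, hy2⟩
        refine ⟨by rw [mul_assoc, hy1, ← mul_assoc, hx1, mul_assoc], ?_⟩
        rw [← tr_tr, hx2, hy2]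
      inv_mem' := by
        rintro x ⟨hx1, hx2⟩
        refine ⟨by rw [inv_mul_eq_iff_eq_mul, ← mul_assoc, hx1, mul_inv_cancel_right], ?_⟩
        conv_lhs => rw [← hx2]
        exact tr_inv_tr _ _ }
  have hC'mem : ∀ x, x ∈ C' ↔ x * η = η * x ∧ tr x (v : X → ℚ) = v := fun x => Iff.rfl
  have hz : η * c ∈ C' := by
    rw [hC'mem]
    refine ⟨by rw [mul_assoc, hcen], ?_⟩
    rw [← tr_tr, hηv, map_neg, hcv, neg_neg]
  have hC'pow : ∃ k, Nat.card C' = 2 ^ k := by
    refine card_eq_two_pow (C := C') fun q a hq hq2 ha => ?_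
    have h1 : orderOf (a : G) = q := by
      rw [Subgroup.orderOf_coe]
      exact ha
    exact hnoodd q a hq hq2 a.2.1 h1
  obtain ⟨k, hk⟩ := hC'pow
  have hinvF : Invariant C' F := by
    intro γ u hu
    refine ⟨hS.2.1 _ u hu.1, fun h' hh' x => ?_⟩
    rcases hηall h' hh' with rfl | rfl
    · rw [one_smul]
    · change u ((γ : G) • h' • x) = u ((γ : G) • x)
      rw [smul_smul, γ.2.1, mul_smul, hu.2 _ hηS]
  have hFne : F ≠ ⊥ := by
    intro h0
    rw [h0, finrank_bot] at hh
    omega
  have hfreeC := hF C' X F ⟨η * c, hz⟩ k hinvF hFne (fun s hs x => by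
    change s ((η * c) • x) = - s x
    rw [mul_smul, hs.2 _ hηS]
    exact hS.2.2.1 s hs.1 x) hk (fun γ hγ1 hγγ => by
      apply Subtype.ext
      have h1 : (γ : G) ≠ 1 := fun h => hγ1 (Subtype.ext h)
      have h2 : (γ : G) * γ = 1 := congrArg Subtype.val hγγ
      rcases hinvol γ γ.2.1 h1 h2 with h3 | h3 | h3
      · exfalso
        have h4 := γ.2.2
        rw [h3, hηv] at h4
        exact hvne h4.symm
      · exfalso
        have h4 := γ.2.2
        rw [h3, hcv] at h4
        exact hvne h4.symm
      · exact h3)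
  -- the order of the centralizer
  have hcent : Nat.card (Subgroup.centralizer ({η} : Set G)) ≤ 2 * Nat.card C' := by
    have hcm : ∀ γ : Subgroup.centralizer ({η} : Set G), (γ : G) * η = η * γ := by
      intro γ
      exact Subgroup.mem_centralizer_singleton_iff.1 γ.2
    have h1 : ∀ γ : Subgroup.centralizer ({η} : Set G), ∃ y : C' × Bool,
        (γ : G) = if y.2 then (y.1 : G) else c * y.1 := by
      intro γ
      rcases hval γ (hcm γ) with h2 | h2
      · exact ⟨(⟨γ, hcm γ, h2⟩, true), rfl⟩
      · refine ⟨(⟨c * γ, ?_, ?_⟩, false), ?_⟩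
        · rw [mul_assoc, hcm γ, ← mul_assoc, hcen η, mul_assoc]
        · rw [← tr_tr, hcv, map_neg, h2, neg_neg]
        · change (γ : G) = c * (c * γ)
          rw [← mul_assoc, hc, one_mul]
    choose y hy using h1
    have h2 : Function.Injective y := by
      intro γ δ hγδ
      apply Subtype.ext
      rw [hy γ, hy δ, hγδ]
    have h3 := Nat.card_le_card_of_injective y h2
    rw [Nat.card_prod, Nat.card_eq_fintype_card (α := Bool), Fintype.card_bool, mul_comm] at h3
    exact h3
  -- the trace
  have htrace : LinearMap.trace ℚ (X → ℚ) (proj S ∘ₗ tr η) = (h : ℚ) - 1 := by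
    have h1 : proj S ∘ₗ tr η = proj F - proj C₁ := by
      refine LinearMap.ext fun u => ?_
      rw [LinearMap.comp_apply, LinearMap.sub_apply, proj_tr hS.2.1]
      have hsum : proj S u = proj F u + proj C₁ u := by
        refine proj_eq S (S.add_mem (hFS (proj_mem F u)) (proj_mem C₁ u).1) ?_
        intro t ht
        rw [← hsup] at ht
        obtain ⟨f, hf', w, hw, rfl⟩ := Submodule.mem_sup.1 ht
        have e1 : dot X f (u - proj F u) = 0 := dot_sub_proj F hf' u
        have e2 : dot X w (u - proj C₁ u) = 0 := dot_sub_proj C₁ hw u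
        have e3 : dot X f (proj C₁ u) = 0 := (proj_mem C₁ u).2 f hf'
        have e4 : dot X w (proj F u) = 0 := by
          rw [dot_comm]
          exact hw.2 _ (proj_mem F u)
        change dot X (f + w) (u - (proj F u + proj C₁ u)) = 0
        have e5 : u - (proj F u + proj C₁ u) = (u - proj F u) - proj C₁ u := by abel
        have e6 : u - (proj F u + proj C₁ u) = (u - proj C₁ u) - proj F u := by abel
        rw [map_add, LinearMap.add_apply]
        conv_lhs => rw [e5]
        rw [map_sub, e1, e3, sub_zero, zero_add, ← e5, e6, map_sub, e2, e4, sub_zero]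
      obtain ⟨r, hr⟩ := hv ⟨proj C₁ u, proj_mem C₁ u⟩
      have hr' : r • (v : X → ℚ) = proj C₁ u := congrArg Subtype.val hr
      rw [hsum, map_add, hηu _ (proj_mem F u), ← hr', map_smul, hηv, smul_neg, sub_eq_add_neg]
    rw [h1, map_sub, trace_proj, trace_proj, hC1, ← hh]
    norm_num
  have hchar := hC G X S η hS.2.1
  rw [htrace, heq1] at hchar
  have hch2 : ((h : ℤ) - 1) ^ 2 ≤ 8 * h := by
    have h1 : (((Nat.card (Subgroup.centralizer ({η} : Set G)) : ℕ) : ℚ)) ≤ 8 * h := by
      have h2 : Nat.card (Subgroup.centralizer ({η} : Set G)) ≤ 8 * h := by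
        rw [← hh] at hfreeC
        omega
      exact_mod_cast h2
    have h2 : ((h : ℚ) - 1) ^ 2 ≤ 8 * h := by
      push_cast at hchar
      linarith
    exact_mod_cast h2
  have hh9 : h ≤ 9 := by
    by_contra hcon
    have h1 : (10 : ℤ) ≤ h := by
      have : 10 ≤ h := by omega
      exact_mod_cast this
    nlinarith
  have hmink := hK G X S hS.2.1 hf
  rw [hcard, hhd1] at hmink
  calc g ≤ 4 * g := by omega
    _ ≤ 3 ^ ((h + 1) ^ 2) := hmink
    _ ≤ 3 ^ 100 := by
        refine Nat.pow_le_pow_right (by norm_num) ?_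
        calc (h + 1) ^ 2 ≤ 10 ^ 2 := Nat.pow_le_pow_left (by omega) 2
          _ = 100 := by norm_num

end

end Pool.Agent.Y1.KN
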