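import Mathlib
import Pool.Agent.Y1.KN.Faithful

/-!
# Spaces that are not faithful come from subfields
-/

set_option linter.unusedSectionVars false
set_option linter.unusedVariables false

namespace Pool.Agent.Y1.KN

open Finset Module Pool.Agent.TH170.MF Pool.Agent.TH170.QC Pool.Agent.TH170.QE Pool.Agent.TH170.FW
  Pool.Agent.TH170.GC
open scoped Pointwise

section group

variable {G X : Type*} [Group G] [Fintype G] [MulAction G X] [Fintype X]

/-- The elements that act trivially on a space. -/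
def kern (G : Type*) {X : Type*} [Group G] [MulAction G X] (S : Submodule ℚ (X → ℚ))
    (hS : Invariant G S) : Subgroup G where
  carrier := {γ | ∀ s ∈ S, ∀ x, s (γ • x) = s x}
  mul_mem' := by
    intro a b ha hb s hs x
    rw [mul_smul, ha s hs, hb s hs]
  one_mem' := by
    intro s hs x
    rw [one_smul]
  inv_mem' := by
    intro a ha s hs x
    rw [← ha s hs (a⁻¹ • x), smul_inv_smul]

theorem mem_kern {S : Submodule ℚ (X → ℚ)} (hS : Invariant G S) (γ : G) :
    γ ∈ kern G S hS ↔ ∀ s ∈ S, ∀ x, s (γ • x) = s x := Iff.rfl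

theorem kern_normal {S : Submodule ℚ (X → ℚ)} (hS : Invariant G S) : (kern G S hS).Normal := by
  constructor
  intro n hn g s hs x
  have h1 := hn _ (hS g s hs) (g⁻¹ • x)
  beta_reduce at h1
  rw [smul_inv_smul] at h1
  rw [mul_smul, mul_smul, h1]

/-- Sum of the dimensions of pairwise orthogonal subspaces. -/
theorem sum_finrank_le_of_orth {V : Submodule ℚ (X → ℚ)} (F : Finset (Submodule ℚ (X → ℚ)))
    (hV : ∀ S ∈ F, S ≤ V) (horth : ∀ S ∈ F, ∀ S' ∈ F, S ≠ S' → S' ≤ (dot X).orthogonal S) :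
    ∑ S ∈ F, finrank ℚ S ≤ finrank ℚ V := by
  classical
  have key : ∀ F : Finset (Submodule ℚ (X → ℚ)),
      (∀ S ∈ F, ∀ S' ∈ F, S ≠ S' → S' ≤ (dot X).orthogonal S) →
      finrank ℚ (F.sup id : Submodule ℚ (X → ℚ)) = ∑ S ∈ F, finrank ℚ S := by
    intro F
    induction F using Finset.induction_on with
    | empty =>
      intro _
      rw [sup_empty, sum_empty]
      exact finrank_bot ℚ (X → ℚ)
    | insert S F hSF ih =>
      intro h2
      have h4 := ih (fun S' h S'' h' => h2 S' (mem_insert_of_mem h) S'' (mem_insert_of_mem h'))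
      rw [sup_insert, id_eq]
      have h5 : F.sup id ≤ (dot X).orthogonal S := by
        refine Finset.sup_le fun S' hS' => ?_
        refine h2 S (mem_insert_self _ _) S' (mem_insert_of_mem hS') ?_
        rintro rfl
        exact hSF hS'
      have h6 : S ⊓ F.sup id = ⊥ := by
        rw [eq_bot_iff]
        intro s hs
        exact (Submodule.disjoint_def.1 (isCompl_orth S).disjoint) s hs.1 (h5 hs.2)
      have h7 := Submodule.finrank_sup_add_finrank_inf_eq S (F.sup id)
      rw [h6, finrank_bot, add_zero] at h7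
      rw [h7, h4, sum_insert hSF]
  rw [← key F horth]
  exact Submodule.finrank_mono (Finset.sup_le hV)

/-- The same for families. -/
theorem sum_sum_finrank_le {ι : Type*} {V : Submodule ℚ (X → ℚ)} (B : Finset ι)
    (fam : ι → Finset (Submodule ℚ (X → ℚ))) (hV : ∀ i ∈ B, ∀ S ∈ fam i, S ≤ V)
    (h0 : ∀ i ∈ B, ∀ S ∈ fam i, S ≠ ⊥)
    (horth : ∀ i ∈ B, ∀ S ∈ fam i, ∀ S' ∈ fam i, S ≠ S' → S' ≤ (dot X).orthogonal S)
    (horth' : ∀ i ∈ B, ∀ j ∈ B, i ≠ j → ∀ S ∈ fam i, ∀ S' ∈ fam j,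
      S' ≤ (dot X).orthogonal S) :
    ∑ i ∈ B, ∑ S ∈ fam i, finrank ℚ S ≤ finrank ℚ V := by
  classical
  have hdisj : (B : Set ι).PairwiseDisjoint fam := by
    intro i hi j hj hij
    rw [Function.onFun, Finset.disjoint_left]
    intro S hSi hSj
    apply h0 i hi S hSi
    rw [eq_bot_iff]
    intro s hs
    exact (Submodule.disjoint_def.1 (isCompl_orth S).disjoint) s hs
      (horth' i hi j hj hij S hSi S hSj hs)
  rw [← sum_biUnion hdisj]
  refine sum_finrank_le_of_orth _ ?_ ?_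
  · intro S hS
    obtain ⟨i, hi, hSi⟩ := mem_biUnion.1 hS
    exact hV i hi S hSi
  · intro S hS S' hS' hne
    obtain ⟨i, hi, hSi⟩ := mem_biUnion.1 hS
    obtain ⟨j, hj, hSj⟩ := mem_biUnion.1 hS'
    by_cases hij : i = j
    · rw [← hij] at hSj
      exact horth i hi S hSi S' hSj hne
    · exact horth' i hi j hj hij S hSi S' hSj

variable [DecidableEq X] [MulAction.IsPretransitive G X]

/-- Elements that act trivially on a minimal space act trivially on the spaces of the class. -/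
theorem kern_le_of_killers {c : X → X} {S S' : Submodule ℚ (X → ℚ)} (hS : S ∈ MinInv G c)
    (hS' : S' ∈ MinInv G c)
    (hK : killers G (S : Set (X → ℚ)) = killers G (S' : Set (X → ℚ))) {γ : G}
    (hγ : ∀ s ∈ S, ∀ x, s (γ • x) = s x) : ∀ s ∈ S', ∀ x, s (γ • x) = s x := by
  classical
  obtain ⟨h0, hi, ho, hmin⟩ := hS
  obtain ⟨h0', hi', ho', hmin'⟩ := hS'
  obtain ⟨A, hA, hAS, s₀, hs₀, hne⟩ := exists_equivariant hi h0 hi' h0' hK
  have hI : Invariant G (S.map A) := by
    rintro γ _ ⟨t, ht, rfl⟩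
    refine ⟨fun y => t (γ • y), hi γ t ht, ?_⟩
    funext x
    rw [hA]
  have hle : S.map A ≤ S' := by
    rintro _ ⟨t, ht, rfl⟩
    exact hAS t
  have hmap : S.map A = S' := by
    rcases hmin' _ hI hle with h | h
    · exfalso
      apply hne
      have h1 : A s₀ ∈ S.map A := ⟨s₀, hs₀, rfl⟩
      rw [h] at h1
      exact h1
    · exact h
  intro s hs x
  rw [← hmap] at hs
  obtain ⟨t, ht, rfl⟩ := hs
  rw [← hA]
  have h1 : (fun y => t (γ • y)) = t := funext fun y => hγ t ht y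
  rw [h1]

/-- The product of the stabilizer and the kernel does not contain `c`. -/
theorem not_mem_sup {c : G} (hc : c * c = 1) (hcen : ∀ x, c * x = x * c)
    {S : Submodule ℚ (X → ℚ)} (hS : S ∈ MinInv G (fun x : X => c • x)) (x₀ : X) :
    c ∉ MulAction.stabilizer G x₀ ⊔ kern G S hS.2.1 := by
  classical
  intro hmem
  have hnor := kern_normal (G := G) hS.2.1
  have h1 : (c : G) ∈ ((MulAction.stabilizer G x₀ : Set G) * (kern G S hS.2.1 : Set G)) := by
    rw [← Subgroup.mul_normal]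
    exact hmem
  obtain ⟨η, hη, ν, hν, hην⟩ := Set.mem_mul.1 h1
  have he1 : 0 < edim G S := edim_pos hS.1
  have heh : edim G S ≤ finrank ℚ (fixedPart G x₀ S) := edim_le hc hcen x₀ hS.2.1 hS.2.2.1
  have hne : fixedPart G x₀ S ≠ ⊥ := by
    intro h
    rw [h, finrank_bot] at heh
    omega
  obtain ⟨u, hu, hu0⟩ := (Submodule.ne_bot_iff _).1 hne
  apply hu0
  funext x
  have h2 : u (c • x) = - u x := hS.2.2.1 u hu.1 x
  rw [← hην, mul_smul, hu.2 η hη, hν u hu.1] at h2
  have h3 : (2 : ℚ) * u x = 0 := by linarith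
  exact (mul_eq_zero.1 h3).resolve_left two_ne_zero

end group

section field

open NumberField Pool.Agent.H204R3.CM

/-- A proper subfield with an embedding that is not real (a CM subfield). -/
def IsProperCM (E : Type*) [Field E] [NumberField E] (F : IntermediateField ℚ E) : Prop :=
  F ≠ ⊤ ∧ ∃ ψ : F →+* ℂ, ComplexEmbedding.conjugate ψ ≠ ψ

/-- The maximal proper CM subfields. -/
def maximalCM (E : Type*) [Field E] [NumberField E] : Set (IntermediateField ℚ E) :=
  {F | Maximal (IsProperCM E) F}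

/-- The sum of the degrees of the maximal proper CM subfields. -/
noncomputable def sumDegrees (E : Type*) [Field E] [NumberField E] : ℕ :=
  ∑ᶠ F ∈ maximalCM E, finrank ℚ F

/-- The odd functions that depend only on the restriction to a subfield. -/
def resSpace {E : Type*} [Field E] [NumberField E] (F : IntermediateField ℚ E) :
    Submodule ℚ ((E →+* ℂ) → ℚ) where
  carrier := {u | (∀ φ, u (ComplexEmbedding.conjugate φ) = - u φ) ∧
    ∀ φ ψ : E →+* ℂ, (∀ x ∈ F, φ x = ψ x) → u φ = u ψ}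
  zero_mem' := ⟨fun φ => by simp, fun φ ψ _ => rfl⟩
  add_mem' := by
    rintro u v ⟨h1, h2⟩ ⟨h3, h4⟩
    refine ⟨fun φ => ?_, fun φ ψ h => ?_⟩
    · rw [Pi.add_apply, Pi.add_apply, h1, h3]
      ring
    · rw [Pi.add_apply, Pi.add_apply, h2 φ ψ h, h4 φ ψ h]
  smul_mem' := by
    rintro q u ⟨h1, h2⟩
    refine ⟨fun φ => ?_, fun φ ψ h => ?_⟩
    · rw [Pi.smul_apply, Pi.smul_apply, h1, smul_eq_mul, smul_eq_mul]
      ring
    · rw [Pi.smul_apply, Pi.smul_apply, h2 φ ψ h]

instance finite_intermediateField (E : Type*) [Field E] [NumberField E] :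
    Finite (IntermediateField ℚ E) :=
  (Field.exists_primitive_element_iff_finite_intermediateField ℚ E).1
    ⟨inferInstance, Field.exists_primitive_element ℚ E⟩

/-- A space that is not faithful comes from a maximal proper CM subfield. -/
theorem exists_maximalCM (hcorr : P_corr) (E : Type) [Field E] [NumberField E] [IsCMField E]
    {S₀ : Submodule ℚ ((E →+* ℂ) → ℚ)} (hS₀ : S₀ ∈ minimalSpaces E) (hf : ¬ Faith (Gal E) S₀) :
    ∃ F ∈ maximalCM E, ∀ S ∈ minimalSpaces E, killers (Gal E) (S : Set ((E →+* ℂ) → ℚ)) =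
      killers (Gal E) (S₀ : Set ((E →+* ℂ) → ℚ)) → S ≤ resSpace F := by
  classical
  obtain ⟨φ₀⟩ : Nonempty (E →+* ℂ) := inferInstance
  obtain ⟨c, hc, hcc, hcen⟩ := exists_conj E
  have hfun : (fun φ : E →+* ℂ => c • φ) = ComplexEmbedding.conjugate (K := E) := funext hc
  have hmin : ∀ S ∈ minimalSpaces E, S ∈ MinInv (Gal E) (fun φ : E →+* ℂ => c • φ) := by
    intro S hS
    rw [hfun]
    exact (minInv_iff S).2 hS
  have hinj : ∀ x y : Gal E, (∀ φ : E →+* ℂ, x • φ = y • φ) → x = y := fun x y h =>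
    Subtype.ext (Equiv.ext h)
  have hm0 := hmin S₀ hS₀
  set N := kern (Gal E) S₀ hm0.2.1 with hN
  have hnor : N.Normal := kern_normal hm0.2.1
  set H' := MulAction.stabilizer (Gal E) φ₀ ⊔ N with hH'
  have hcH : c ∉ H' := not_mem_sup hcc hcen hm0 φ₀
  -- the subgroup is larger than the stabilizer
  have hlt : H' ≠ MulAction.stabilizer (Gal E) φ₀ := by
    intro heq
    apply hf
    intro γ hγ
    have hle : N ≤ MulAction.stabilizer (Gal E) φ₀ := by
      rw [← heq]
      exact le_sup_right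
    apply hinj
    intro φ
    obtain ⟨δ, rfl⟩ := MulAction.exists_smul_eq (Gal E) φ₀ φ
    have h1 : δ⁻¹ * γ * δ ∈ N := by
      have h2 := hnor.conj_mem γ hγ δ⁻¹
      rwa [inv_inv] at h2
    have h2 : (δ⁻¹ * γ * δ) • φ₀ = φ₀ := hle h1
    rw [mul_smul, mul_smul, inv_smul_eq_iff] at h2
    rw [h2, one_smul]
  obtain ⟨F', hF'⟩ := hcorr E φ₀ H' le_sup_left
  have hF'CM : IsProperCM E F' := by
    constructor
    · rintro rfl
      apply hlt
      refine le_antisymm ?_ le_sup_left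
      intro γ hγ
      rw [MulAction.mem_stabilizer_iff]
      ext x
      exact (hF' γ).1 hγ x IntermediateField.mem_top
    · refine ⟨φ₀.comp (algebraMap F' E), fun hreal => hcH ((hF' c).2 fun x hx => ?_)⟩
      rw [hc]
      exact RingHom.congr_fun hreal ⟨x, hx⟩
  obtain ⟨F, hFF, hFmax⟩ := (Set.toFinite {F | IsProperCM E F}).exists_le_maximal hF'CM
  refine ⟨F, hFmax, ?_⟩
  intro S hS hK u hu
  refine ⟨hS.2.2.1 u hu, ?_⟩
  intro φ ψ hφψ
  have hker : ∀ ν ∈ N, ∀ x, u (ν • x) = u x := fun ν hν =>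
    kern_le_of_killers hm0 (hmin S hS) hK.symm hν u hu
  obtain ⟨a, rfl⟩ := MulAction.exists_smul_eq (Gal E) φ₀ φ
  obtain ⟨b, rfl⟩ := MulAction.exists_smul_eq (Gal E) φ₀ ψ
  have h1 : b⁻¹ * a ∈ H' := by
    rw [hF']
    intro x hx
    obtain ⟨σ, hσ⟩ := gal_smul E b⁻¹
    have h2 : (b⁻¹ • b • φ₀) x = φ₀ x := by rw [inv_smul_smul]
    rw [mul_smul, ← h2, hσ, hσ, RingHom.comp_apply, RingHom.comp_apply, hφψ x (hFF hx)]
  have h2 : b⁻¹ * a ∈ ((MulAction.stabilizer (Gal E) φ₀ : Set (Gal E)) * (N : Set (Gal E))) := by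
    rw [← Subgroup.mul_normal]
    exact h1
  obtain ⟨η, hη, ν, hν, hην⟩ := Set.mem_mul.1 h2
  have hη' : η • φ₀ = φ₀ := hη
  have h3 : a = ((b * η) * ν * (b * η)⁻¹) * (b * η) := by
    rw [inv_mul_cancel_right, mul_assoc, hην, mul_inv_cancel_left]
  have h4 : (b * η) * ν * (b * η)⁻¹ ∈ N := hnor.conj_mem ν hν _
  rw [h3, mul_smul, hker _ h4, mul_smul, hη']

end field

end Pool.Agent.Y1.KN
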