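import Mathlib
import Pool.Agent.Y1.KN.Sub

/-!
# Statements about subfields
-/

set_option linter.unusedSectionVars false
set_option linter.unusedVariables false

namespace Pool.Agent.Y1.KN

open Finset Module Pool.Agent.TH170.MF Pool.Agent.TH170.QC Pool.Agent.TH170.QE Pool.Agent.TH170.FW

/-- The numerical part, with multiplicities. -/
def P_num2 : Prop :=
  ∃ C : ℝ, ∀ (g m d h e c n Gc : ℕ) (N : ℝ), 1 ≤ n → 1 ≤ m → 1 ≤ h → h ≤ d → d ≤ g → 1 ≤ e →
    e ≤ h → h * d ≤ e * g → c = e + (d - h) → 3 ≤ c → 2 * g ≤ Gc → Gc ≤ (2 * g) ^ (2 * g) →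
    (∀ b : ℕ, (d : ℝ) * (1 - (h : ℝ) / d) ^ b < 1 → Gc ≤ (2 * g) ^ b) → N ≤ 1 →
    N ≤ Pool.Agent.TH170.QE.boundA (m * g) d c (Real.log ((Gc * m * n : ℕ) : ℝ)) →
    N ≤ (n : ℝ) ^ 2 * h * d / ((e : ℝ) ^ 2 * √(m * g)) →
    (∀ P : ℝ, 10 ^ 4 ≤ P → 10 * Real.log ((Gc * m * n : ℕ) : ℝ) ≤ P →
      N ≤ P ^ h * (4 / P + √(2 * d / (Real.pi * (m * g)))) ^ d) →
    N ≤ C * (n : ℝ) ^ 2 * (d / g) * ((g : ℝ) ^ (3 / 10 : ℝ) / √(m * g))

section prod

/-- The product of a set with a cyclic group. -/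
structure PX (X : Type*) (m : ℕ) where
  /-- The first coordinate. -/
  fst : X
  /-- The second coordinate. -/
  snd : ZMod m

theorem PX.ext' {X : Type*} {m : ℕ} {x y : PX X m} (h : x.fst = y.fst) (h' : x.snd = y.snd) :
    x = y := by
  cases x
  cases y
  subst h
  subst h'
  rfl

/-- The bijection with the product. -/
def PX.equiv (X : Type*) (m : ℕ) : PX X m ≃ X × ZMod m where
  toFun x := (x.fst, x.snd)
  invFun x := ⟨x.1, x.2⟩
  left_inv _ := rfl
  right_inv _ := rfl

variable {G X : Type*} [Group G] [MulAction G X] {m : ℕ}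

instance : MulAction (G × Multiplicative (ZMod m)) (PX X m) where
  smul γ x := ⟨γ.1 • x.fst, γ.2.toAdd + x.snd⟩
  one_smul x := PX.ext' (one_smul G x.fst) (zero_add x.snd)
  mul_smul γ δ x := PX.ext' (mul_smul γ.1 δ.1 x.fst) (add_assoc _ _ _)

noncomputable instance [Fintype X] [NeZero m] : Fintype (PX X m) :=
  Fintype.ofEquiv _ (PX.equiv X m).symm

instance [DecidableEq X] : DecidableEq (PX X m) := (PX.equiv X m).decidableEq

theorem px_smul (γ : G × Multiplicative (ZMod m)) (x : PX X m) :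
    γ • x = ⟨γ.1 • x.fst, γ.2.toAdd + x.snd⟩ := rfl

theorem card_px [Fintype X] [NeZero m] : Fintype.card (PX X m) = Fintype.card X * m := by
  rw [Fintype.card_congr (PX.equiv X m), Fintype.card_prod, ZMod.card]

/-- The functions on the product that depend only on the first coordinate. -/
def liftPX (m : ℕ) (S : Submodule ℚ (X → ℚ)) : Submodule ℚ (PX X m → ℚ) where
  carrier := {v | ∃ u ∈ S, ∀ x : PX X m, v x = u x.fst}
  zero_mem' := ⟨0, S.zero_mem, fun x => rfl⟩
  add_mem' := by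
    rintro v v' ⟨u, hu, h⟩ ⟨u', hu', h'⟩
    exact ⟨u + u', S.add_mem hu hu', fun x => by rw [Pi.add_apply, h, h', Pi.add_apply]⟩
  smul_mem' := by
    rintro r v ⟨u, hu, h⟩
    exact ⟨r • u, S.smul_mem r hu, fun x => by rw [Pi.smul_apply, h, Pi.smul_apply]⟩

end prod

/-- The product with a cyclic group. -/
def P_prod : Prop :=
  ∀ (G X : Type) [Group G] [Fintype G] [MulAction G X] [Fintype X] [DecidableEq X]
    [MulAction.IsPretransitive G X] (c : G) (m : ℕ) [NeZero m] (x₀ : X) (S : Submodule ℚ (X → ℚ)),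
    S ∈ MinInv G (fun x : X => c • x) →
    MulAction.IsPretransitive (G × Multiplicative (ZMod m)) (PX X m) ∧
    liftPX m S ∈ MinInv (G × Multiplicative (ZMod m))
      (fun x : PX X m => ((c, 1) : G × Multiplicative (ZMod m)) • x) ∧
    finrank ℚ (liftPX m S) = finrank ℚ S ∧
    edim (G × Multiplicative (ZMod m)) (liftPX m S) = edim G S ∧
    finrank ℚ (fixedPart (G × Multiplicative (ZMod m)) (⟨x₀, 0⟩ : PX X m) (liftPX m S)) =
      finrank ℚ (fixedPart G x₀ S) ∧
    ∀ S' ∈ MinInv G (fun x : X => c • x),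
      killers G (S' : Set (X → ℚ)) = killers G (S : Set (X → ℚ)) →
      killers (G × Multiplicative (ZMod m)) (liftPX m S' : Set (PX X m → ℚ)) =
        killers (G × Multiplicative (ZMod m)) (liftPX m S : Set (PX X m → ℚ))

section field

open NumberField Pool.Agent.H204R3.CM

/-- A function on the embeddings of a subfield, as a function on the embeddings of the field. -/
def pull {E : Type*} [Field E] [NumberField E] (F : IntermediateField ℚ E) :
    ((F →+* ℂ) → ℚ) →ₗ[ℚ] ((E →+* ℂ) → ℚ) :=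
  LinearMap.funLeft ℚ ℚ (fun φ : E →+* ℂ => φ.comp (algebraMap F E))

/-- The space of functions on the embeddings of a subfield. -/
def desc {E : Type*} [Field E] [NumberField E] (F : IntermediateField ℚ E)
    (S : Submodule ℚ ((E →+* ℂ) → ℚ)) : Submodule ℚ ((F →+* ℂ) → ℚ) := S.comap (pull F)

/-- Subfields of CM fields. -/
def P_cm : Prop :=
  ∀ (E : Type) [Field E] [NumberField E] [IsCMField E] (F : IntermediateField ℚ E),
    (∃ ψ : F →+* ℂ, ComplexEmbedding.conjugate ψ ≠ ψ) → IsCMField F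

/-- The embeddings of a field and of a subfield. -/
def P_bij : Prop :=
  ∀ (E : Type) [Field E] [NumberField E] [IsCMField E] (F : IntermediateField ℚ E) [IsCMField F]
    (g m : ℕ), finrank ℚ F = 2 * g → finrank ℚ E = 2 * (m * g) →
    ∃ β : (E →+* ℂ) ≃ (F →+* ℂ) × ZMod m, (∀ φ, (β φ).1 = φ.comp (algebraMap F E)) ∧
      ∀ φ, β (ComplexEmbedding.conjugate φ) =
        (ComplexEmbedding.conjugate (φ.comp (algebraMap F E)), (β φ).2)

/-- Minimal spaces of functions that come from a subfield. -/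
def P_desc : Prop :=
  ∀ (E : Type) [Field E] [NumberField E] [IsCMField E] (F : IntermediateField ℚ E) [IsCMField F]
    (S : Submodule ℚ ((E →+* ℂ) → ℚ)), S ∈ minimalSpaces E → S ≤ resSpace F →
    desc F S ∈ minimalSpaces F ∧ (desc F S).map (pull F) = S ∧
    finrank ℚ (desc F S) = finrank ℚ S ∧
    ∀ S' ∈ minimalSpaces E, S' ≤ resSpace F →
      killers (Gal E) (S : Set ((E →+* ℂ) → ℚ)) = killers (Gal E) (S' : Set ((E →+* ℂ) → ℚ)) →
      killers (Gal F) (desc F S : Set ((F →+* ℂ) → ℚ)) =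
        killers (Gal F) (desc F S' : Set ((F →+* ℂ) → ℚ))

end field

end Pool.Agent.Y1.KN
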