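import Mathlib
import Pool.Agent.Y1.KN.Prime2

/-!
# The bound for a faithful minimal space, with multiplicities
-/

set_option linter.unusedSectionVars false
set_option linter.unusedVariables false

namespace Pool.Agent.Y1.KN

open Finset Module Pool.Agent.TH170.MF Pool.Agent.TH170.QC Pool.Agent.TH170.QE Pool.Agent.TH170.FW
  Pool.Agent.TH170.GC

/-- The data for the product of a transitive action with a cyclic group. -/
structure PData (G X : Type) [Group G] [Fintype G] [MulAction G X] [Fintype X] (m n g : ℕ) [NeZero m] (M : PX X m → ℤ) (c : G) : Prop where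
  n0 : n ≠ 0
  Mn : ∀ x, M x ∣ (n : ℤ)
  Mc : ∀ x, M (((c, 1) : G × Multiplicative (ZMod m)) • x) = M x
  cc : c * c = 1
  free : ∀ x : X, c • x ≠ x
  cen : ∀ x, c * x = x * c
  card : Fintype.card X = 2 * g

section

variable {G X : Type} [Group G] [Fintype G] [MulAction G X] [Fintype X] [DecidableEq X]
  {m n g : ℕ} [NeZero m] {M : PX X m → ℤ} {c : G}

theorem PData.cc' (D : PData G X m n g M c) :
    ((c, 1) : G × Multiplicative (ZMod m)) * (c, 1) = 1 := by
  rw [Prod.mk_mul_mk, D.cc, mul_one]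
  rfl

theorem PData.free' (D : PData G X m n g M c) (x : PX X m) :
    ((c, 1) : G × Multiplicative (ZMod m)) • x ≠ x := by
  intro h
  apply D.free x.fst
  exact congrArg PX.fst h

theorem PData.cen' (D : PData G X m n g M c) (x : G × Multiplicative (ZMod m)) :
    ((c, 1) : G × Multiplicative (ZMod m)) * x = x * (c, 1) := by
  refine Prod.ext (D.cen x.1) ?_
  change 1 * x.2 = x.2 * 1
  rw [one_mul, mul_one]

theorem PData.card' (D : PData G X m n g M c) : Fintype.card (PX X m) = 2 * (m * g) := by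
  rw [card_px, D.card]
  ring

theorem card_prodG : Nat.card (G × Multiplicative (ZMod m)) = Nat.card G * m := by
  rw [Nat.card_prod]
  congr 1
  exact Nat.card_zmod m

end

/-- The number of sign functions for the class of a lifted space. -/
noncomputable def cntP {G X : Type} [Group G] [Fintype G] [MulAction G X] [Fintype X]
    {m : ℕ} [NeZero m] (M : PX X m → ℤ) (c : G) (S : Submodule ℚ (X → ℚ)) : ℕ :=
  (orthClassW M ((c, 1) : G × Multiplicative (ZMod m))
    (killers (G × Multiplicative (ZMod m)) (liftPX m S : Set (PX X m → ℚ)))).ncard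

/-- The bound for the faithful spaces, with multiplicities. -/
def P_faith2 : Prop :=
  ∃ C : ℝ, 0 ≤ C ∧ ∀ (G X : Type) [Group G] [Fintype G] [MulAction G X] [Fintype X]
    [DecidableEq X] [MulAction.IsPretransitive G X] (m n g : ℕ) [NeZero m] (M : PX X m → ℤ)
    (c : G), PData G X m n g M c → ∀ S ∈ MinInv G (fun x : X => c • x), ∀ x₀ : X, Faith G S →
    3 ≤ Nat.card (MulAction.stabilizer G x₀) →
    (cntP M c S : ℝ) ≤
      2 ^ (m * g) * (C * (n : ℝ) ^ 2 * (finrank ℚ S / g) * ((g : ℝ) ^ (3 / 10 : ℝ) / √(m * g)))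

/-- The bound for all spaces, with multiplicities. -/
theorem cntP_le_key (hK : P_key) (hP : P_prod) {G X : Type} [Group G] [Fintype G] [MulAction G X]
    [Fintype X] [DecidableEq X] [MulAction.IsPretransitive G X] {m n g : ℕ} [NeZero m]
    {M : PX X m → ℤ} {c : G} (D : PData G X m n g M c) {S : Submodule ℚ (X → ℚ)}
    (hS : S ∈ MinInv G (fun x : X => c • x)) (x₀ : X) :
    (cntP M c S : ℝ) * (edim G S : ℝ) ^ 2 * √(m * g) ≤
      2 ^ (m * g) * (n : ℝ) ^ 2 * finrank ℚ (fixedPart G x₀ S) * finrank ℚ S := by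
  classical
  obtain ⟨h1, h2, h3, h4, h5, h6⟩ := hP G X c m x₀ S hS
  have h7 := hK (G × Multiplicative (ZMod m)) (PX X m) M n
    (fun x => abs_le_of_dvd D.n0 (D.Mn x)) (c, 1) D.Mc D.cc' D.free' D.cen' (m * g) D.card'
    (liftPX m S) h2 ⟨x₀, 0⟩
  rw [h3, h4, h5] at h7
  push_cast at h7
  exact h7

theorem faith2 (hM : P_mult) (hB : P_base) (hK : P_key) (hN : P_num2) (hP : P_prod) :
    P_faith2 := by
  classical
  obtain ⟨C', hC'⟩ := hN
  refine ⟨max C' 0, le_max_right _ _, ?_⟩
  intro G X _ _ _ _ _ _ m n g _ M c D S hS x₀ hf h3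
  obtain ⟨hg1, -, hd1, hdg, -, -⟩ := basicsW (n := 1) one_ne_zero D.cc D.free D.card hS x₀
  obtain ⟨p1, p2, p3, p4, p5, p6⟩ := hP G X c m x₀ S hS
  have hhd : finrank ℚ (fixedPart G x₀ S) ≤ finrank ℚ S := Submodule.finrank_mono fun u hu => hu.1
  have he1 : 0 < edim G S := edim_pos hS.1
  have heh : edim G S ≤ finrank ℚ (fixedPart G x₀ S) := edim_le D.cc D.cen x₀ hS.2.1 hS.2.2.1
  have hm1 : 1 ≤ m := Nat.one_le_iff_ne_zero.2 (NeZero.ne m)
  have hmg : 0 < m * g := Nat.mul_pos hm1 hg1
  have hpow : (0 : ℝ) < 2 ^ (m * g) := by positivity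
  have hg0 : (0 : ℝ) < g := by exact_mod_cast hg1
  have hm0 : (0 : ℝ) < m := by exact_mod_cast hm1
  have he0 : (0 : ℝ) < edim G S := by exact_mod_cast he1
  have hdim' : Nat.card (G × Multiplicative (ZMod m)) * n = Nat.card G * m * n := by
    rw [card_prodG]
  set N : ℝ := (cntP M c S : ℝ) / 2 ^ (m * g) with hNdef
  have key := hC' g m (finrank ℚ S) (finrank ℚ (fixedPart G x₀ S)) (edim G S)
    (edim G S + codimFix G x₀ S) n (Nat.card G) N (Nat.pos_of_ne_zero D.n0) hm1
    (he1.trans_le heh) hhd hdg he1 heh (fixed_mul_le hM D.cc D.free D.cen D.card hS x₀) rfl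
    (by
      have := codim_ge_two hS.2.1 hf x₀ h3
      unfold codimFix
      omega)
    (by
      have h5 : Nat.card (MulAction.stabilizer G x₀) * (2 * g) = Nat.card G := by
        rw [← D.card, ← Nat.card_eq_fintype_card (α := X),
          ← MulAction.index_stabilizer_of_transitive (G := G) (x := x₀)]
        exact Subgroup.card_mul_index _
      nlinarith)
    (card_le_of_faith hf D.card)
    (fun b hb => by
      have h4 := hB G X c S hS x₀ hf b hb
      rwa [D.card] at h4)
    (by
      rw [hNdef, div_le_one hpow]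
      exact ncard_class_le_two_pow M D.cc' D.free' D.card' _)
    (by
      rw [hNdef, div_le_iff₀' hpow]
      have h4 := ncard_orth_boundA M D.n0 D.Mn D.Mc D.cc' D.free' D.cen' D.card' p2 ⟨x₀, 0⟩
      unfold codimFix at h4 ⊢
      rw [p3, p4, p5, hdim'] at h4
      exact h4)
    (by
      have h4 := cntP_le_key hK hP D hS x₀
      rw [hNdef, div_le_iff₀ hpow, div_mul_eq_mul_div, le_div_iff₀ (by positivity)]
      calc (cntP M c S : ℝ) * ((edim G S : ℝ) ^ 2 * √(m * g)) =
            (cntP M c S : ℝ) * (edim G S : ℝ) ^ 2 * √(m * g) := by ring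
        _ ≤ _ := h4
        _ = _ := by ring)
    (fun P hP1 hP2 => by
      rw [hNdef, div_le_iff₀' hpow]
      rw [← hdim'] at hP2
      have h4 := ncard_class_le_prime2 M D.n0 D.Mn D.Mc D.cc' D.free' D.cen' D.card' p2 ⟨x₀, 0⟩
        hP1 hP2
      rw [p3, p5] at h4
      push_cast at h4
      exact h4)
  rw [hNdef, div_le_iff₀' hpow] at key
  refine key.trans ?_
  have hCC : C' ≤ max C' 0 := le_max_left _ _
  gcongr

end Pool.Agent.Y1.KN
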