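import Mathlib
import Pool.Agent.Y1.KN.Faith2

/-!
# Statements about multiplicities
-/

set_option linter.unusedSectionVars false
set_option linter.unusedVariables false

namespace Pool.Agent.Y1.KN

open Finset Module Pool.Agent.TH170.MF Pool.Agent.TH170.QC Pool.Agent.TH170.QE Pool.Agent.TH170.FW
  Pool.Agent.TH170.GC

/-- The odd sign functions on the product of `X` with a cyclic group whose products with `M` are
orthogonal to a minimal space (lifted from `X`) with the class functions `K`. -/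
def orthP {G X : Type} [Group G] [Fintype G] [MulAction G X] [Fintype X] {m : ℕ} [NeZero m]
    (M : PX X m → ℤ) (c : G) (K : Submodule ℚ (ConjClasses G → ℚ)) : Set (PX X m → ℤ) :=
  {f | f ∈ oddSigns (PX X m) (fun x => ((c, 1) : G × Multiplicative (ZMod m)) • x) ∧
    ∃ S ∈ MinInv G (fun x : X => c • x), killers G (S : Set (X → ℚ)) = K ∧
      ∀ s ∈ S, ∑ x : PX X m, ((f x * M x : ℤ) : ℚ) * s x.fst = 0}

/-- The bound without the logarithm of the order of the group. -/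
noncomputable def boundB (g d c : ℕ) (L : ℝ) : ℝ :=
  if (10 ^ 4 + 10 * L) ^ 2 * Real.log (4 * d) * d ≤ 4 * g then
    √(32 * Real.log (4 * d) * d / g) ^ c else 1

/-- The sharper estimate of the sum of the powers of the cosines. -/
def P_sig : Prop :=
  ∀ (N : ℕ) [NeZero N] (a : ℝ) (d : ℕ), Odd N → 0 < a → 1 ≤ d →
    4 * (d : ℝ) ≤ Real.exp (Real.pi ^ 2 * a / (2 * (N : ℝ) ^ 2)) → sig N a ^ d ≤ Real.exp 1

/-- The count with a prime number, with multiplicities. -/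
def P_gen : Prop :=
  ∀ (G X : Type) [Group G] [Fintype G] [MulAction G X] [Fintype X] [DecidableEq X]
    [MulAction.IsPretransitive G X] (m n g : ℕ) [NeZero m] (M : PX X m → ℤ) (c : G),
    PData G X m n g M c → ∀ S ∈ MinInv G (fun x : X => c • x), ∀ (x₀ : X) (p : ℕ) [Fact p.Prime],
    p ≠ 2 → ¬ p ∣ Nat.card G * n →
    ((orthP M c (killers G (S : Set (X → ℚ)))).ncard : ℝ) *
      (((p - 1 : ℕ) : ℝ) ^ edim G S * (p : ℝ) ^ codimFix G x₀ S) ≤
      2 ^ (m * g) * sig p (((m * g : ℕ) : ℝ) / (finrank ℚ S : ℝ)) ^ finrank ℚ S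

/-- The first bound, with multiplicities. -/
def P_genB : Prop :=
  ∀ (G X : Type) [Group G] [Fintype G] [MulAction G X] [Fintype X] [DecidableEq X]
    [MulAction.IsPretransitive G X] (m n g : ℕ) [NeZero m] (M : PX X m → ℤ) (c : G),
    PData G X m n g M c → ∀ S ∈ MinInv G (fun x : X => c • x), ∀ (x₀ : X),
    ((orthP M c (killers G (S : Set (X → ℚ)))).ncard : ℝ) ≤
      2 ^ (m * g) * boundB (m * g) (finrank ℚ S) (edim G S + codimFix G x₀ S)
        (Real.log ((Nat.card G * n : ℕ) : ℝ))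

/-- The second bound, with multiplicities. -/
def P_genP : Prop :=
  ∀ (G X : Type) [Group G] [Fintype G] [MulAction G X] [Fintype X] [DecidableEq X]
    [MulAction.IsPretransitive G X] (m n g : ℕ) [NeZero m] (M : PX X m → ℤ) (c : G),
    PData G X m n g M c → ∀ S ∈ MinInv G (fun x : X => c • x), ∀ (x₀ : X) (P : ℝ),
    10 ^ 4 ≤ P → 10 * Real.log ((Nat.card G * n : ℕ) : ℝ) ≤ P →
    ((orthP M c (killers G (S : Set (X → ℚ)))).ncard : ℝ) ≤
      2 ^ (m * g) * (P ^ finrank ℚ (fixedPart G x₀ S) *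
        (4 / P + √(2 * finrank ℚ S / (Real.pi * (m * g)))) ^ finrank ℚ S)

/-- The numerical part for spaces of small codimension. -/
def P_num4 : Prop :=
  ∃ C : ℝ, ∀ (g m d e c n Gc : ℕ) (N : ℝ), 1 ≤ n → 1 ≤ m → 1 ≤ d → 1 ≤ e → e ≤ d →
    (d : ℝ) ^ 2 ≤ 4 * g → (g : ℝ) ≤ 4 * (d : ℝ) ^ 2 / e → 1 ≤ c → 1 ≤ Gc → Gc ≤ 4 * g → N ≤ 1 →
    N ≤ boundB (m * g) d c (Real.log ((Gc * n : ℕ) : ℝ)) →
    N ≤ C * (n : ℝ) ^ 2 * ((d : ℝ) ^ 2 / (e * g)) * ((g : ℝ) ^ (3 / 10 : ℝ) / √(m * g))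

end Pool.Agent.Y1.KN
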