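import Mathlib
import Pool.Agent.Y1.KN.Stm5

/-!
# The numerical statements for the bound with a logarithm
-/

set_option linter.unusedVariables false

namespace Pool.Agent.Y1.KN

/-- The numerical part, with a logarithm. -/
def P_num5 : Prop :=
  ∃ C : ℝ, ∀ (g m d h e c n Gc : ℕ) (N : ℝ), 1 ≤ n → 1 ≤ m → 1 ≤ h → h ≤ d → d ≤ g → 1 ≤ e →
    e ≤ h → h * d ≤ e * g → c = e + (d - h) → 3 ≤ c → 2 * g ≤ Gc → Gc ≤ (2 * g) ^ (2 * g) →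
    (∀ b : ℕ, (d : ℝ) * (1 - (h : ℝ) / d) ^ b < 1 → Gc ≤ (2 * g) ^ b) → N ≤ 1 →
    N ≤ boundB (m * g) d c (Real.log ((Gc * n : ℕ) : ℝ)) →
    N ≤ (n : ℝ) ^ 2 * h * d / ((e : ℝ) ^ 2 * √(m * g)) →
    (∀ P : ℝ, 10 ^ 4 ≤ P → 10 * Real.log ((Gc * n : ℕ) : ℝ) ≤ P →
      N ≤ P ^ h * (4 / P + √(2 * d / (Real.pi * (m * g)))) ^ d) →
    N ≤ C * (n : ℝ) ^ 2 * (h * d / (e * g)) * ((1 + Real.log g) ^ 16 / √(m * g))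

/-- The numerical part for spaces of codimension two. -/
def P_num6 : Prop :=
  ∃ C : ℝ, ∀ (g m d n Gc : ℕ) (N : ℝ), 1 ≤ n → 1 ≤ m → 1 ≤ d → 1 ≤ g → d ^ 2 ≤ 2 * g →
    2 * g < (d + 1) ^ 2 → 1 ≤ Gc → Gc ≤ 4 * g → N ≤ 1 →
    N ≤ boundB (m * g) d 2 (Real.log ((Gc * n : ℕ) : ℝ)) →
    N ≤ C * (n : ℝ) ^ 2 * ((1 + Real.log g) ^ 16 / √(m * g))

end Pool.Agent.Y1.KN
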