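import Mathlib
import Pool.Agent.Y1.KN.Stm7
import Pool.Agent.Y1.KN.Small

/-!
# The bound for a faithful minimal space, with a logarithm
-/

set_option linter.unusedSectionVars false
set_option linter.unusedVariables false

namespace Pool.Agent.Y1.KN

open Finset Module Pool.Agent.TH170.MF Pool.Agent.TH170.QC Pool.Agent.TH170.QE Pool.Agent.TH170.FW
  Pool.Agent.TH170.GC

/-- The sign functions for a space are sign functions for the lifted space. -/
theorem orthP_subset (hP : P_prod) {G X : Type} [Group G] [Fintype G] [MulAction G X]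
    [Fintype X] [DecidableEq X] [MulAction.IsPretransitive G X] {m : ℕ} [NeZero m]
    (M : PX X m → ℤ) (c : G) {S : Submodule ℚ (X → ℚ)}
    (hS : S ∈ MinInv G (fun x : X => c • x)) (x₀ : X) :
    orthP M c (killers G (S : Set (X → ℚ))) ⊆
      orthClassW M ((c, 1) : G × Multiplicative (ZMod m))
        (killers (G × Multiplicative (ZMod m)) (liftPX m S : Set (PX X m → ℚ))) := by
  classical
  rintro f ⟨hf, S', hS', hK, horth⟩
  obtain ⟨p1, p2, p3, p4, p5, p6⟩ := hP G X c m x₀ S hS
  obtain ⟨q1, q2, q3, q4, q5, q6⟩ := hP G X c m x₀ S' hS'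
  refine ⟨hf, liftPX m S', q2, p6 S' hS' hK, ?_⟩
  rintro v ⟨u, hu, hv⟩
  rw [← horth u hu]
  exact sum_congr rfl fun x _ => by rw [hv x]

/-- The number of the sign functions of a class. -/
noncomputable def cntO {G X : Type} [Group G] [Fintype G] [MulAction G X] [Fintype X]
    {m : ℕ} [NeZero m] (M : PX X m → ℤ) (c : G) (S : Submodule ℚ (X → ℚ)) : ℕ :=
  (orthP M c (killers G (S : Set (X → ℚ)))).ncard

theorem cntO_le_cntP (hP : P_prod) {G X : Type} [Group G] [Fintype G] [MulAction G X]
    [Fintype X] [DecidableEq X] [MulAction.IsPretransitive G X] {m : ℕ} [NeZero m]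
    (M : PX X m → ℤ) (c : G) {S : Submodule ℚ (X → ℚ)}
    (hS : S ∈ MinInv G (fun x : X => c • x)) (x₀ : X) : cntO M c S ≤ cntP M c S := by
  classical
  exact Set.ncard_le_ncard (orthP_subset hP M c hS x₀)
    ((finite_oddSigns _).subset fun f hf => hf.1)

/-- The bound for the faithful spaces, with a logarithm. -/
def P_faith3 : Prop :=
  ∃ C : ℝ, 0 ≤ C ∧ ∀ (G X : Type) [Group G] [Fintype G] [MulAction G X] [Fintype X]
    [DecidableEq X] [MulAction.IsPretransitive G X] (m n g : ℕ) [NeZero m] (M : PX X m → ℤ)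
    (c : G), PData G X m n g M c → ∀ S ∈ MinInv G (fun x : X => c • x), ∀ x₀ : X, Faith G S →
    (3 ≤ edim G S + codimFix G x₀ S ∨ Star G c x₀ g) →
    (cntO M c S : ℝ) ≤
      2 ^ (m * g) * (C * (n : ℝ) ^ 2 *
        (finrank ℚ (fixedPart G x₀ S) * finrank ℚ S / (edim G S * g)) *
          ((1 + Real.log g) ^ 16 / √(m * g)))

theorem faith3 (hM : P_mult) (hB : P_base) (hK : P_key) (hN : P_num5) (hN6 : P_num6)
    (hP : P_prod) (hGB : P_genB) (hGP : P_genP) (hF : P_free) (hO : P_order) (hC : P_char)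
    (hMk : P_mink) : P_faith3 := by
  classical
  obtain ⟨C₅, hC₅⟩ := hN
  obtain ⟨C₆, hC₆⟩ := hN6
  set C : ℝ := max (max C₅ (4 * C₆)) (3 ^ 100) with hCdef
  have hC5 : C₅ ≤ C := (le_max_left _ _).trans (le_max_left _ _)
  have hC6 : 4 * C₆ ≤ C := (le_max_right _ _).trans (le_max_left _ _)
  have hC3 : (3 : ℝ) ^ 100 ≤ C := le_max_right _ _
  have hC0 : 0 ≤ C := le_trans (by positivity) hC3
  refine ⟨C, hC0, ?_⟩
  intro G X _ _ _ _ _ _ m n g _ M c D S hS x₀ hf hor
  obtain ⟨hg1, -, hd1, hdg, -, -⟩ := basicsW (n := 1) one_ne_zero D.cc D.free D.card hS x₀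
  have hhd : finrank ℚ (fixedPart G x₀ S) ≤ finrank ℚ S := Submodule.finrank_mono fun u hu => hu.1
  have he1 : 0 < edim G S := edim_pos hS.1
  have heh : edim G S ≤ finrank ℚ (fixedPart G x₀ S) := edim_le D.cc D.cen x₀ hS.2.1 hS.2.2.1
  have hm1 : 1 ≤ m := Nat.one_le_iff_ne_zero.2 (NeZero.ne m)
  have hmg : 0 < m * g := Nat.mul_pos hm1 hg1
  have hpow : (0 : ℝ) < 2 ^ (m * g) := by positivity
  have hg0 : (0 : ℝ) < g := by exact_mod_cast hg1
  have hg1R : (1 : ℝ) ≤ g := by exact_mod_cast hg1
  have hm0 : (0 : ℝ) < m := by exact_mod_cast hm1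
  have he0 : (0 : ℝ) < edim G S := by exact_mod_cast he1
  have he1R : (1 : ℝ) ≤ edim G S := by exact_mod_cast he1
  have hlog : 0 ≤ Real.log g := Real.log_nonneg hg1R
  have hlog1 : (1 : ℝ) ≤ (1 + Real.log g) ^ 16 := one_le_pow₀ (by linarith)
  have hn1 : 1 ≤ n := Nat.pos_of_ne_zero D.n0
  have hsub := cntO_le_cntP hP M c hS x₀
  obtain ⟨p1, -⟩ := hP G X c m x₀ S hS
  set N : ℝ := (cntO M c S : ℝ) / 2 ^ (m * g) with hNdef
  have hN1 : N ≤ 1 := by
    rw [hNdef, div_le_one hpow]
    refine (Nat.cast_le.2 hsub).trans ?_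
    exact ncard_class_le_two_pow M D.cc' D.free' D.card' _
  have hNB : N ≤ boundB (m * g) (finrank ℚ S) (edim G S + codimFix G x₀ S)
      (Real.log ((Nat.card G * n : ℕ) : ℝ)) := by
    rw [hNdef, div_le_iff₀' hpow]
    exact hGB G X m n g M c D S hS x₀
  have hNK : N ≤ (n : ℝ) ^ 2 * finrank ℚ (fixedPart G x₀ S) * finrank ℚ S /
      ((edim G S : ℝ) ^ 2 * √(m * g)) := by
    have h4 := cntP_le_key hK hP D hS x₀
    rw [hNdef, div_le_iff₀ hpow, div_mul_eq_mul_div, le_div_iff₀ (by positivity)]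
    calc (cntO M c S : ℝ) * ((edim G S : ℝ) ^ 2 * √(m * g)) ≤
          (cntP M c S : ℝ) * ((edim G S : ℝ) ^ 2 * √(m * g)) :=
            mul_le_mul_of_nonneg_right (Nat.cast_le.2 hsub) (by positivity)
      _ = (cntP M c S : ℝ) * (edim G S : ℝ) ^ 2 * √(m * g) := by ring
      _ ≤ _ := h4
      _ = _ := by ring
  rw [← div_le_iff₀' hpow, ← hNdef]
  by_cases hc3 : 3 ≤ edim G S + codimFix G x₀ S
  · have key := hC₅ g m (finrank ℚ S) (finrank ℚ (fixedPart G x₀ S)) (edim G S)
      (edim G S + codimFix G x₀ S) n (Nat.card G) N hn1 hm1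
      (he1.trans_le heh) hhd hdg he1 heh (fixed_mul_le hM D.cc D.free D.cen D.card hS x₀) rfl hc3
      (by
        have h5 := card_stab_mul (G := G) D.card x₀
        have h6 : 0 < Nat.card (MulAction.stabilizer G x₀) := Nat.card_pos
        nlinarith)
      (card_le_of_faith hf D.card)
      (fun b hb => by
        have h4 := hB G X c S hS x₀ hf b hb
        rwa [D.card] at h4)
      hN1 hNB hNK
      (fun P hP1 hP2 => by
        rw [hNdef, div_le_iff₀' hpow]
        exact hGP G X m n g M c D S hS x₀ P hP1 hP2)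
    refine key.trans ?_
    gcongr
  · have hstar := hor.resolve_left hc3
    have hcS : edim G S + codimFix G x₀ S ≤ 2 := by omega
    have hsmall : g ≤ 3 ^ 100 → N ≤ C * (n : ℝ) ^ 2 *
        (finrank ℚ (fixedPart G x₀ S) * finrank ℚ S / (edim G S * g)) *
          ((1 + Real.log g) ^ 16 / √(m * g)) := by
      intro hgs
      have hgR : (g : ℝ) ≤ C := by
        refine le_trans ?_ hC3
        exact_mod_cast hgs
      refine hNK.trans ?_
      have h1 : (n : ℝ) ^ 2 * finrank ℚ (fixedPart G x₀ S) * finrank ℚ S /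
          ((edim G S : ℝ) ^ 2 * √(m * g)) = (g / edim G S) * (n : ℝ) ^ 2 *
          (finrank ℚ (fixedPart G x₀ S) * finrank ℚ S / (edim G S * g)) * (1 / √(m * g)) := by
        field_simp
      rw [h1]
      have h2 : (g : ℝ) / edim G S ≤ C := by
        rw [div_le_iff₀ he0]
        nlinarith
      gcongr
    have hstab : Nat.card (MulAction.stabilizer G x₀) = 1 ∨
        Nat.card (MulAction.stabilizer G x₀) = 2 := by
      have h0 : 0 < Nat.card (MulAction.stabilizer G x₀) := Nat.card_pos
      by_contra hcon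
      have h3 : 3 ≤ Nat.card (MulAction.stabilizer G x₀) := by omega
      have h4 := codim_ge_two hS.2.1 hf x₀ h3
      unfold codimFix at hcS
      omega
    rcases hstab with h1 | h2
    · rcases small_one hF hO hM D.cc D.free D.cen D.card hS x₀ hf hstar h1
        (by omega) with h8 | ⟨q1, q2, q3, q4⟩
      · exact hsmall (h8.trans (by norm_num))
      · have hmul := fixed_mul_le hM D.cc D.free D.cen D.card hS x₀
        rw [q1] at hmul
        have hcod0 : codimFix G x₀ S = 0 := by
          unfold codimFix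
          rw [q1, Nat.sub_self]
        rw [hcod0, add_zero] at hNB hcS
        by_cases he : edim G S = 1
        · rw [he, one_mul] at hmul
          refine hsmall ?_
          have h5 : finrank ℚ S ≤ 3 := by
            by_contra hcon
            have : 4 ≤ finrank ℚ S := by omega
            nlinarith
          have h6 : (finrank ℚ S + 1) ^ 2 ≤ 16 := by
            calc (finrank ℚ S + 1) ^ 2 ≤ 4 ^ 2 := Nat.pow_le_pow_left (by omega) 2
              _ = 16 := by norm_num
          calc g ≤ 16 := by omega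
            _ ≤ 3 ^ 100 := by norm_num
        · have he2 : edim G S = 2 := by omega
          rw [he2] at hNB
          have key := hC₆ g m (finrank ℚ S) n (Nat.card G) N hn1 hm1 hd1 hg1 q4 q3
            Nat.card_pos (by rw [q2]; omega) hN1 hNB
          refine key.trans ?_
          rw [q1, he2]
          have h5 : (g : ℝ) ≤ 2 * (finrank ℚ S : ℝ) ^ 2 := by
            have h6 : g ≤ 2 * finrank ℚ S ^ 2 := by nlinarith
            exact_mod_cast h6
          have h7 : (1 : ℝ) ≤ 4 * (finrank ℚ S * finrank ℚ S / ((2 : ℕ) * g)) := by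
            rw [mul_div_assoc', le_div_iff₀ (by positivity)]
            push_cast
            nlinarith
          have h8 : (0 : ℝ) ≤ (n : ℝ) ^ 2 * ((1 + Real.log g) ^ 16 / √(m * g)) := by positivity
          have h9 : (0 : ℝ) ≤ finrank ℚ S * finrank ℚ S / ((2 : ℕ) * g) := by positivity
          rcases le_total 0 C₆ with h10 | h10
          · calc C₆ * (n : ℝ) ^ 2 * ((1 + Real.log g) ^ 16 / √(m * g)) =
                C₆ * ((n : ℝ) ^ 2 * ((1 + Real.log g) ^ 16 / √(m * g))) * 1 := by ring
              _ ≤ C₆ * ((n : ℝ) ^ 2 * ((1 + Real.log g) ^ 16 / √(m * g))) *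
                  (4 * (finrank ℚ S * finrank ℚ S / ((2 : ℕ) * g))) := by gcongr
              _ = (4 * C₆) * ((n : ℝ) ^ 2 * ((1 + Real.log g) ^ 16 / √(m * g)) *
                  (finrank ℚ S * finrank ℚ S / ((2 : ℕ) * g))) := by ring
              _ ≤ C * ((n : ℝ) ^ 2 * ((1 + Real.log g) ^ 16 / √(m * g)) *
                  (finrank ℚ S * finrank ℚ S / ((2 : ℕ) * g))) := by
                    exact mul_le_mul_of_nonneg_right hC6 (by positivity)
              _ = _ := by ring
          · calc C₆ * (n : ℝ) ^ 2 * ((1 + Real.log g) ^ 16 / √(m * g)) =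
                C₆ * ((n : ℝ) ^ 2 * ((1 + Real.log g) ^ 16 / √(m * g))) := by ring
              _ ≤ 0 := mul_nonpos_of_nonpos_of_nonneg h10 h8
              _ ≤ _ := by positivity
    · exact hsmall (small_two hF hO hM hC hMk D.cc D.free D.cen D.card hS x₀ hf hstar h2 hcS)

end Pool.Agent.Y1.KN
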