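import Mathlib
import Pool.Agent.Y1.KN.Sub

/-!
# The number of the degenerate types of a CM field
-/

set_option linter.unusedSectionVars false
set_option linter.unusedVariables false

namespace Pool.Agent.Y1.KN

open NumberField Finset Module Pool.Agent.H204R3.CM Pool.Agent.TH170.MF Pool.Agent.TH170.QC
  Pool.Agent.TH170.QE Pool.Agent.TH170.FW Pool.Agent.TH170.CM Pool.Agent.TH170.GC

/-- The types orthogonal to a minimal space of a class. -/
theorem ncard_types_le {E : Type*} [Field E] [NumberField E] [IsCMField E]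
    (M : (E →+* ℂ) → ℤ) {c : Gal E} (hc : ∀ φ : E →+* ℂ, c • φ = ComplexEmbedding.conjugate φ)
    {S₀ : Submodule ℚ ((E →+* ℂ) → ℚ)} (hS₀ : S₀ ∈ minimalSpaces E) :
    {Φ : Set (E →+* ℂ) | IsCMType Φ ∧ ∃ S ∈ minimalSpaces E, component S = component S₀ ∧
      OrthW M Φ S}.ncard ≤
    (orthClassW M c (killers (Gal E) (S₀ : Set ((E →+* ℂ) → ℚ)))).ncard := by
  classical
  have hfun : (fun φ : E →+* ℂ => c • φ) = ComplexEmbedding.conjugate (K := E) := funext hc
  refine Set.ncard_le_ncard_of_injOn sgn ?_ ?_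
    ((finite_oddSigns (X := E →+* ℂ) (fun x => c • x)).subset fun f hf => hf.1)
  · rintro Φ ⟨hΦ, S, hS, hSW', hsum⟩
    refine ⟨?_, S, ?_, ?_, hsum⟩
    · change OddSign (fun x => c • x) (sgn Φ)
      rw [hfun]
      exact oddSign_sgn hΦ
    · rw [hfun]
      exact (minInv_iff S).2 hS
    · have h3 : classKillers S = classKillers S₀ := by
        rw [← classKillers_component hS, ← classKillers_component hS₀, hSW']
      exact h3
  · intro Φ _ Φ' _ h
    exact sgn_injective h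

/-- The bound for a single field. -/
def P_field_bound : Prop :=
  ∃ C : ℝ, 0 ≤ C ∧ ∀ (E : Type) [Field E] [NumberField E] [IsCMField E] (M : (E →+* ℂ) → ℤ)
    (n g : ℕ), n ≠ 0 → (∀ φ, M φ ∣ (n : ℤ)) → (∀ φ, M (ComplexEmbedding.conjugate φ) = M φ) →
    finrank ℚ E = 2 * g →
    3 * finrank ℚ E ≤ finrank ℚ (IntermediateField.normalClosure ℚ E ℂ) →
    ((degTypes M).ncard : ℝ) ≤
      2 ^ g * ((n : ℝ) ^ 2 * (sumDegrees E / (2 * √g) + C * (g : ℝ) ^ (-(1 / 5) : ℝ)))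

theorem field_bound (hM : P_mult) (hK : P_key) (hFa : P_faith) (hcorr : P_corr) (hdim : P_dim)
    (hcl : P_closure) : P_field_bound := by
  classical
  obtain ⟨C', hC'⟩ := hFa
  set C := max C' 0 with hCdef
  have hC0 : 0 ≤ C := le_max_right _ _
  have hCC : C' ≤ C := le_max_left _ _
  refine ⟨C, hC0, ?_⟩
  intro E _ _ _ M n g hn0 hMn hMc hg h3
  obtain ⟨φ₀⟩ : Nonempty (E →+* ℂ) := inferInstance
  obtain ⟨c, hc, hcc, hcen⟩ := exists_conj E
  have hfun : (fun φ : E →+* ℂ => c • φ) = ComplexEmbedding.conjugate (K := E) := funext hc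
  have hmin : ∀ S ∈ minimalSpaces E, S ∈ MinInv (Gal E) (fun φ : E →+* ℂ => c • φ) := by
    intro S hS
    rw [hfun]
    exact (minInv_iff S).2 hS
  have hfree : ∀ φ : E →+* ℂ, c • φ ≠ φ := fun φ => by
    rw [hc]
    exact conj_ne φ
  have hMc' : ∀ φ : E →+* ℂ, M (c • φ) = M φ := fun φ => by rw [hc, hMc]
  have hcard : Fintype.card (E →+* ℂ) = 2 * g := by rw [Embeddings.card, hg]
  have hg0 : 0 < g := by
    have := Module.finrank_pos (R := ℚ) (M := E)
    omega
  have hgR : (0 : ℝ) < g := by exact_mod_cast hg0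
  have hstab : 3 ≤ Nat.card (MulAction.stabilizer (Gal E) φ₀) := by
    obtain ⟨h4, h5⟩ := hcl E φ₀
    rw [← h4, h5, hg] at h3
    exact Nat.le_of_mul_le_mul_right h3 (by omega)
  -- the components and the representatives
  have hfin := finite_components (E := E)
  have hrep : ∀ W : Submodule ℚ ((E →+* ℂ) → ℚ), ∃ S, W ∈ components E →
      S ∈ minimalSpaces E ∧ component S = W := by
    intro W
    by_cases hW : W ∈ components E
    · obtain ⟨S, hS, hSW⟩ := hW
      exact ⟨S, fun _ => ⟨hS, hSW⟩⟩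
    · exact ⟨⊥, fun h => absurd h hW⟩
  choose rep hrep using hrep
  set cnt : Submodule ℚ ((E →+* ℂ) → ℚ) → ℕ := fun W => {Φ : Set (E →+* ℂ) | IsCMType Φ ∧
      ∃ S ∈ minimalSpaces E, component S = W ∧ OrthW M Φ S}.ncard with hcnt
  have hcnt_le : ∀ W ∈ components E, cnt W ≤
      (orthClassW M c (killers (Gal E) ((rep W : Submodule ℚ ((E →+* ℂ) → ℚ)) :
        Set ((E →+* ℂ) → ℚ)))).ncard := by
    intro W hW
    have h4 := ncard_types_le M hc (hrep W hW).1
    rw [(hrep W hW).2] at h4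
    exact h4
  have hkne : ∀ W ∈ components E, ∀ W' ∈ components E, W ≠ W' →
      killers (Gal E) ((rep W : Submodule ℚ ((E →+* ℂ) → ℚ)) : Set ((E →+* ℂ) → ℚ)) ≠
      killers (Gal E) ((rep W' : Submodule ℚ ((E →+* ℂ) → ℚ)) : Set ((E →+* ℂ) → ℚ)) := by
    intro W hW W' hW' hne h
    apply hne
    rw [← (hrep W hW).2, ← (hrep W' hW').2]
    exact component_congr h
  -- the total number
  have htot : (degTypes M).ncard ≤ ∑ W ∈ hfin.toFinset, cnt W := by
    have h1 : degTypes M ⊆ ⋃ W ∈ hfin.toFinset, {Φ : Set (E →+* ℂ) | IsCMType Φ ∧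
        ∃ S ∈ minimalSpaces E, component S = W ∧ OrthW M Φ S} := by
      rintro Φ ⟨hΦ, S, hS, hmem⟩
      exact Set.mem_biUnion (hfin.mem_toFinset.2 ⟨S, hS, rfl⟩) ⟨hΦ, S, hS, rfl, hmem⟩
    refine (Set.ncard_le_ncard h1 (Set.toFinite _)).trans ?_
    exact Finset.set_ncard_biUnion_le _ _
  set A := hfin.toFinset.filter (fun W => Faith (Gal E) (rep W)) with hA
  set B := hfin.toFinset.filter (fun W => ¬ Faith (Gal E) (rep W)) with hB
  have hsplit : ∑ W ∈ hfin.toFinset, cnt W = ∑ W ∈ A, cnt W + ∑ W ∈ B, cnt W := by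
    rw [hA, hB, sum_filter_add_sum_filter_not]
  have hAmem : ∀ W ∈ A, W ∈ components E ∧ Faith (Gal E) (rep W) := by
    intro W hW
    rw [hA, mem_filter, hfin.mem_toFinset] at hW
    exact hW
  have hBmem : ∀ W ∈ B, W ∈ components E ∧ ¬ Faith (Gal E) (rep W) := by
    intro W hW
    rw [hB, mem_filter, hfin.mem_toFinset] at hW
    exact hW
  -- the faithful components
  have hdimA : ∑ W ∈ A, finrank ℚ (rep W) ≤ g := by
    have h4 := sum_sum_finrank_le (V := resSpace (⊤ : IntermediateField ℚ E)) A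
      (fun W => {rep W}) ?_ ?_ ?_ ?_
    · simp only [sum_singleton] at h4
      have h5 := hdim E ⊤ (resSpace ⊤) (fun s hs φ => hs.1 φ) (fun u hu φ ψ h => hu.2 φ ψ h)
      have h6 : finrank ℚ (⊤ : IntermediateField ℚ E) = 2 * g := by
        rw [IntermediateField.finrank_top', hg]
      omega
    · intro W hW S hS
      rw [mem_singleton] at hS
      rw [hS]
      intro u hu
      refine ⟨(hrep W (hAmem W hW).1).1.2.2.1 u hu, fun φ ψ h => ?_⟩
      rw [RingHom.ext fun x => h x IntermediateField.mem_top]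
    · intro W hW S hS
      rw [mem_singleton] at hS
      rw [hS]
      exact (hrep W (hAmem W hW).1).1.1
    · intro W hW S hS S' hS' hne
      rw [mem_singleton] at hS hS'
      exact absurd (hS.trans hS'.symm) hne
    · intro W hW W' hW' hne S hS S' hS'
      rw [mem_singleton] at hS hS'
      rw [hS, hS']
      exact orth_of_killers_ne (hmin _ (hrep W (hAmem W hW).1).1)
        (hmin _ (hrep W' (hAmem W' hW').1).1)
        (hkne W (hAmem W hW).1 W' (hAmem W' hW').1 hne)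
  have hsumA : ((∑ W ∈ A, cnt W : ℕ) : ℝ) ≤
      2 ^ g * ((n : ℝ) ^ 2 * (C * (g : ℝ) ^ (-(1 / 5) : ℝ))) := by
    have hrp : (0 : ℝ) ≤ (g : ℝ) ^ (-(1 / 5) : ℝ) := by positivity
    have h4 : ∀ W ∈ A, (cnt W : ℝ) ≤
        2 ^ g * (C * (n : ℝ) ^ 2 * (finrank ℚ (rep W) / g) * (g : ℝ) ^ (-(1 / 5) : ℝ)) := by
      intro W hW
      have h5 := hC' (Gal E) (E →+* ℂ) M n hn0 hMn c hMc' hcc hfree hcen g hcard (rep W)
        (hmin _ (hrep W (hAmem W hW).1).1) φ₀ (hAmem W hW).2 hstab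
      have h6 : (cnt W : ℝ) ≤ _ := (Nat.cast_le.2 (hcnt_le W (hAmem W hW).1)).trans h5
      refine h6.trans ?_
      refine mul_le_mul_of_nonneg_left ?_ (by positivity)
      refine mul_le_mul_of_nonneg_right ?_ hrp
      refine mul_le_mul_of_nonneg_right ?_ (by positivity)
      exact mul_le_mul_of_nonneg_right hCC (by positivity)
    rw [Nat.cast_sum]
    refine (sum_le_sum h4).trans ?_
    have h5 : ∑ W ∈ A, 2 ^ g * (C * (n : ℝ) ^ 2 * (finrank ℚ (rep W) / g) *
        (g : ℝ) ^ (-(1 / 5) : ℝ)) = 2 ^ g * ((n : ℝ) ^ 2 * (C * (g : ℝ) ^ (-(1 / 5) : ℝ))) *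
        ((∑ W ∈ A, finrank ℚ (rep W) : ℕ) / g) := by
      rw [Nat.cast_sum, sum_div, mul_sum]
      exact sum_congr rfl fun W _ => by ring
    rw [h5]
    refine mul_le_of_le_one_right (by positivity) ?_
    rw [div_le_one hgR]
    exact_mod_cast hdimA
  -- the other components
  have hfam : ∀ W : Submodule ℚ ((E →+* ℂ) → ℚ), ∃ F : Finset (Submodule ℚ ((E →+* ℂ) → ℚ)),
      W ∈ components E →
      (∀ S' ∈ F, S' ∈ MinInv (Gal E) (fun φ : E →+* ℂ => c • φ) ∧
        killers (Gal E) (S' : Set ((E →+* ℂ) → ℚ)) =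
          killers (Gal E) ((rep W : Submodule ℚ ((E →+* ℂ) → ℚ)) : Set ((E →+* ℂ) → ℚ)) ∧
        finrank ℚ S' = finrank ℚ (rep W)) ∧
      (∀ S' ∈ F, ∀ S'' ∈ F, S' ≠ S'' → S'' ≤ (dot (E →+* ℂ)).orthogonal S') ∧
      finrank ℚ (fixedPart (Gal E) φ₀ (rep W)) ≤ edim (Gal E) (rep W) * F.card := by
    intro W
    by_cases hW : W ∈ components E
    · obtain ⟨F, hF⟩ := hM (Gal E) (E →+* ℂ) c hcc hfree hcen (rep W)
        (hmin _ (hrep W hW).1) φ₀
      exact ⟨F, fun _ => hF⟩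
    · exact ⟨∅, fun h => absurd h hW⟩
  choose fam hfam using hfam
  have hbigF : ∀ W : Submodule ℚ ((E →+* ℂ) → ℚ), ∃ F : IntermediateField ℚ E,
      W ∈ B → F ∈ maximalCM E ∧ ∀ S ∈ fam W, S ≤ resSpace F := by
    intro W
    by_cases hW : W ∈ B
    · obtain ⟨hWc, hWf⟩ := hBmem W hW
      obtain ⟨F, hF, hF'⟩ := exists_maximalCM hcorr E (hrep W hWc).1 hWf
      refine ⟨F, fun _ => ⟨hF, fun S hS => ?_⟩⟩
      obtain ⟨h4, h5, h6⟩ := (hfam W hWc).1 S hS
      refine hF' S ((minInv_iff S).1 ?_) h5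
      rw [← hfun]
      exact h4
    · exact ⟨⊥, fun h => absurd h hW⟩
  choose bigF hbigF using hbigF
  have hBcount : ∀ W ∈ B, (cnt W : ℝ) ≤ 2 ^ g * ((n : ℝ) ^ 2 / √g) *
      ((∑ S ∈ fam W, finrank ℚ S : ℕ) : ℝ) := by
    intro W hW
    obtain ⟨hWc, hWf⟩ := hBmem W hW
    obtain ⟨h4, h5, h6⟩ := hfam W hWc
    have h7 : ∑ S ∈ fam W, finrank ℚ S = (fam W).card * finrank ℚ (rep W) := by
      rw [sum_congr rfl fun S hS => (h4 S hS).2.2, sum_const, smul_eq_mul]
    have h8 := hK (Gal E) (E →+* ℂ) M n (fun x => abs_le_of_dvd hn0 (hMn x)) c hMc' hcc hfree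
      hcen g hcard (rep W) (hmin _ (hrep W hWc).1) φ₀
    set N := ((orthClassW M c (killers (Gal E) ((rep W : Submodule ℚ ((E →+* ℂ) → ℚ)) :
        Set ((E →+* ℂ) → ℚ)))).ncard : ℝ) with hN
    set e := edim (Gal E) (rep W) with he
    set h := finrank ℚ (fixedPart (Gal E) φ₀ (rep W)) with hh
    set d := finrank ℚ (rep W) with hd
    have he1 : 1 ≤ e := edim_pos (hrep W hWc).1.1
    have heR : (1 : ℝ) ≤ e := by exact_mod_cast he1
    have h9 : (cnt W : ℝ) ≤ N := Nat.cast_le.2 (hcnt_le W hWc)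
    refine h9.trans ?_
    rw [h7, Nat.cast_mul]
    have hsq : 0 < √(g : ℝ) := Real.sqrt_pos.2 hgR
    have h6' : (h : ℝ) ≤ e * (fam W).card := by exact_mod_cast h6
    have h10 : N * (e : ℝ) * (e * √g) ≤ 2 ^ g * (n : ℝ) ^ 2 * (fam W).card * d * (e * 1) := by
      calc N * (e : ℝ) * (e * √g) = N * (e : ℝ) ^ 2 * √g := by ring
        _ ≤ 2 ^ g * (n : ℝ) ^ 2 * h * d := h8
        _ ≤ 2 ^ g * (n : ℝ) ^ 2 * (e * (fam W).card) * d := by gcongr
        _ = _ := by ring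
    have hN0 : 0 ≤ N := Nat.cast_nonneg _
    have h11 : N * √g ≤ 2 ^ g * (n : ℝ) ^ 2 * (fam W).card * d := by
      have h12 : N * √g * e ≤ 2 ^ g * (n : ℝ) ^ 2 * (fam W).card * d * e := by
        calc N * √g * e ≤ N * √g * e * e := le_mul_of_one_le_right (by positivity) heR
          _ = N * (e : ℝ) * (e * √g) := by ring
          _ ≤ _ := h10
          _ = _ := by ring
      exact le_of_mul_le_mul_right h12 (by linarith)
    rw [← le_div_iff₀ hsq] at h11
    refine h11.trans (le_of_eq ?_)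
    ring
  have hfinM : (maximalCM E).Finite := Set.toFinite _
  have hBdim : ((∑ W ∈ B, ∑ S ∈ fam W, finrank ℚ S : ℕ) : ℝ) ≤ (sumDegrees E : ℝ) / 2 := by
    have h4 : ∑ W ∈ B, ∑ S ∈ fam W, finrank ℚ S =
        ∑ F ∈ hfinM.toFinset, ∑ W ∈ B.filter (fun W => bigF W = F),
          ∑ S ∈ fam W, finrank ℚ S := by
      refine (sum_fiberwise_of_maps_to (fun W hW => ?_) _).symm
      rw [hfinM.mem_toFinset]
      exact (hbigF W hW).1
    have h5 : ∀ F ∈ hfinM.toFinset, 2 * ∑ W ∈ B.filter (fun W => bigF W = F),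
        ∑ S ∈ fam W, finrank ℚ S ≤ finrank ℚ F := by
      intro F hF
      have h6 := sum_sum_finrank_le (V := resSpace F) (B.filter (fun W => bigF W = F)) fam
        ?_ ?_ ?_ ?_
      · have h7 := hdim E F (resSpace F) (fun s hs φ => hs.1 φ) (fun u hu φ ψ h => hu.2 φ ψ h)
        omega
      · intro W hW S hS
        obtain ⟨hW1, hW2⟩ := mem_filter.1 hW
        rw [← hW2]
        exact (hbigF W hW1).2 S hS
      · intro W hW S hS
        obtain ⟨hW1, hW2⟩ := mem_filter.1 hW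
        exact ((hfam W (hBmem W hW1).1).1 S hS).1.1
      · intro W hW S hS S' hS' hne
        obtain ⟨hW1, hW2⟩ := mem_filter.1 hW
        exact (hfam W (hBmem W hW1).1).2.1 S hS S' hS' hne
      · intro W hW W' hW' hne S hS S' hS'
        obtain ⟨hW1, hW2⟩ := mem_filter.1 hW
        obtain ⟨hW1', hW2'⟩ := mem_filter.1 hW'
        have h7 := (hfam W (hBmem W hW1).1).1 S hS
        have h8 := (hfam W' (hBmem W' hW1').1).1 S' hS'
        refine orth_of_killers_ne h7.1 h8.1 ?_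
        rw [h7.2.1, h8.2.1]
        exact hkne W (hBmem W hW1).1 W' (hBmem W' hW1').1 hne
    have h6 : 2 * ∑ W ∈ B, ∑ S ∈ fam W, finrank ℚ S ≤ sumDegrees E := by
      rw [h4, mul_sum, sumDegrees, finsum_mem_eq_finite_toFinset_sum _ hfinM]
      exact sum_le_sum h5
    rw [le_div_iff₀ two_pos, mul_comm]
    exact_mod_cast h6
  have hsumB : ((∑ W ∈ B, cnt W : ℕ) : ℝ) ≤
      2 ^ g * ((n : ℝ) ^ 2 * (sumDegrees E / (2 * √g))) := by
    rw [Nat.cast_sum]
    refine (sum_le_sum hBcount).trans ?_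
    rw [← mul_sum, ← Nat.cast_sum]
    calc 2 ^ g * ((n : ℝ) ^ 2 / √g) * ((∑ W ∈ B, ∑ S ∈ fam W, finrank ℚ S : ℕ) : ℝ) ≤
        2 ^ g * ((n : ℝ) ^ 2 / √g) * ((sumDegrees E : ℝ) / 2) :=
          mul_le_mul_of_nonneg_left hBdim (by positivity)
      _ = _ := by
          field_simp
  have h4 : ((degTypes M).ncard : ℝ) ≤ ((∑ W ∈ A, cnt W : ℕ) : ℝ) + ((∑ W ∈ B, cnt W : ℕ) : ℝ) := by
    rw [← Nat.cast_add, ← hsplit]
    exact_mod_cast htot
  refine h4.trans ((add_le_add hsumA hsumB).trans (le_of_eq ?_))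
  ring

end Pool.Agent.Y1.KN
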