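import Mathlib
import Pool.Agent.Y1.KN.Faith2
import Pool.Agent.Y1.KN.Field

/-!
# The number of the degenerate types of a CM field, in terms of the CM subfields
-/

set_option linter.unusedSectionVars false
set_option linter.unusedVariables false

namespace Pool.Agent.Y1.KN

open NumberField Finset Module Pool.Agent.H204R3.CM Pool.Agent.TH170.MF Pool.Agent.TH170.QC
  Pool.Agent.TH170.QE Pool.Agent.TH170.FW Pool.Agent.TH170.CM Pool.Agent.TH170.GC

/-- The CM subfields (with the field itself) whose normal closure has degree at most two over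
them. -/
def nearCM (E : Type*) [Field E] [NumberField E] : Set (IntermediateField ℚ E) :=
  {F | (∃ ψ : F →+* ℂ, ComplexEmbedding.conjugate ψ ≠ ψ) ∧
    finrank ℚ (IntermediateField.normalClosure ℚ F ℂ) ≤ 2 * finrank ℚ F}

/-- The other CM subfields (with the field itself). -/
def farCM (E : Type*) [Field E] [NumberField E] : Set (IntermediateField ℚ E) :=
  {F | (∃ ψ : F →+* ℂ, ComplexEmbedding.conjugate ψ ≠ ψ) ∧
    2 * finrank ℚ F < finrank ℚ (IntermediateField.normalClosure ℚ F ℂ)}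

/-- The fields from which all spaces of a class come. -/
def homeFields {E : Type*} [Field E] [NumberField E] (S₀ : Submodule ℚ ((E →+* ℂ) → ℚ)) :
    Set (IntermediateField ℚ E) :=
  {F | ∀ S ∈ minimalSpaces E, killers (Gal E) (S : Set ((E →+* ℂ) → ℚ)) =
    killers (Gal E) (S₀ : Set ((E →+* ℂ) → ℚ)) → S ≤ resSpace F}

theorem top_mem_homeFields {E : Type*} [Field E] [NumberField E]
    (S₀ : Submodule ℚ ((E →+* ℂ) → ℚ)) : (⊤ : IntermediateField ℚ E) ∈ homeFields S₀ := by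
  intro S hS _ u hu
  refine ⟨hS.2.2.1 u hu, fun φ ψ h => ?_⟩
  rw [RingHom.ext fun x => h x IntermediateField.mem_top]

theorem finrank_even (E : Type*) [Field E] [NumberField E] [IsCMField E] :
    ∃ g, finrank ℚ E = 2 * g := by
  classical
  have h1 := card_transversal (X := E →+* ℂ) (c := ComplexEmbedding.conjugate (K := E))
    conj_conj (T := (exists_transversal conj_conj conj_ne).choose)
    (exists_transversal conj_conj conj_ne).choose_spec
  rw [Embeddings.card] at h1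
  exact ⟨_, h1⟩

/-- A home field has an embedding that is not real. -/
theorem exists_not_real {E : Type*} [Field E] [NumberField E]
    {S₀ : Submodule ℚ ((E →+* ℂ) → ℚ)} (hS₀ : S₀ ∈ minimalSpaces E) {F : IntermediateField ℚ E}
    (hF : S₀ ≤ resSpace F) : ∃ ψ : F →+* ℂ, ComplexEmbedding.conjugate ψ ≠ ψ := by
  by_contra hcon
  push Not at hcon
  apply hS₀.1
  rw [eq_bot_iff]
  intro u hu
  rw [Submodule.mem_bot]
  funext φ
  have h1 := (hF hu).1 φ
  have h2 := (hF hu).2 (ComplexEmbedding.conjugate φ) φ (fun x hx => by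
    have h3 := RingHom.congr_fun (hcon (φ.comp (algebraMap F E))) ⟨x, hx⟩
    exact h3)
  rw [h2] at h1
  rw [Pi.zero_apply]
  linarith

/-- In the smallest home field the space is faithful. -/
theorem faith_desc (hcorr : P_corr) (hdesc : P_desc) (E : Type) [Field E] [NumberField E]
    [IsCMField E] (F : IntermediateField ℚ E) [IsCMField F] {S₀ : Submodule ℚ ((E →+* ℂ) → ℚ)}
    (hS₀ : S₀ ∈ minimalSpaces E) (hF : F ∈ homeFields S₀)
    (hmin : ∀ F' ∈ homeFields S₀, F' ≤ F → F ≤ F') : Faith (Gal F) (desc F S₀) := by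
  classical
  have hS₀F : S₀ ≤ resSpace F := hF S₀ hS₀ rfl
  obtain ⟨h1, h2, h3, h4⟩ := hdesc E F S₀ hS₀ hS₀F
  by_contra hcon
  obtain ⟨F', hF', hle⟩ := exists_maximalCM hcorr F h1 hcon
  have hF'top : F' ≠ ⊤ := hF'.1.1
  have hmem : F'.map F.val ∈ homeFields S₀ := by
    intro S hS hK u hu
    have hSF : S ≤ resSpace F := hF S hS hK
    obtain ⟨k1, k2, k3, k4⟩ := hdesc E F S hS hSF
    have hK' : killers (Gal F) (desc F S : Set ((F →+* ℂ) → ℚ)) =
        killers (Gal F) (desc F S₀ : Set ((F →+* ℂ) → ℚ)) := (h4 S hS hSF hK.symm).symm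
    have hle' := hle (desc F S) k1 hK'
    refine ⟨hS.2.2.1 u hu, fun φ ψ hφψ => ?_⟩
    have h5 : u ∈ (desc F S).map (pull F) := by
      rw [k2]
      exact hu
    obtain ⟨v, hv, rfl⟩ := h5
    refine (hle' hv).2 (φ.comp (algebraMap F E)) (ψ.comp (algebraMap F E)) fun x hx => ?_
    exact hφψ (x : E) ⟨x, hx, rfl⟩
  have hle2 : F'.map F.val ≤ F := by
    rintro _ ⟨x, -, rfl⟩
    exact x.2
  have h5 := hmin _ hmem hle2
  apply hF'top
  rw [eq_top_iff]
  intro x _
  obtain ⟨y, hy, hyx⟩ := h5 x.2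
  have h6 : y = x := Subtype.ext hyx
  rw [← h6]
  exact hy

/-- The types of a class are counted by the product of the embeddings of the subfield with a
cyclic group. -/
theorem ncard_types_le_cntP (hdesc : P_desc) (hbij : P_bij) (hP : P_prod) (E : Type) [Field E]
    [NumberField E] [IsCMField E] (F : IntermediateField ℚ E) [IsCMField F] {g m n : ℕ} [NeZero m]
    (hgF : finrank ℚ F = 2 * g) (hgE : finrank ℚ E = 2 * (m * g)) (M : (E →+* ℂ) → ℤ)
    (hn0 : n ≠ 0) (hMn : ∀ φ, M φ ∣ (n : ℤ)) (hMc : ∀ φ, M (ComplexEmbedding.conjugate φ) = M φ)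
    {S₀ : Submodule ℚ ((E →+* ℂ) → ℚ)} (hS₀ : S₀ ∈ minimalSpaces E) (hF : F ∈ homeFields S₀)
    {c : Gal F} (hc : ∀ ψ : F →+* ℂ, c • ψ = ComplexEmbedding.conjugate ψ) (hcc : c * c = 1)
    (hcen : ∀ x, c * x = x * c) :
    ∃ M' : PX (F →+* ℂ) m → ℤ, PData (Gal F) (F →+* ℂ) m n g M' c ∧
    {Φ : Set (E →+* ℂ) | IsCMType Φ ∧ ∃ S ∈ minimalSpaces E, component S = component S₀ ∧
      OrthW M Φ S}.ncard ≤ cntP M' c (desc F S₀) := by
  classical
  obtain ⟨β, hβ1, hβ2⟩ := hbij E F g m hgF hgE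
  have hfun : (fun ψ : F →+* ℂ => c • ψ) = ComplexEmbedding.conjugate (K := F) := funext hc
  have hminF : ∀ S ∈ minimalSpaces F, S ∈ MinInv (Gal F) (fun ψ : F →+* ℂ => c • ψ) := by
    intro S hS
    rw [hfun]
    exact (minInv_iff S).2 hS
  obtain ⟨φ₀⟩ : Nonempty (F →+* ℂ) := inferInstance
  let τ : PX (F →+* ℂ) m ≃ (E →+* ℂ) := (PX.equiv (F →+* ℂ) m).trans β.symm
  have hτ1 : ∀ x, (τ x).comp (algebraMap F E) = x.fst := by
    intro x
    rw [← hβ1]
    change (β (β.symm (x.fst, x.snd))).1 = x.fst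
    rw [Equiv.apply_symm_apply]
  have hτ2 : ∀ x, τ (((c, 1) : Gal F × Multiplicative (ZMod m)) • x) =
      ComplexEmbedding.conjugate (τ x) := by
    intro x
    apply β.injective
    rw [hβ2, hτ1]
    change β (β.symm (c • x.fst, (1 : Multiplicative (ZMod m)).toAdd + x.snd)) =
      (ComplexEmbedding.conjugate x.fst, (β (β.symm (x.fst, x.snd))).2)
    rw [Equiv.apply_symm_apply, Equiv.apply_symm_apply, hc, toAdd_one, zero_add]
  refine ⟨fun x => M (τ x), ⟨hn0, fun x => hMn _, fun x => ?_, hcc, fun ψ => ?_, hcen, ?_⟩, ?_⟩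
  · rw [hτ2, hMc]
  · rw [hc]
    exact conj_ne ψ
  · rw [Embeddings.card, hgF]
  · unfold cntP
    refine Set.ncard_le_ncard_of_injOn (fun Φ x => sgn Φ (τ x)) ?_ ?_
      ((finite_oddSigns (X := PX (F →+* ℂ) m)
        (fun x => ((c, 1) : Gal F × Multiplicative (ZMod m)) • x)).subset fun f hf => hf.1)
    · rintro Φ ⟨hΦ, S, hS, hSW, hsum⟩
      have hK : killers (Gal E) (S : Set ((E →+* ℂ) → ℚ)) =
          killers (Gal E) (S₀ : Set ((E →+* ℂ) → ℚ)) := by
        have h3 : classKillers S = classKillers S₀ := by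
          rw [← classKillers_component hS, ← classKillers_component hS₀, hSW]
        exact h3
      have hSF : S ≤ resSpace F := hF S hS hK
      obtain ⟨k1, k2, k3, k4⟩ := hdesc E F S hS hSF
      have hK' := k4 S₀ hS₀ (hF S₀ hS₀ rfl) hK
      obtain ⟨h1, -, -, -⟩ := hdesc E F S₀ hS₀ (hF S₀ hS₀ rfl)
      obtain ⟨p1, p2, p3, p4, p5, p6⟩ := hP (Gal F) (F →+* ℂ) c m φ₀ (desc F S₀) (hminF _ h1)
      obtain ⟨q1, q2, q3, q4, q5, q6⟩ := hP (Gal F) (F →+* ℂ) c m φ₀ (desc F S) (hminF _ k1)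
      have hodd := oddSign_sgn hΦ
      refine ⟨⟨fun x => hodd.1 _, fun x => ?_⟩, liftPX m (desc F S), q2,
        p6 _ (hminF _ k1) hK', ?_⟩
      · change sgn Φ (τ _) = - sgn Φ (τ x)
        rw [hτ2]
        exact hodd.2 _
      · rintro v ⟨u, hu, hv⟩
        have h5 := hsum _ hu
        rw [← h5, ← Equiv.sum_comp τ]
        refine sum_congr rfl fun x _ => ?_
        rw [hv x]
        congr 1
        change u x.fst = u ((τ x).comp (algebraMap F E))
        rw [hτ1]
    · intro Φ _ Φ' _ h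
      apply sgn_injective
      funext φ
      have h1 := congrFun h (τ.symm φ)
      beta_reduce at h1
      rw [Equiv.apply_symm_apply] at h1
      exact h1

/-- The bound in terms of all CM subfields. -/
def P_field_bound2 : Prop :=
  ∃ C : ℝ, 0 ≤ C ∧ ∀ (E : Type) [Field E] [NumberField E] [IsCMField E] (M : (E →+* ℂ) → ℤ)
    (n g : ℕ), n ≠ 0 → (∀ φ, M φ ∣ (n : ℤ)) → (∀ φ, M (ComplexEmbedding.conjugate φ) = M φ) →
    finrank ℚ E = 2 * g →
    ((degTypes M).ncard : ℝ) ≤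
      2 ^ g * ((n : ℝ) ^ 2 / √g * (∑ᶠ F ∈ nearCM E, (finrank ℚ F : ℝ) / 2 +
        C * ∑ᶠ F ∈ farCM E, (finrank ℚ F : ℝ) ^ (3 / 10 : ℝ)))

theorem field_bound2 (hM : P_mult) (hK : P_key) (hFa : P_faith2) (hcorr : P_corr) (hdim : P_dim)
    (hcl : P_closure) (hcm : P_cm) (hbij : P_bij) (hdesc : P_desc) (hP : P_prod) :
    P_field_bound2 := by
  classical
  obtain ⟨C, hC0, hC⟩ := hFa
  refine ⟨C, hC0, ?_⟩
  intro E _ _ _ M n g hn0 hMn hMc hg
  obtain ⟨φ₀⟩ : Nonempty (E →+* ℂ) := inferInstance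
  obtain ⟨c, hc, hcc, hcen⟩ := exists_conj E
  have hfun : (fun φ : E →+* ℂ => c • φ) = ComplexEmbedding.conjugate (K := E) := funext hc
  have hmin : ∀ S ∈ minimalSpaces E, S ∈ MinInv (Gal E) (fun φ : E →+* ℂ => c • φ) := by
    intro S hS
    rw [hfun]
    exact (minInv_iff S).2 hS
  have hfree : ∀ φ : E →+* ℂ, c • φ ≠ φ := fun φ => by
    rw [hc]
    exact conj_ne φ
  have hMc' : ∀ φ : E →+* ℂ, M (c • φ) = M φ := fun φ => by rw [hc, hMc]
  have hcard : Fintype.card (E →+* ℂ) = 2 * g := by rw [Embeddings.card, hg]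
  have hg0 : 0 < g := by
    have := Module.finrank_pos (R := ℚ) (M := E)
    omega
  have hgR : (0 : ℝ) < g := by exact_mod_cast hg0
  have hsq : 0 < √(g : ℝ) := Real.sqrt_pos.2 hgR
  -- the components and the representatives
  have hfin := finite_components (E := E)
  have hrep : ∀ W : Submodule ℚ ((E →+* ℂ) → ℚ), ∃ S, W ∈ components E →
      S ∈ minimalSpaces E ∧ component S = W := by
    intro W
    by_cases hW : W ∈ components E
    · obtain ⟨S, hS, hSW⟩ := hW
      exact ⟨S, fun _ => ⟨hS, hSW⟩⟩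
    · exact ⟨⊥, fun h => absurd h hW⟩
  choose rep hrep using hrep
  set cnt : Submodule ℚ ((E →+* ℂ) → ℚ) → ℕ := fun W => {Φ : Set (E →+* ℂ) | IsCMType Φ ∧
      ∃ S ∈ minimalSpaces E, component S = W ∧ OrthW M Φ S}.ncard with hcnt
  have hcnt_le : ∀ W ∈ components E, cnt W ≤
      (orthClassW M c (killers (Gal E) ((rep W : Submodule ℚ ((E →+* ℂ) → ℚ)) :
        Set ((E →+* ℂ) → ℚ)))).ncard := by
    intro W hW
    have h4 := ncard_types_le M hc (hrep W hW).1
    rw [(hrep W hW).2] at h4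
    exact h4
  have hkne : ∀ W ∈ components E, ∀ W' ∈ components E, W ≠ W' →
      killers (Gal E) ((rep W : Submodule ℚ ((E →+* ℂ) → ℚ)) : Set ((E →+* ℂ) → ℚ)) ≠
      killers (Gal E) ((rep W' : Submodule ℚ ((E →+* ℂ) → ℚ)) : Set ((E →+* ℂ) → ℚ)) := by
    intro W hW W' hW' hne h
    apply hne
    rw [← (hrep W hW).2, ← (hrep W' hW').2]
    exact component_congr h
  -- the total number
  have htot : (degTypes M).ncard ≤ ∑ W ∈ hfin.toFinset, cnt W := by
    have h1 : degTypes M ⊆ ⋃ W ∈ hfin.toFinset, {Φ : Set (E →+* ℂ) | IsCMType Φ ∧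
        ∃ S ∈ minimalSpaces E, component S = W ∧ OrthW M Φ S} := by
      rintro Φ ⟨hΦ, S, hS, hmem⟩
      exact Set.mem_biUnion (hfin.mem_toFinset.2 ⟨S, hS, rfl⟩) ⟨hΦ, S, hS, rfl, hmem⟩
    refine (Set.ncard_le_ncard h1 (Set.toFinite _)).trans ?_
    exact Finset.set_ncard_biUnion_le _ _
  -- the smallest home fields
  have hhome : ∀ W : Submodule ℚ ((E →+* ℂ) → ℚ), ∃ F : IntermediateField ℚ E,
      W ∈ components E → F ∈ homeFields (rep W) ∧
        ∀ F' ∈ homeFields (rep W), F' ≤ F → F ≤ F' := by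
    intro W
    obtain ⟨F, -, hF⟩ := (Set.toFinite (homeFields (rep W))).exists_le_minimal
      (top_mem_homeFields (rep W))
    exact ⟨F, fun _ => ⟨hF.1, fun F' h h' => hF.2 h h'⟩⟩
  choose home hhome using hhome
  have hfinN : (nearCM E).Finite := Set.toFinite _
  have hfinF : (farCM E).Finite := Set.toFinite _
  have hnr : ∀ W ∈ components E, ∃ ψ : (home W) →+* ℂ, ComplexEmbedding.conjugate ψ ≠ ψ :=
    fun W hW => exists_not_real (hrep W hW).1 ((hhome W hW).1 _ (hrep W hW).1 rfl)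
  set A := hfin.toFinset.filter (fun W => home W ∈ farCM E) with hA
  set B := hfin.toFinset.filter (fun W => ¬ home W ∈ farCM E) with hB
  have hsplit : ∑ W ∈ hfin.toFinset, cnt W = ∑ W ∈ A, cnt W + ∑ W ∈ B, cnt W := by
    rw [hA, hB, sum_filter_add_sum_filter_not]
  have hAmem : ∀ W ∈ A, W ∈ components E ∧ home W ∈ farCM E := by
    intro W hW
    rw [hA, mem_filter, hfin.mem_toFinset] at hW
    exact hW
  have hBmem : ∀ W ∈ B, W ∈ components E ∧ home W ∈ nearCM E := by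
    intro W hW
    rw [hB, mem_filter, hfin.mem_toFinset] at hW
    refine ⟨hW.1, hnr W hW.1, ?_⟩
    by_contra hcon
    exact hW.2 ⟨hnr W hW.1, not_le.1 hcon⟩
  -- the orthogonal families
  have hfam : ∀ W : Submodule ℚ ((E →+* ℂ) → ℚ), ∃ F : Finset (Submodule ℚ ((E →+* ℂ) → ℚ)),
      W ∈ components E →
      (∀ S' ∈ F, S' ∈ MinInv (Gal E) (fun φ : E →+* ℂ => c • φ) ∧
        killers (Gal E) (S' : Set ((E →+* ℂ) → ℚ)) =
          killers (Gal E) ((rep W : Submodule ℚ ((E →+* ℂ) → ℚ)) : Set ((E →+* ℂ) → ℚ)) ∧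
        finrank ℚ S' = finrank ℚ (rep W)) ∧
      (∀ S' ∈ F, ∀ S'' ∈ F, S' ≠ S'' → S'' ≤ (dot (E →+* ℂ)).orthogonal S') ∧
      finrank ℚ (fixedPart (Gal E) φ₀ (rep W)) ≤ edim (Gal E) (rep W) * F.card := by
    intro W
    by_cases hW : W ∈ components E
    · obtain ⟨F, hF⟩ := hM (Gal E) (E →+* ℂ) c hcc hfree hcen (rep W)
        (hmin _ (hrep W hW).1) φ₀
      exact ⟨F, fun _ => hF⟩
    · exact ⟨∅, fun h => absurd h hW⟩
  choose fam hfam using hfam
  -- dimensions for one field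
  have hdimF : ∀ (B' : Finset (Submodule ℚ ((E →+* ℂ) → ℚ))) (F : IntermediateField ℚ E)
      (fm : Submodule ℚ ((E →+* ℂ) → ℚ) → Finset (Submodule ℚ ((E →+* ℂ) → ℚ))),
      (∀ W ∈ B', W ∈ components E ∧ home W = F) →
      (∀ W ∈ B', ∀ S ∈ fm W, S ∈ minimalSpaces E ∧
        killers (Gal E) (S : Set ((E →+* ℂ) → ℚ)) =
          killers (Gal E) ((rep W : Submodule ℚ ((E →+* ℂ) → ℚ)) : Set ((E →+* ℂ) → ℚ))) →
      (∀ W ∈ B', ∀ S ∈ fm W, ∀ S' ∈ fm W, S ≠ S' → S' ≤ (dot (E →+* ℂ)).orthogonal S) →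
      2 * ∑ W ∈ B', ∑ S ∈ fm W, finrank ℚ S ≤ finrank ℚ F := by
    intro B' F fm hB' hfm hfm'
    have h6 := sum_sum_finrank_le (V := resSpace F) B' fm ?_ ?_ ?_ ?_
    · have h7 := hdim E F (resSpace F) (fun s hs φ => hs.1 φ) (fun u hu φ ψ h => hu.2 φ ψ h)
      omega
    · intro W hW S hS
      obtain ⟨hW1, hW2⟩ := hB' W hW
      rw [← hW2]
      exact (hhome W hW1).1 S (hfm W hW S hS).1 (hfm W hW S hS).2
    · intro W hW S hS
      exact (hfm W hW S hS).1.1
    · exact hfm'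
    · intro W hW W' hW' hne S hS S' hS'
      have h7 := hfm W hW S hS
      have h8 := hfm W' hW' S' hS'
      refine orth_of_killers_ne (hmin _ h7.1) (hmin _ h8.1) ?_
      rw [h7.2, h8.2]
      exact hkne W (hB' W hW).1 W' (hB' W' hW').1 hne
  -- the components from far fields
  have hfarcount : ∀ W ∈ A, (cnt W : ℝ) ≤ 2 ^ g * ((n : ℝ) ^ 2 / √g *
      (C * (((finrank ℚ (home W) : ℝ) ^ (3 / 10 : ℝ)) *
        (2 * finrank ℚ (rep W) / finrank ℚ (home W))))) := by
    intro W hW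
    obtain ⟨hWc, hWf⟩ := hAmem W hW
    obtain ⟨hrepW, hrepW'⟩ := hrep W hWc
    obtain ⟨hh1, hh2⟩ := hhome W hWc
    have hcmF : IsCMField (home W) := hcm E (home W) (hnr W hWc)
    obtain ⟨gF, hgF⟩ := finrank_even (home W)
    have hmul : finrank ℚ (home W) * finrank (home W) E = finrank ℚ E :=
      finrank_mul_finrank ℚ (home W) E
    set m := finrank (home W) E with hm
    have hm0 : m ≠ 0 := by
      rintro h0
      rw [h0, mul_zero, hg] at hmul
      omega
    have : NeZero m := ⟨hm0⟩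
    have hgm : g = m * gF := by
      rw [hgF, hg] at hmul
      have : 2 * (m * gF) = 2 * g := by rw [← hmul]; ring
      omega
    have hgF0 : 0 < gF := by
      rcases Nat.eq_zero_or_pos gF with h0 | h0
      · rw [h0, mul_zero] at hgm
        omega
      · exact h0
    obtain ⟨cF, hcF, hccF, hcenF⟩ := exists_conj (home W)
    obtain ⟨M', D, hle⟩ := ncard_types_le_cntP hdesc hbij hP E (home W) (m := m) hgF
      (by rw [hg, hgm]) M hn0 hMn hMc hrepW hh1 hcF hccF hcenF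
    rw [hrepW'] at hle
    obtain ⟨k1, k2, k3, k4⟩ := hdesc E (home W) (rep W) hrepW (hh1 _ hrepW rfl)
    have hfunF : (fun ψ : (home W) →+* ℂ => cF • ψ) =
        ComplexEmbedding.conjugate (K := home W) := funext hcF
    have hminW : desc (home W) (rep W) ∈
        MinInv (Gal (home W)) (fun ψ : (home W) →+* ℂ => cF • ψ) := by
      rw [hfunF]
      exact (minInv_iff _).2 k1
    obtain ⟨ψ₀⟩ : Nonempty ((home W) →+* ℂ) := inferInstance
    have hfaith := faith_desc hcorr hdesc E (home W) hrepW hh1 hh2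
    have hstab : 3 ≤ Nat.card (MulAction.stabilizer (Gal (home W)) ψ₀) := by
      obtain ⟨h4, h5⟩ := hcl (home W) ψ₀
      have h6 := hWf.2
      rw [← h4, h5, hgF] at h6
      have h7 : 2 < Nat.card (MulAction.stabilizer (Gal (home W)) ψ₀) :=
        Nat.lt_of_mul_lt_mul_right h6
      omega
    have h8 := hC (Gal (home W)) ((home W) →+* ℂ) m n gF M' cF D _ hminW ψ₀ hfaith hstab
    have h9 : (cnt W : ℝ) ≤ (cntP M' cF (desc (home W) (rep W)) : ℝ) := Nat.cast_le.2 hle
    refine h9.trans (h8.trans ?_)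
    rw [k3, ← hgm]
    refine mul_le_mul_of_nonneg_left ?_ (by positivity)
    have hmg : ((m : ℝ) * gF) = g := by
      rw [hgm]
      push_cast
      ring
    rw [hmg, hgF]
    have hgFR : (0 : ℝ) < gF := by exact_mod_cast hgF0
    have h10 : (gF : ℝ) ^ (3 / 10 : ℝ) ≤ ((2 * gF : ℕ) : ℝ) ^ (3 / 10 : ℝ) := by
      refine Real.rpow_le_rpow hgFR.le ?_ (by norm_num)
      push_cast
      linarith
    have h11 : (2 * (finrank ℚ (rep W) : ℝ) / ((2 * gF : ℕ) : ℝ)) =
        (finrank ℚ (rep W) : ℝ) / gF := by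
      push_cast
      field_simp
    rw [h11]
    calc C * (n : ℝ) ^ 2 * (finrank ℚ (rep W) / gF) * ((gF : ℝ) ^ (3 / 10 : ℝ) / √g) ≤
        C * (n : ℝ) ^ 2 * (finrank ℚ (rep W) / gF) *
          (((2 * gF : ℕ) : ℝ) ^ (3 / 10 : ℝ) / √g) := by gcongr
      _ = _ := by ring
  have hsumA : ((∑ W ∈ A, cnt W : ℕ) : ℝ) ≤ 2 ^ g * ((n : ℝ) ^ 2 / √g *
      (C * ∑ᶠ F ∈ farCM E, (finrank ℚ F : ℝ) ^ (3 / 10 : ℝ))) := by
    rw [Nat.cast_sum]
    refine (sum_le_sum hfarcount).trans ?_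
    rw [← mul_sum, ← mul_sum, ← mul_sum]
    refine mul_le_mul_of_nonneg_left ?_ (by positivity)
    refine mul_le_mul_of_nonneg_left ?_ (by positivity)
    refine mul_le_mul_of_nonneg_left ?_ hC0
    rw [finsum_mem_eq_finite_toFinset_sum _ hfinF]
    rw [← sum_fiberwise_of_maps_to (s := A) (t := hfinF.toFinset) (g := home)
      (fun W hW => hfinF.mem_toFinset.2 (hAmem W hW).2)]
    refine sum_le_sum fun F hF => ?_
    have hF' : F ∈ farCM E := hfinF.mem_toFinset.1 hF
    have hcmF : IsCMField F := hcm E F hF'.1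
    obtain ⟨gF, hgF⟩ := finrank_even F
    have hFpos : 0 < finrank ℚ F := Module.finrank_pos
    have hFR : (0 : ℝ) < finrank ℚ F := by exact_mod_cast hFpos
    have h4 : ∀ W ∈ A.filter (fun W => home W = F),
        ((finrank ℚ (home W) : ℝ) ^ (3 / 10 : ℝ)) *
          (2 * finrank ℚ (rep W) / finrank ℚ (home W)) =
        (finrank ℚ F : ℝ) ^ (3 / 10 : ℝ) * (2 * finrank ℚ (rep W) / finrank ℚ F) := by
      intro W hW
      rw [(mem_filter.1 hW).2]
    rw [sum_congr rfl h4, ← mul_sum, ← sum_div, ← mul_sum]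
    refine mul_le_of_le_one_right (by positivity) ?_
    rw [div_le_one hFR]
    have h5 := hdimF (A.filter (fun W => home W = F)) F (fun W => {rep W})
      (fun W hW => ⟨(hAmem W (mem_filter.1 hW).1).1, (mem_filter.1 hW).2⟩)
      (fun W hW S hS => by
        rw [mem_singleton] at hS
        rw [hS]
        exact ⟨(hrep W (hAmem W (mem_filter.1 hW).1).1).1, rfl⟩)
      (fun W hW S hS S' hS' hne => by
        rw [mem_singleton] at hS hS'
        exact absurd (hS.trans hS'.symm) hne)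
    simp only [sum_singleton] at h5
    exact_mod_cast h5
  -- the components from near fields
  have hBcount : ∀ W ∈ B, (cnt W : ℝ) ≤ 2 ^ g * ((n : ℝ) ^ 2 / √g *
      ((∑ S ∈ fam W, finrank ℚ S : ℕ) : ℝ)) := by
    intro W hW
    obtain ⟨hWc, hWf⟩ := hBmem W hW
    obtain ⟨h4, h5, h6⟩ := hfam W hWc
    have h7 : ∑ S ∈ fam W, finrank ℚ S = (fam W).card * finrank ℚ (rep W) := by
      rw [sum_congr rfl fun S hS => (h4 S hS).2.2, sum_const, smul_eq_mul]
    have h8 := hK (Gal E) (E →+* ℂ) M n (fun x => abs_le_of_dvd hn0 (hMn x)) c hMc' hcc hfree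
      hcen g hcard (rep W) (hmin _ (hrep W hWc).1) φ₀
    set N := ((orthClassW M c (killers (Gal E) ((rep W : Submodule ℚ ((E →+* ℂ) → ℚ)) :
        Set ((E →+* ℂ) → ℚ)))).ncard : ℝ) with hN
    set e := edim (Gal E) (rep W) with he
    set h := finrank ℚ (fixedPart (Gal E) φ₀ (rep W)) with hh
    set d := finrank ℚ (rep W) with hd
    have he1 : 1 ≤ e := edim_pos (hrep W hWc).1.1
    have heR : (1 : ℝ) ≤ e := by exact_mod_cast he1
    have h9 : (cnt W : ℝ) ≤ N := Nat.cast_le.2 (hcnt_le W hWc)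
    refine h9.trans ?_
    rw [h7, Nat.cast_mul]
    have h6' : (h : ℝ) ≤ e * (fam W).card := by exact_mod_cast h6
    have h10 : N * (e : ℝ) * (e * √g) ≤ 2 ^ g * (n : ℝ) ^ 2 * (fam W).card * d * (e * 1) := by
      calc N * (e : ℝ) * (e * √g) = N * (e : ℝ) ^ 2 * √g := by ring
        _ ≤ 2 ^ g * (n : ℝ) ^ 2 * h * d := h8
        _ ≤ 2 ^ g * (n : ℝ) ^ 2 * (e * (fam W).card) * d := by gcongr
        _ = _ := by ring
    have hN0 : 0 ≤ N := Nat.cast_nonneg _
    have h11 : N * √g ≤ 2 ^ g * (n : ℝ) ^ 2 * (fam W).card * d := by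
      have h12 : N * √g * e ≤ 2 ^ g * (n : ℝ) ^ 2 * (fam W).card * d * e := by
        calc N * √g * e ≤ N * √g * e * e := le_mul_of_one_le_right (by positivity) heR
          _ = N * (e : ℝ) * (e * √g) := by ring
          _ ≤ _ := h10
          _ = _ := by ring
      exact le_of_mul_le_mul_right h12 (by linarith)
    rw [← le_div_iff₀ hsq] at h11
    refine h11.trans (le_of_eq ?_)
    ring
  have hsumB : ((∑ W ∈ B, cnt W : ℕ) : ℝ) ≤ 2 ^ g * ((n : ℝ) ^ 2 / √g *
      ∑ᶠ F ∈ nearCM E, (finrank ℚ F : ℝ) / 2) := by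
    rw [Nat.cast_sum]
    refine (sum_le_sum hBcount).trans ?_
    rw [← mul_sum, ← mul_sum]
    refine mul_le_mul_of_nonneg_left ?_ (by positivity)
    refine mul_le_mul_of_nonneg_left ?_ (by positivity)
    rw [finsum_mem_eq_finite_toFinset_sum _ hfinN]
    rw [← sum_fiberwise_of_maps_to (s := B) (t := hfinN.toFinset) (g := home)
      (fun W hW => hfinN.mem_toFinset.2 (hBmem W hW).2)]
    refine sum_le_sum fun F hF => ?_
    have h5 := hdimF (B.filter (fun W => home W = F)) F fam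
      (fun W hW => ⟨(hBmem W (mem_filter.1 hW).1).1, (mem_filter.1 hW).2⟩)
      (fun W hW S hS => by
        have h6 := (hfam W (hBmem W (mem_filter.1 hW).1).1).1 S hS
        refine ⟨(minInv_iff S).1 ?_, h6.2.1⟩
        rw [← hfun]
        exact h6.1)
      (fun W hW => (hfam W (hBmem W (mem_filter.1 hW).1).1).2.1)
    rw [← Nat.cast_sum, le_div_iff₀ two_pos, mul_comm]
    exact_mod_cast h5
  have h4 : ((degTypes M).ncard : ℝ) ≤ ((∑ W ∈ A, cnt W : ℕ) : ℝ) + ((∑ W ∈ B, cnt W : ℕ) : ℝ) := by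
    rw [← Nat.cast_add, ← hsplit]
    exact_mod_cast htot
  refine h4.trans ((add_le_add hsumA hsumB).trans (le_of_eq ?_))
  ring

end Pool.Agent.Y1.KN
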