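import Mathlib
import Pool.Agent.Y1.KN.Stm4

/-!
# The classes of spaces that come from a subfield
-/

namespace Pool.Agent.Y1.KN

open Finset Module Pool.Agent.TH170.MF Pool.Agent.TH170.QC Pool.Agent.TH170.QE Pool.Agent.TH170.FW
  NumberField Pool.Agent.H204R3.CM

/-- Spaces that are isomorphic on the subfield are isomorphic. -/
def P_desc2 : Prop :=
  ∀ (E : Type) [Field E] [NumberField E] [IsCMField E] (F : IntermediateField ℚ E) [IsCMField F]
    (S S' : Submodule ℚ ((E →+* ℂ) → ℚ)), S ∈ minimalSpaces E → S' ∈ minimalSpaces E →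
    S ≤ resSpace F → S' ≤ resSpace F →
    killers (Gal F) (desc F S : Set ((F →+* ℂ) → ℚ)) =
      killers (Gal F) (desc F S' : Set ((F →+* ℂ) → ℚ)) →
    killers (Gal E) (S : Set ((E →+* ℂ) → ℚ)) = killers (Gal E) (S' : Set ((E →+* ℂ) → ℚ))

end Pool.Agent.Y1.KN
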