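import Mathlib
import Pool.Agent.Y1.KN.Faith3
import Pool.Agent.Y1.KN.Field2
import Pool.Agent.Y1.KN.Stm6

/-!
# The number of the degenerate types of a CM field, in terms of the fields of definition
-/

set_option linter.unusedSectionVars false
set_option linter.unusedVariables false

namespace Pool.Agent.Y1.KN

open NumberField Finset Module Pool.Agent.H204R3.CM Pool.Agent.TH170.MF Pool.Agent.TH170.QC
  Pool.Agent.TH170.QE Pool.Agent.TH170.FW Pool.Agent.TH170.CM Pool.Agent.TH170.GC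

/-- The smallest home fields of the minimal spaces. -/
def defFields (E : Type*) [Field E] [NumberField E] : Set (IntermediateField ℚ E) :=
  {F | ∃ S ∈ minimalSpaces E, F ∈ homeFields S ∧ ∀ F' ∈ homeFields S, F' ≤ F → F ≤ F'}

/-- The field has a minimal space that does not come from a smaller field, with a codimension at
most two, and it has a large proper CM subfield. -/
def IsBad (F : Type*) [Field F] [NumberField F] : Prop :=
  (∃ S ∈ minimalSpaces F, (∀ F' ∈ homeFields S, F' = ⊤) ∧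
    ∃ ψ : F →+* ℂ, edim (Gal F) S + codimFix (Gal F) ψ S ≤ 2) ∧
  ∃ F' : IntermediateField ℚ F, IsProperCM F F' ∧ finrank ℚ F ≤ finrank ℚ F' ^ 2

/-- In the smallest home field the space does not come from a smaller field. -/
theorem home_desc (hdesc : P_desc) (E : Type) [Field E] [NumberField E]
    [IsCMField E] (F : IntermediateField ℚ E) [IsCMField F] {S₀ : Submodule ℚ ((E →+* ℂ) → ℚ)}
    (hS₀ : S₀ ∈ minimalSpaces E) (hF : F ∈ homeFields S₀)
    (hmin : ∀ F' ∈ homeFields S₀, F' ≤ F → F ≤ F') :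
    ∀ F' ∈ homeFields (desc F S₀), F' = ⊤ := by
  classical
  have hS₀F : S₀ ≤ resSpace F := hF S₀ hS₀ rfl
  obtain ⟨h1, h2, h3, h4⟩ := hdesc E F S₀ hS₀ hS₀F
  intro F' hle
  have hmem : F'.map F.val ∈ homeFields S₀ := by
    intro S hS hK u hu
    have hSF : S ≤ resSpace F := hF S hS hK
    obtain ⟨k1, k2, k3, k4⟩ := hdesc E F S hS hSF
    have hK' : killers (Gal F) (desc F S : Set ((F →+* ℂ) → ℚ)) =
        killers (Gal F) (desc F S₀ : Set ((F →+* ℂ) → ℚ)) := (h4 S hS hSF hK.symm).symm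
    have hle' := hle (desc F S) k1 hK'
    refine ⟨hS.2.2.1 u hu, fun φ ψ hφψ => ?_⟩
    have h5 : u ∈ (desc F S).map (pull F) := by
      rw [k2]
      exact hu
    obtain ⟨v, hv, rfl⟩ := h5
    refine (hle' hv).2 (φ.comp (algebraMap F E)) (ψ.comp (algebraMap F E)) fun x hx => ?_
    exact hφψ (x : E) ⟨x, hx, rfl⟩
  have hle2 : F'.map F.val ≤ F := by
    rintro _ ⟨x, -, rfl⟩
    exact x.2
  have h5 := hmin _ hmem hle2
  rw [eq_top_iff]
  intro x _
  obtain ⟨y, hy, hyx⟩ := h5 x.2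
  have h6 : y = x := Subtype.ext hyx
  rw [← h6]
  exact hy

/-- The condition on the subgroups, for a field without large proper CM subfields. -/
theorem star_of_field (hfield : P_field) (hcm : P_cm) (F : Type) [Field F] [NumberField F]
    [IsCMField F] {g : ℕ} (hg : finrank ℚ F = 2 * g) (ψ : F →+* ℂ) (c : Gal F)
    (hc : ∀ φ : F →+* ℂ, c • φ = ComplexEmbedding.conjugate φ)
    (hF : ∀ F' : IntermediateField ℚ F, IsProperCM F F' → finrank ℚ F' ^ 2 < finrank ℚ F) :
    Star (Gal F) c ψ g := by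
  classical
  have hg0 : 0 < g := by
    have := Module.finrank_pos (R := ℚ) (M := F)
    omega
  intro H' hle hne hcH
  have h1 := hfield F ψ c (Nat.sqrt (2 * g - 1) / 2) hc (fun F' hF' hψ => by
    have hcmF : IsCMField F' := hcm F F' hψ
    obtain ⟨b, hb⟩ := finrank_even F'
    have h2 := hF F' ⟨hF', hψ⟩
    rw [hb, hg] at h2
    rw [hb]
    have h3 : 2 * b ≤ Nat.sqrt (2 * g - 1) := by
      rw [Nat.le_sqrt']
      omega
    omega) H' hle hne hcH
  have h2 : H'.index ≤ Nat.sqrt (2 * g - 1) := by omega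
  have h3 := Nat.sqrt_le' (2 * g - 1)
  have h4 : H'.index ^ 2 ≤ Nat.sqrt (2 * g - 1) ^ 2 := Nat.pow_le_pow_left h2 2
  omega

/-- The types of a class are counted by the product of the embeddings of the subfield with a
cyclic group. -/
theorem ncard_types_le_cntO (hdesc : P_desc) (hbij : P_bij) (E : Type) [Field E]
    [NumberField E] [IsCMField E] (F : IntermediateField ℚ E) [IsCMField F] {g m n : ℕ} [NeZero m]
    (hgF : finrank ℚ F = 2 * g) (hgE : finrank ℚ E = 2 * (m * g)) (M : (E →+* ℂ) → ℤ)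
    (hn0 : n ≠ 0) (hMn : ∀ φ, M φ ∣ (n : ℤ)) (hMc : ∀ φ, M (ComplexEmbedding.conjugate φ) = M φ)
    {S₀ : Submodule ℚ ((E →+* ℂ) → ℚ)} (hS₀ : S₀ ∈ minimalSpaces E) (hF : F ∈ homeFields S₀)
    {c : Gal F} (hc : ∀ ψ : F →+* ℂ, c • ψ = ComplexEmbedding.conjugate ψ) (hcc : c * c = 1)
    (hcen : ∀ x, c * x = x * c) :
    ∃ M' : PX (F →+* ℂ) m → ℤ, PData (Gal F) (F →+* ℂ) m n g M' c ∧
    {Φ : Set (E →+* ℂ) | IsCMType Φ ∧ ∃ S ∈ minimalSpaces E, component S = component S₀ ∧
      OrthW M Φ S}.ncard ≤ cntO M' c (desc F S₀) := by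
  classical
  obtain ⟨β, hβ1, hβ2⟩ := hbij E F g m hgF hgE
  have hfun : (fun ψ : F →+* ℂ => c • ψ) = ComplexEmbedding.conjugate (K := F) := funext hc
  have hminF : ∀ S ∈ minimalSpaces F, S ∈ MinInv (Gal F) (fun ψ : F →+* ℂ => c • ψ) := by
    intro S hS
    rw [hfun]
    exact (minInv_iff S).2 hS
  let τ : PX (F →+* ℂ) m ≃ (E →+* ℂ) := (PX.equiv (F →+* ℂ) m).trans β.symm
  have hτ1 : ∀ x, (τ x).comp (algebraMap F E) = x.fst := by
    intro x
    rw [← hβ1]
    change (β (β.symm (x.fst, x.snd))).1 = x.fst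
    rw [Equiv.apply_symm_apply]
  have hτ2 : ∀ x, τ (((c, 1) : Gal F × Multiplicative (ZMod m)) • x) =
      ComplexEmbedding.conjugate (τ x) := by
    intro x
    apply β.injective
    rw [hβ2, hτ1]
    change β (β.symm (c • x.fst, (1 : Multiplicative (ZMod m)).toAdd + x.snd)) =
      (ComplexEmbedding.conjugate x.fst, (β (β.symm (x.fst, x.snd))).2)
    rw [Equiv.apply_symm_apply, Equiv.apply_symm_apply, hc, toAdd_one, zero_add]
  refine ⟨fun x => M (τ x), ⟨hn0, fun x => hMn _, fun x => ?_, hcc, fun ψ => ?_, hcen, ?_⟩, ?_⟩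
  · rw [hτ2, hMc]
  · rw [hc]
    exact conj_ne ψ
  · rw [Embeddings.card, hgF]
  · unfold cntO
    refine Set.ncard_le_ncard_of_injOn (fun Φ x => sgn Φ (τ x)) ?_ ?_
      ((finite_oddSigns (X := PX (F →+* ℂ) m)
        (fun x => ((c, 1) : Gal F × Multiplicative (ZMod m)) • x)).subset fun f hf => hf.1)
    · rintro Φ ⟨hΦ, S, hS, hSW, hsum⟩
      have hK : killers (Gal E) (S : Set ((E →+* ℂ) → ℚ)) =
          killers (Gal E) (S₀ : Set ((E →+* ℂ) → ℚ)) := by
        have h3 : classKillers S = classKillers S₀ := by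
          rw [← classKillers_component hS, ← classKillers_component hS₀, hSW]
        exact h3
      have hSF : S ≤ resSpace F := hF S hS hK
      obtain ⟨k1, k2, k3, k4⟩ := hdesc E F S hS hSF
      have hK' := k4 S₀ hS₀ (hF S₀ hS₀ rfl) hK
      have hodd := oddSign_sgn hΦ
      refine ⟨⟨fun x => hodd.1 _, fun x => ?_⟩, desc F S, hminF _ k1, hK', ?_⟩
      · change sgn Φ (τ _) = - sgn Φ (τ x)
        rw [hτ2]
        exact hodd.2 _
      · intro u hu
        have h5 := hsum _ hu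
        rw [← h5, ← Equiv.sum_comp τ]
        refine sum_congr rfl fun x _ => ?_
        congr 1
        change u x.fst = u ((τ x).comp (algebraMap F E))
        rw [hτ1]
    · intro Φ _ Φ' _ h
      apply sgn_injective
      funext φ
      have h1 := congrFun h (τ.symm φ)
      beta_reduce at h1
      rw [Equiv.apply_symm_apply] at h1
      exact h1

/-- The contribution of one good field. -/
theorem good_part (hM : P_mult) {C : ℝ} (hC0 : 0 ≤ C)
    (hC : ∀ (G X : Type) [Group G] [Fintype G] [MulAction G X] [Fintype X]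
      [DecidableEq X] [MulAction.IsPretransitive G X] (m n g : ℕ) [NeZero m] (M : PX X m → ℤ)
      (c : G), PData G X m n g M c → ∀ S ∈ MinInv G (fun x : X => c • x), ∀ x₀ : X, Faith G S →
      (3 ≤ edim G S + codimFix G x₀ S ∨ Star G c x₀ g) →
      (cntO M c S : ℝ) ≤
        2 ^ (m * g) * (C * (n : ℝ) ^ 2 *
          (finrank ℚ (fixedPart G x₀ S) * finrank ℚ S / (edim G S * g)) *
            ((1 + Real.log g) ^ 16 / √(m * g))))
    (hcorr : P_corr) (hdim : P_dim) (hfield : P_field) (hcm : P_cm) (hbij : P_bij)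
    (hdesc : P_desc) (hdesc2 : P_desc2) (E : Type) [Field E] [NumberField E] [IsCMField E]
    (F : IntermediateField ℚ E) [IsCMField F] (hgood : ¬ IsBad F) {g m n : ℕ} [NeZero m]
    (hgF : finrank ℚ F = 2 * g) (hgE : finrank ℚ E = 2 * (m * g)) (M : (E →+* ℂ) → ℤ)
    (hn0 : n ≠ 0) (hMn : ∀ φ, M φ ∣ (n : ℤ)) (hMc : ∀ φ, M (ComplexEmbedding.conjugate φ) = M φ)
    {ι : Type*} (Ws : Finset ι) (rep : ι → Submodule ℚ ((E →+* ℂ) → ℚ))
    (hrep : ∀ W ∈ Ws, rep W ∈ minimalSpaces E)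
    (hhome : ∀ W ∈ Ws, F ∈ homeFields (rep W) ∧ ∀ F' ∈ homeFields (rep W), F' ≤ F → F ≤ F')
    (hne : ∀ W ∈ Ws, ∀ W' ∈ Ws, W ≠ W' →
      killers (Gal E) (rep W : Set ((E →+* ℂ) → ℚ)) ≠
        killers (Gal E) (rep W' : Set ((E →+* ℂ) → ℚ))) :
    ((∑ W ∈ Ws, {Φ : Set (E →+* ℂ) | IsCMType Φ ∧ ∃ S ∈ minimalSpaces E,
      component S = component (rep W) ∧ OrthW M Φ S}.ncard : ℕ) : ℝ) ≤
      2 ^ (m * g) * (C * (n : ℝ) ^ 2 * ((1 + Real.log g) ^ 16 / √(m * g))) := by
  classical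
  obtain ⟨c, hc, hcc, hcen⟩ := exists_conj F
  obtain ⟨ψ⟩ : Nonempty (F →+* ℂ) := inferInstance
  have hg0 : 0 < g := by
    have := Module.finrank_pos (R := ℚ) (M := F)
    omega
  have hgR : (0 : ℝ) < g := by exact_mod_cast hg0
  have hg1 : (1 : ℝ) ≤ g := by exact_mod_cast hg0
  have hlog : 0 ≤ Real.log g := Real.log_nonneg hg1
  have hfun : (fun ψ : F →+* ℂ => c • ψ) = ComplexEmbedding.conjugate (K := F) := funext hc
  have hminF : ∀ S ∈ minimalSpaces F, S ∈ MinInv (Gal F) (fun ψ : F →+* ℂ => c • ψ) := by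
    intro S hS
    rw [hfun]
    exact (minInv_iff S).2 hS
  have hfree : ∀ φ : F →+* ℂ, c • φ ≠ φ := fun φ => by
    rw [hc]
    exact conj_ne φ
  have hcard : Fintype.card (F →+* ℂ) = 2 * g := by rw [Embeddings.card, hgF]
  have hd : ∀ W ∈ Ws, desc F (rep W) ∈ minimalSpaces F := fun W hW =>
    (hdesc E F (rep W) (hrep W hW) ((hhome W hW).1 _ (hrep W hW) rfl)).1
  -- the families
  have hfam : ∀ W : ι, ∃ Fm : Finset (Submodule ℚ ((F →+* ℂ) → ℚ)), W ∈ Ws →
      (∀ S' ∈ Fm, S' ∈ MinInv (Gal F) (fun φ : F →+* ℂ => c • φ) ∧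
        killers (Gal F) (S' : Set ((F →+* ℂ) → ℚ)) =
          killers (Gal F) (desc F (rep W) : Set ((F →+* ℂ) → ℚ)) ∧
        finrank ℚ S' = finrank ℚ (desc F (rep W))) ∧
      (∀ S' ∈ Fm, ∀ S'' ∈ Fm, S' ≠ S'' → S'' ≤ (dot (F →+* ℂ)).orthogonal S') ∧
      finrank ℚ (fixedPart (Gal F) ψ (desc F (rep W))) ≤
        edim (Gal F) (desc F (rep W)) * Fm.card := by
    intro W
    by_cases hW : W ∈ Ws
    · obtain ⟨Fm, hFm⟩ := hM (Gal F) (F →+* ℂ) c hcc hfree hcen (desc F (rep W))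
        (hminF _ (hd W hW)) ψ
      exact ⟨Fm, fun _ => hFm⟩
    · exact ⟨∅, fun h => absurd h hW⟩
  choose fam hfam using hfam
  have hsum : ∑ W ∈ Ws, ∑ S ∈ fam W, finrank ℚ S ≤ g := by
    have h6 := sum_sum_finrank_le (V := resSpace (⊤ : IntermediateField ℚ F)) Ws fam ?_ ?_ ?_ ?_
    · have h7 := hdim F ⊤ (resSpace ⊤) (fun s hs φ => hs.1 φ) (fun u hu φ ψ h => hu.2 φ ψ h)
      have h8 : finrank ℚ (⊤ : IntermediateField ℚ F) = 2 * g := by
        rw [IntermediateField.finrank_top', hgF]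
      omega
    · intro W hW S hS u hu
      have h7 := ((hfam W hW).1 S hS).1
      rw [hfun] at h7
      have h8 := (minInv_iff S).1 h7
      refine ⟨h8.2.2.1 u hu, fun φ ψ h => ?_⟩
      rw [RingHom.ext fun x => h x IntermediateField.mem_top]
    · intro W hW S hS
      exact ((hfam W hW).1 S hS).1.1
    · intro W hW
      exact (hfam W hW).2.1
    · intro W hW W' hW' hWW S hS S' hS'
      have h7 := (hfam W hW).1 S hS
      have h8 := (hfam W' hW').1 S' hS'
      refine orth_of_killers_ne h7.1 h8.1 ?_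
      rw [h7.2.1, h8.2.1]
      intro heq
      exact hne W hW W' hW' hWW (hdesc2 E F (rep W) (rep W') (hrep W hW) (hrep W' hW')
        ((hhome W hW).1 _ (hrep W hW) rfl) ((hhome W' hW').1 _ (hrep W' hW') rfl) heq)
  -- the bound for one class
  have hone : ∀ W ∈ Ws, (({Φ : Set (E →+* ℂ) | IsCMType Φ ∧ ∃ S ∈ minimalSpaces E,
      component S = component (rep W) ∧ OrthW M Φ S}.ncard : ℕ) : ℝ) ≤
      2 ^ (m * g) * (C * (n : ℝ) ^ 2 * ((1 + Real.log g) ^ 16 / √(m * g))) *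
        (((∑ S ∈ fam W, finrank ℚ S : ℕ) : ℝ) / g) := by
    intro W hW
    obtain ⟨M', D, hle⟩ := ncard_types_le_cntO hdesc hbij E F hgF hgE M hn0 hMn hMc (hrep W hW)
      (hhome W hW).1 hc hcc hcen
    have hfaith := faith_desc hcorr hdesc E F (hrep W hW) (hhome W hW).1 (hhome W hW).2
    have hor : 3 ≤ edim (Gal F) (desc F (rep W)) + codimFix (Gal F) ψ (desc F (rep W)) ∨
        Star (Gal F) c ψ g := by
      by_contra hcon
      push Not at hcon
      obtain ⟨h1, h2⟩ := hcon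
      apply h2
      apply star_of_field hfield hcm F hgF ψ c hc
      intro F' hF'
      by_contra h3
      exact hgood ⟨⟨desc F (rep W), hd W hW,
        home_desc hdesc E F (hrep W hW) (hhome W hW).1 (hhome W hW).2, ψ, by omega⟩,
        F', hF', not_lt.1 h3⟩
    have h8 := hC (Gal F) (F →+* ℂ) m n g M' c D _ (hminF _ (hd W hW)) ψ hfaith hor
    refine (Nat.cast_le.2 hle).trans (h8.trans ?_)
    obtain ⟨h4, h5, h6⟩ := hfam W hW
    have h7 : ∑ S ∈ fam W, finrank ℚ S = (fam W).card * finrank ℚ (desc F (rep W)) := by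
      rw [sum_congr rfl fun S hS => (h4 S hS).2.2, sum_const, smul_eq_mul]
    have he0 : 0 < edim (Gal F) (desc F (rep W)) := edim_pos (hd W hW).1
    have he : (0 : ℝ) < edim (Gal F) (desc F (rep W)) := by exact_mod_cast he0
    have h9 : (finrank ℚ (fixedPart (Gal F) ψ (desc F (rep W))) : ℝ) *
        finrank ℚ (desc F (rep W)) / (edim (Gal F) (desc F (rep W)) * g) ≤
        ((∑ S ∈ fam W, finrank ℚ S : ℕ) : ℝ) / g := by
      rw [h7, div_le_div_iff₀ (by positivity) hgR]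
      push_cast
      have h6' : (finrank ℚ (fixedPart (Gal F) ψ (desc F (rep W))) : ℝ) ≤
          edim (Gal F) (desc F (rep W)) * (fam W).card := by exact_mod_cast h6
      calc (finrank ℚ (fixedPart (Gal F) ψ (desc F (rep W))) : ℝ) *
            finrank ℚ (desc F (rep W)) * g ≤
          (edim (Gal F) (desc F (rep W)) * (fam W).card) * finrank ℚ (desc F (rep W)) * g := by
            gcongr
        _ = _ := by ring
    have h10 : (0 : ℝ) ≤ 2 ^ (m * g) * (C * (n : ℝ) ^ 2 *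
        ((1 + Real.log g) ^ 16 / √(m * g))) := by positivity
    calc 2 ^ (m * g) * (C * (n : ℝ) ^ 2 *
          (finrank ℚ (fixedPart (Gal F) ψ (desc F (rep W))) * finrank ℚ (desc F (rep W)) /
            (edim (Gal F) (desc F (rep W)) * g)) * ((1 + Real.log g) ^ 16 / √(m * g))) =
        2 ^ (m * g) * (C * (n : ℝ) ^ 2 * ((1 + Real.log g) ^ 16 / √(m * g))) *
          (finrank ℚ (fixedPart (Gal F) ψ (desc F (rep W))) * finrank ℚ (desc F (rep W)) /
            (edim (Gal F) (desc F (rep W)) * g)) := by ring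
      _ ≤ _ := mul_le_mul_of_nonneg_left h9 h10
  rw [Nat.cast_sum]
  refine (sum_le_sum hone).trans ?_
  rw [← mul_sum, ← sum_div, ← Nat.cast_sum]
  refine mul_le_of_le_one_right (by positivity) ?_
  rw [div_le_one hgR]
  exact_mod_cast hsum

/-- The bound in terms of the fields of definition. -/
def P_field_bound3 : Prop :=
  ∃ C : ℝ, 0 ≤ C ∧ ∀ (E : Type) [Field E] [NumberField E] [IsCMField E] (M : (E →+* ℂ) → ℤ)
    (n g : ℕ), n ≠ 0 → (∀ φ, M φ ∣ (n : ℤ)) → (∀ φ, M (ComplexEmbedding.conjugate φ) = M φ) →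
    finrank ℚ E = 2 * g →
    ((degTypes M).ncard : ℝ) ≤
      2 ^ g * ((n : ℝ) ^ 2 / √g * (∑ᶠ F ∈ {F ∈ defFields E | IsBad F}, (finrank ℚ F : ℝ) / 2 +
        ∑ᶠ F ∈ {F ∈ defFields E | ¬ IsBad F}, C * (1 + Real.log (finrank ℚ F)) ^ 16))

theorem field_bound3 (hM : P_mult) (hK : P_key) (hFa : P_faith3) (hcorr : P_corr) (hdim : P_dim)
    (hfield : P_field) (hcm : P_cm) (hbij : P_bij) (hdesc : P_desc) (hdesc2 : P_desc2) :
    P_field_bound3 := by
  classical
  obtain ⟨C, hC0, hC⟩ := hFa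
  refine ⟨C, hC0, ?_⟩
  intro E _ _ _ M n g hn0 hMn hMc hg
  obtain ⟨φ₀⟩ : Nonempty (E →+* ℂ) := inferInstance
  obtain ⟨c, hc, hcc, hcen⟩ := exists_conj E
  have hfun : (fun φ : E →+* ℂ => c • φ) = ComplexEmbedding.conjugate (K := E) := funext hc
  have hmin : ∀ S ∈ minimalSpaces E, S ∈ MinInv (Gal E) (fun φ : E →+* ℂ => c • φ) := by
    intro S hS
    rw [hfun]
    exact (minInv_iff S).2 hS
  have hfree : ∀ φ : E →+* ℂ, c • φ ≠ φ := fun φ => by
    rw [hc]
    exact conj_ne φ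
  have hMc' : ∀ φ : E →+* ℂ, M (c • φ) = M φ := fun φ => by rw [hc, hMc]
  have hcard : Fintype.card (E →+* ℂ) = 2 * g := by rw [Embeddings.card, hg]
  have hg0 : 0 < g := by
    have := Module.finrank_pos (R := ℚ) (M := E)
    omega
  have hgR : (0 : ℝ) < g := by exact_mod_cast hg0
  have hsq : 0 < √(g : ℝ) := Real.sqrt_pos.2 hgR
  -- the components and the representatives
  have hfin := finite_components (E := E)
  have hrep : ∀ W : Submodule ℚ ((E →+* ℂ) → ℚ), ∃ S, W ∈ components E →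
      S ∈ minimalSpaces E ∧ component S = W := by
    intro W
    by_cases hW : W ∈ components E
    · obtain ⟨S, hS, hSW⟩ := hW
      exact ⟨S, fun _ => ⟨hS, hSW⟩⟩
    · exact ⟨⊥, fun h => absurd h hW⟩
  choose rep hrep using hrep
  set cnt : Submodule ℚ ((E →+* ℂ) → ℚ) → ℕ := fun W => {Φ : Set (E →+* ℂ) | IsCMType Φ ∧
      ∃ S ∈ minimalSpaces E, component S = W ∧ OrthW M Φ S}.ncard with hcnt
  have hcnt_le : ∀ W ∈ components E, cnt W ≤
      (orthClassW M c (killers (Gal E) ((rep W : Submodule ℚ ((E →+* ℂ) → ℚ)) :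
        Set ((E →+* ℂ) → ℚ)))).ncard := by
    intro W hW
    have h4 := ncard_types_le M hc (hrep W hW).1
    rw [(hrep W hW).2] at h4
    exact h4
  have hkne : ∀ W ∈ components E, ∀ W' ∈ components E, W ≠ W' →
      killers (Gal E) ((rep W : Submodule ℚ ((E →+* ℂ) → ℚ)) : Set ((E →+* ℂ) → ℚ)) ≠
      killers (Gal E) ((rep W' : Submodule ℚ ((E →+* ℂ) → ℚ)) : Set ((E →+* ℂ) → ℚ)) := by
    intro W hW W' hW' hne h
    apply hne
    rw [← (hrep W hW).2, ← (hrep W' hW').2]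
    exact component_congr h
  -- the total number
  have htot : (degTypes M).ncard ≤ ∑ W ∈ hfin.toFinset, cnt W := by
    have h1 : degTypes M ⊆ ⋃ W ∈ hfin.toFinset, {Φ : Set (E →+* ℂ) | IsCMType Φ ∧
        ∃ S ∈ minimalSpaces E, component S = W ∧ OrthW M Φ S} := by
      rintro Φ ⟨hΦ, S, hS, hmem⟩
      exact Set.mem_biUnion (hfin.mem_toFinset.2 ⟨S, hS, rfl⟩) ⟨hΦ, S, hS, rfl, hmem⟩
    refine (Set.ncard_le_ncard h1 (Set.toFinite _)).trans ?_
    exact Finset.set_ncard_biUnion_le _ _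
  -- the smallest home fields
  have hhome : ∀ W : Submodule ℚ ((E →+* ℂ) → ℚ), ∃ F : IntermediateField ℚ E,
      W ∈ components E → F ∈ homeFields (rep W) ∧
        ∀ F' ∈ homeFields (rep W), F' ≤ F → F ≤ F' := by
    intro W
    obtain ⟨F, -, hF⟩ := (Set.toFinite (homeFields (rep W))).exists_le_minimal
      (top_mem_homeFields (rep W))
    exact ⟨F, fun _ => ⟨hF.1, fun F' h h' => hF.2 h h'⟩⟩
  choose home hhome using hhome
  have hdef : ∀ W ∈ components E, home W ∈ defFields E := fun W hW =>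
    ⟨rep W, (hrep W hW).1, hhome W hW⟩
  have hnr : ∀ W ∈ components E, ∃ ψ : (home W) →+* ℂ, ComplexEmbedding.conjugate ψ ≠ ψ :=
    fun W hW => exists_not_real (hrep W hW).1 ((hhome W hW).1 _ (hrep W hW).1 rfl)
  have hfinG : {F ∈ defFields E | ¬ IsBad F}.Finite := Set.toFinite _
  have hfinB : {F ∈ defFields E | IsBad F}.Finite := Set.toFinite _
  set A := hfin.toFinset.filter (fun W => ¬ IsBad (home W)) with hA
  set B := hfin.toFinset.filter (fun W => ¬ ¬ IsBad (home W)) with hB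
  have hsplit : ∑ W ∈ hfin.toFinset, cnt W = ∑ W ∈ A, cnt W + ∑ W ∈ B, cnt W := by
    rw [hA, hB, sum_filter_add_sum_filter_not]
  have hAmem : ∀ W ∈ A, W ∈ components E ∧ ¬ IsBad (home W) := by
    intro W hW
    rw [hA, mem_filter, hfin.mem_toFinset] at hW
    exact hW
  have hBmem : ∀ W ∈ B, W ∈ components E ∧ IsBad (home W) := by
    intro W hW
    rw [hB, mem_filter, hfin.mem_toFinset, not_not] at hW
    exact hW
  -- the good fields
  have hgoodF : ∀ F ∈ hfinG.toFinset, ((∑ W ∈ A.filter (fun W => home W = F), cnt W : ℕ) : ℝ) ≤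
      2 ^ g * ((n : ℝ) ^ 2 / √g * (C * (1 + Real.log (finrank ℚ F)) ^ 16)) := by
    intro F hF
    obtain ⟨hFdef, hFgood⟩ := hfinG.mem_toFinset.1 hF
    obtain ⟨S, hS, hSF, -⟩ := hFdef
    have hcmF : IsCMField F := hcm E F (exists_not_real hS (hSF S hS rfl))
    obtain ⟨gF, hgF⟩ := finrank_even F
    have hmul : finrank ℚ F * finrank F E = finrank ℚ E := finrank_mul_finrank ℚ F E
    set m := finrank F E with hm
    have hm0 : m ≠ 0 := by
      rintro h0
      rw [h0, mul_zero, hg] at hmul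
      omega
    have : NeZero m := ⟨hm0⟩
    have hgm : g = m * gF := by
      rw [hgF, hg] at hmul
      have : 2 * (m * gF) = 2 * g := by rw [← hmul]; ring
      omega
    have hgF0 : 0 < gF := by
      rcases Nat.eq_zero_or_pos gF with h0 | h0
      · rw [h0, mul_zero] at hgm
        omega
      · exact h0
    have hgFR : (0 : ℝ) < gF := by exact_mod_cast hgF0
    have hgF1 : (1 : ℝ) ≤ gF := by exact_mod_cast hgF0
    have h1 := good_part hM hC0 hC hcorr hdim hfield hcm hbij hdesc hdesc2 E F hFgood (m := m)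
      hgF (by rw [hg, hgm]) M hn0 hMn hMc (A.filter (fun W => home W = F)) rep
      (fun W hW => (hrep W (hAmem W (mem_filter.1 hW).1).1).1)
      (fun W hW => by
        obtain ⟨hW1, hW2⟩ := mem_filter.1 hW
        rw [← hW2]
        exact hhome W (hAmem W hW1).1)
      (fun W hW W' hW' hne => hkne W (hAmem W (mem_filter.1 hW).1).1 W'
        (hAmem W' (mem_filter.1 hW').1).1 hne)
    have h2 : ∑ W ∈ A.filter (fun W => home W = F), cnt W =
        ∑ W ∈ A.filter (fun W => home W = F), {Φ : Set (E →+* ℂ) | IsCMType Φ ∧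
          ∃ S ∈ minimalSpaces E, component S = component (rep W) ∧ OrthW M Φ S}.ncard := by
      refine sum_congr rfl fun W hW => ?_
      rw [(hrep W (hAmem W (mem_filter.1 hW).1).1).2]
    rw [h2]
    refine h1.trans ?_
    rw [← hgm]
    have hmg : ((m : ℝ) * gF) = g := by
      rw [hgm]
      push_cast
      ring
    rw [hmg]
    refine mul_le_mul_of_nonneg_left ?_ (by positivity)
    have hl1 : 0 ≤ Real.log gF := Real.log_nonneg hgF1
    have hl2 : Real.log gF ≤ Real.log ((finrank ℚ F : ℕ) : ℝ) := by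
      refine Real.log_le_log hgFR ?_
      rw [hgF]
      push_cast
      linarith
    calc C * (n : ℝ) ^ 2 * ((1 + Real.log gF) ^ 16 / √g) ≤
        C * (n : ℝ) ^ 2 * ((1 + Real.log ((finrank ℚ F : ℕ) : ℝ)) ^ 16 / √g) := by gcongr
      _ = _ := by ring
  have hsumA : ((∑ W ∈ A, cnt W : ℕ) : ℝ) ≤ 2 ^ g * ((n : ℝ) ^ 2 / √g *
      ∑ᶠ F ∈ {F ∈ defFields E | ¬ IsBad F}, C * (1 + Real.log (finrank ℚ F)) ^ 16) := by
    rw [← sum_fiberwise_of_maps_to (s := A) (t := hfinG.toFinset) (g := home)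
      (fun W hW => hfinG.mem_toFinset.2 ⟨hdef W (hAmem W hW).1, (hAmem W hW).2⟩), Nat.cast_sum,
      finsum_mem_eq_finite_toFinset_sum _ hfinG, mul_sum, mul_sum]
    exact sum_le_sum hgoodF
  -- the orthogonal families
  have hfam : ∀ W : Submodule ℚ ((E →+* ℂ) → ℚ), ∃ F : Finset (Submodule ℚ ((E →+* ℂ) → ℚ)),
      W ∈ components E →
      (∀ S' ∈ F, S' ∈ MinInv (Gal E) (fun φ : E →+* ℂ => c • φ) ∧
        killers (Gal E) (S' : Set ((E →+* ℂ) → ℚ)) =
          killers (Gal E) ((rep W : Submodule ℚ ((E →+* ℂ) → ℚ)) : Set ((E →+* ℂ) → ℚ)) ∧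
        finrank ℚ S' = finrank ℚ (rep W)) ∧
      (∀ S' ∈ F, ∀ S'' ∈ F, S' ≠ S'' → S'' ≤ (dot (E →+* ℂ)).orthogonal S') ∧
      finrank ℚ (fixedPart (Gal E) φ₀ (rep W)) ≤ edim (Gal E) (rep W) * F.card := by
    intro W
    by_cases hW : W ∈ components E
    · obtain ⟨F, hF⟩ := hM (Gal E) (E →+* ℂ) c hcc hfree hcen (rep W)
        (hmin _ (hrep W hW).1) φ₀
      exact ⟨F, fun _ => hF⟩
    · exact ⟨∅, fun h => absurd h hW⟩
  choose fam hfam using hfam
  have hBcount : ∀ W ∈ B, (cnt W : ℝ) ≤ 2 ^ g * ((n : ℝ) ^ 2 / √g *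
      ((∑ S ∈ fam W, finrank ℚ S : ℕ) : ℝ)) := by
    intro W hW
    obtain ⟨hWc, hWf⟩ := hBmem W hW
    obtain ⟨h4, h5, h6⟩ := hfam W hWc
    have h7 : ∑ S ∈ fam W, finrank ℚ S = (fam W).card * finrank ℚ (rep W) := by
      rw [sum_congr rfl fun S hS => (h4 S hS).2.2, sum_const, smul_eq_mul]
    have h8 := hK (Gal E) (E →+* ℂ) M n (fun x => abs_le_of_dvd hn0 (hMn x)) c hMc' hcc hfree
      hcen g hcard (rep W) (hmin _ (hrep W hWc).1) φ₀
    set N := ((orthClassW M c (killers (Gal E) ((rep W : Submodule ℚ ((E →+* ℂ) → ℚ)) :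
        Set ((E →+* ℂ) → ℚ)))).ncard : ℝ) with hN
    set e := edim (Gal E) (rep W) with he
    set h := finrank ℚ (fixedPart (Gal E) φ₀ (rep W)) with hh
    set d := finrank ℚ (rep W) with hd
    have he1 : 1 ≤ e := edim_pos (hrep W hWc).1.1
    have heR : (1 : ℝ) ≤ e := by exact_mod_cast he1
    have h9 : (cnt W : ℝ) ≤ N := Nat.cast_le.2 (hcnt_le W hWc)
    refine h9.trans ?_
    rw [h7, Nat.cast_mul]
    have h6' : (h : ℝ) ≤ e * (fam W).card := by exact_mod_cast h6
    have h10 : N * (e : ℝ) * (e * √g) ≤ 2 ^ g * (n : ℝ) ^ 2 * (fam W).card * d * (e * 1) := by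
      calc N * (e : ℝ) * (e * √g) = N * (e : ℝ) ^ 2 * √g := by ring
        _ ≤ 2 ^ g * (n : ℝ) ^ 2 * h * d := h8
        _ ≤ 2 ^ g * (n : ℝ) ^ 2 * (e * (fam W).card) * d := by gcongr
        _ = _ := by ring
    have hN0 : 0 ≤ N := Nat.cast_nonneg _
    have h11 : N * √g ≤ 2 ^ g * (n : ℝ) ^ 2 * (fam W).card * d := by
      have h12 : N * √g * e ≤ 2 ^ g * (n : ℝ) ^ 2 * (fam W).card * d * e := by
        calc N * √g * e ≤ N * √g * e * e := le_mul_of_one_le_right (by positivity) heR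
          _ = N * (e : ℝ) * (e * √g) := by ring
          _ ≤ _ := h10
          _ = _ := by ring
      exact le_of_mul_le_mul_right h12 (by linarith)
    rw [← le_div_iff₀ hsq] at h11
    refine h11.trans (le_of_eq ?_)
    ring
  have hsumB : ((∑ W ∈ B, cnt W : ℕ) : ℝ) ≤ 2 ^ g * ((n : ℝ) ^ 2 / √g *
      ∑ᶠ F ∈ {F ∈ defFields E | IsBad F}, (finrank ℚ F : ℝ) / 2) := by
    rw [Nat.cast_sum]
    refine (sum_le_sum hBcount).trans ?_
    rw [← mul_sum, ← mul_sum]
    refine mul_le_mul_of_nonneg_left ?_ (by positivity)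
    refine mul_le_mul_of_nonneg_left ?_ (by positivity)
    rw [finsum_mem_eq_finite_toFinset_sum _ hfinB]
    rw [← sum_fiberwise_of_maps_to (s := B) (t := hfinB.toFinset) (g := home)
      (fun W hW => hfinB.mem_toFinset.2 ⟨hdef W (hBmem W hW).1, (hBmem W hW).2⟩)]
    refine sum_le_sum fun F hF => ?_
    have h5 := sum_sum_finrank_le (V := resSpace F) (B.filter (fun W => home W = F)) fam
      ?_ ?_ ?_ ?_
    · have h7 := hdim E F (resSpace F) (fun s hs φ => hs.1 φ) (fun u hu φ ψ h => hu.2 φ ψ h)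
      rw [← Nat.cast_sum, le_div_iff₀ two_pos, mul_comm]
      have h8 : 2 * ∑ W ∈ B.filter (fun W => home W = F), ∑ S ∈ fam W, finrank ℚ S ≤
          finrank ℚ F := by omega
      exact_mod_cast h8
    · intro W hW S hS
      obtain ⟨hW1, hW2⟩ := mem_filter.1 hW
      have h6 := (hfam W (hBmem W hW1).1).1 S hS
      have h7 : S ∈ minimalSpaces E := by
        refine (minInv_iff S).1 ?_
        rw [← hfun]
        exact h6.1
      rw [← hW2]
      exact (hhome W (hBmem W hW1).1).1 S h7 h6.2.1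
    · intro W hW S hS
      exact ((hfam W (hBmem W (mem_filter.1 hW).1).1).1 S hS).1.1
    · intro W hW
      exact (hfam W (hBmem W (mem_filter.1 hW).1).1).2.1
    · intro W hW W' hW' hne S hS S' hS'
      have h7 := (hfam W (hBmem W (mem_filter.1 hW).1).1).1 S hS
      have h8 := (hfam W' (hBmem W' (mem_filter.1 hW').1).1).1 S' hS'
      refine orth_of_killers_ne h7.1 h8.1 ?_
      rw [h7.2.1, h8.2.1]
      exact hkne W (hBmem W (mem_filter.1 hW).1).1 W' (hBmem W' (mem_filter.1 hW').1).1 hne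
  have h4 : ((degTypes M).ncard : ℝ) ≤ ((∑ W ∈ A, cnt W : ℕ) : ℝ) + ((∑ W ∈ B, cnt W : ℕ) : ℝ) := by
    rw [← Nat.cast_add, ← hsplit]
    exact_mod_cast htot
  refine h4.trans ((add_le_add hsumA hsumB).trans (le_of_eq ?_))
  ring

end Pool.Agent.Y1.KN
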