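import Mathlib
import Pool.Agent.Y1.KN.Faith3
import Pool.Agent.Y1.KN.Field2

/-!
# Statements about the number of the classes of spaces
-/

set_option linter.unusedSectionVars false
set_option linter.unusedVariables false

namespace Pool.Agent.Y1.KN

open Finset Module NumberField Pool.Agent.TH170.MF Pool.Agent.TH170.QC Pool.Agent.TH170.QE
  Pool.Agent.TH170.FW Pool.Agent.H204R3.CM

/-- The number of the subgroups that contain the stabilizer but not `c`. -/
noncomputable def numSub (G : Type*) {X : Type*} [Group G] [MulAction G X] (c : G) (x₀ : X) : ℕ :=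
  {A : Subgroup G | MulAction.stabilizer G x₀ ≤ A ∧ c ∉ A}.ncard

/-- The odd functions (for the element `s`) in `S` form a line. -/
def IsRefl {G X : Type*} [Group G] [MulAction G X] (s : G) (S : Submodule ℚ (X → ℚ)) : Prop :=
  ∃ α ∈ S, α ≠ 0 ∧ (∀ x, α (s • x) = - α x) ∧
    ∀ u ∈ S, (∀ x, u (s • x) = - u x) → ∃ r : ℚ, u = r • α

/-- Traces of powers of a rational endomorphism of finite order. -/
def P_ratl : Prop :=
  ∀ (V : Type) [AddCommGroup V] [Module ℚ V] [FiniteDimensional ℚ V] (T : V →ₗ[ℚ] V) (n j : ℕ),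
    0 < n → T ^ n = 1 → j.Coprime n → LinearMap.trace ℚ V (T ^ j) = LinearMap.trace ℚ V T

/-- The number of the classes of odd minimal spaces. -/
def P_q1 : Prop :=
  ∀ (G X : Type) [Group G] [Fintype G] [MulAction G X] [Fintype X] (c : G) (ι : Type) [Fintype ι]
    (S : ι → Submodule ℚ (X → ℚ)), c * c = 1 → (∀ x, c * x = x * c) →
    (∀ i, S i ∈ MinInv G (fun x : X => c • x)) →
    (∀ i j, i ≠ j → killers G (S i : Set (X → ℚ)) ≠ killers G (S j : Set (X → ℚ))) →
    Fintype.card ι ≤ {A : Subgroup G | c ∉ A}.ncard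

/-- Spaces with a reflection are determined by the action of the centralizer on the root. -/
def P_refl : Prop :=
  ∀ (G X : Type) [Group G] [Fintype G] [MulAction G X] [Fintype X] (c : X → X) (s : G)
    (S S' : Submodule ℚ (X → ℚ)), S ∈ MinInv G c → S' ∈ MinInv G c → Faith G S → Faith G S' →
    s * s = 1 → IsRefl s S → IsRefl s S' →
    (∀ γ : G, γ * s = s * γ →
      ((∀ u ∈ S, (∀ x, u (s • x) = - u x) → ∀ x, u (γ • x) = u x) ↔
        ∀ u ∈ S', (∀ x, u (s • x) = - u x) → ∀ x, u (γ • x) = u x)) →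
    killers G (S : Set (X → ℚ)) = killers G (S' : Set (X → ℚ))

/-- The quadratic characters of a 2-group with one involution. -/
def P_uniq : Prop :=
  ∀ (R : Type) [Group R] [Fintype R] (z : R) (a : ℕ), Nat.card R = 2 ^ a → z ≠ 1 → z * z = 1 →
    (∀ x : R, x ≠ 1 → x * x = 1 → x = z) → Nat.card (R →* ℤˣ) ≤ 4

/-- The quadratic characters of a group, and its subgroups. -/
def P_quad : Prop :=
  ∀ (C : Type) [Group C] [Fintype C] (s c : C), (∀ x, s * x = x * s) → (∀ x, c * x = x * c) →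
    s * s = 1 → c * c = 1 → c ≠ 1 → c ≠ s →
    Nat.card {ψ : C →* ℤˣ // ψ s = 1 ∧ ψ c = 1} ≤ 4 * {A : Subgroup C | s ∈ A ∧ c ∉ A}.ncard ^ 2

/-- The number of the classes of odd minimal spaces with a reflection. -/
def P_q2 : Prop :=
  ∀ (G X : Type) [Group G] [Fintype G] [MulAction G X] [Fintype X]
    [MulAction.IsPretransitive G X] (c s : G) (x₀ : X) (ι : Type) [Fintype ι]
    (S : ι → Submodule ℚ (X → ℚ)), c * c = 1 → (∀ x, c * x = x * c) → (∀ x : X, c • x ≠ x) →
    (∀ γ : G, γ • x₀ = x₀ ↔ γ = 1 ∨ γ = s) → s ≠ 1 →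
    (∀ i, S i ∈ MinInv G (fun x : X => c • x)) →
    (∀ i j, i ≠ j → killers G (S i : Set (X → ℚ)) ≠ killers G (S j : Set (X → ℚ))) →
    (∀ i, Faith G (S i)) → (∀ i, codimFix G x₀ (S i) ≤ 1) →
    Fintype.card ι ≤ 4 * numSub G c x₀ ^ 2

/-- The subgroups above a stabilizer, and the subfields that are not real. -/
def P_sub : Prop :=
  ∀ (E : Type) [Field E] [NumberField E] [IsCMField E] (φ₀ : E →+* ℂ) (c : Gal E),
    (∀ φ : E →+* ℂ, c • φ = ComplexEmbedding.conjugate φ) →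
    numSub (Gal E) c φ₀ ≤
      {F : IntermediateField ℚ E | ∃ ψ : F →+* ℂ, ComplexEmbedding.conjugate ψ ≠ ψ}.ncard

/-- A field with trivial stabilizers is a Galois extension. -/
def P_normal : Prop :=
  ∀ (E : Type) [Field E] [NumberField E] [IsCMField E] (φ₀ : E →+* ℂ),
    (∀ γ : Gal E, γ • φ₀ = φ₀ → γ = 1) → IsGalois ℚ E

/-- The numerical part for spaces of codimension at most two. -/
def P_num7 : Prop :=
  ∃ K : ℝ, 1 ≤ K ∧ ∀ (g m d c n Gc : ℕ) (N : ℝ), 1 ≤ n → 1 ≤ m → 1 ≤ d → 1 ≤ g →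
    d ^ 2 ≤ 2 * g → 1 ≤ Gc → Gc ≤ 4 * g → N ≤ 1 →
    N ≤ boundB (m * g) d c (Real.log ((Gc * n : ℕ) : ℝ)) →
    N ≤ √(K * (n : ℝ) ^ 2 * (1 + Real.log g) ^ 3 * d / (m * g)) ^ c

end Pool.Agent.Y1.KN
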