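import Mathlib
import Pool.Agent.Y1.KN.Stm8
import Pool.Agent.Y1.KN.Field3
import Pool.Agent.Y1.KN.Defs

/-!
# The number of the degenerate types of a CM field, in terms of the fields of definition and their
CM subfields
-/

set_option linter.unusedSectionVars false
set_option linter.unusedVariables false

namespace Pool.Agent.Y1.KN

open NumberField Finset Module Pool.Agent.H204R3.CM Pool.Agent.TH170.MF Pool.Agent.TH170.QC
  Pool.Agent.TH170.QE Pool.Agent.TH170.FW Pool.Agent.TH170.CM Pool.Agent.TH170.GC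

/-- The number of the subfields that are not totally real. -/
noncomputable def numCM (F : Type*) [Field F] [NumberField F] : ℕ :=
  {F' : IntermediateField ℚ F | ∃ ψ : F' →+* ℂ, ComplexEmbedding.conjugate ψ ≠ ψ}.ncard

theorem one_le_numCM (F : Type) [Field F] [NumberField F] [IsCMField F] : 1 ≤ numCM F := by
  classical
  unfold numCM
  rw [Nat.one_le_iff_ne_zero]
  intro h
  rw [Set.ncard_eq_zero (Set.toFinite _)] at h
  obtain ⟨φ⟩ : Nonempty (F →+* ℂ) := inferInstance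
  have h1 : (⊤ : IntermediateField ℚ F) ∈
      {F' : IntermediateField ℚ F | ∃ ψ : F' →+* ℂ, ComplexEmbedding.conjugate ψ ≠ ψ} := by
    refine ⟨φ.comp (algebraMap (⊤ : IntermediateField ℚ F) F), fun heq => conj_ne φ ?_⟩
    ext x
    exact congrArg (fun f : (⊤ : IntermediateField ℚ F) →+* ℂ => f ⟨x, trivial⟩) heq
  rw [h] at h1
  exact h1

theorem one_le_galFactor (F : Type*) [Field F] [NumberField F] : 1 ≤ galFactor F := by
  classical
  unfold galFactor
  split_ifs
  · refine Real.one_le_rpow ?_ (by norm_num)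
    have := Module.finrank_pos (R := ℚ) (M := F)
    exact_mod_cast this
  · exact le_rfl

/-- In the abelian case there are no multiplicities. -/
theorem fixed_le_edim (hM : P_mult) (F : Type) [Field F] [NumberField F] [IsCMField F]
    [IsAbelianGalois ℚ F] {S : Submodule ℚ ((F →+* ℂ) → ℚ)} (hS : S ∈ minimalSpaces F)
    (ψ : F →+* ℂ) : finrank ℚ (fixedPart (Gal F) ψ S) ≤ edim (Gal F) S := by
  classical
  obtain ⟨c, hc, hcc, hcen⟩ := exists_conj F
  have hfun : (fun ψ : F →+* ℂ => c • ψ) = ComplexEmbedding.conjugate (K := F) := funext hc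
  have hfree : ∀ φ : F →+* ℂ, c • φ ≠ φ := fun φ => by
    rw [hc]
    exact conj_ne φ
  have hSm : S ∈ MinInv (Gal F) (fun ψ : F →+* ℂ => c • ψ) := by
    rw [hfun]
    exact (minInv_iff S).2 hS
  obtain ⟨fam, h1, h2, h3⟩ := hM (Gal F) (F →+* ℂ) c hcc hfree hcen S hSm ψ
  have h4 : ∀ S' ∈ fam, S' = S := by
    intro S' hS'
    obtain ⟨h5, h6, h7⟩ := h1 S' hS'
    have h8 : S' ∈ minimalSpaces F := by
      refine (minInv_iff S').1 ?_
      rw [← hfun]
      exact h5
    have h9 : component S' = component S := component_congr h6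
    have h10 : component S = S := component_of_mf (multiplicityFree_of_abelian F) hS
    have h11 : S' ≤ S := by
      rw [← h10, ← h9]
      exact le_component h8
    exact Submodule.eq_of_le_of_finrank_eq h11 h7
  have h5 : fam.card ≤ 1 := Finset.card_le_one.2 fun a ha b hb => by rw [h4 a ha, h4 b hb]
  calc finrank ℚ (fixedPart (Gal F) ψ S) ≤ edim (Gal F) S * fam.card := h3
    _ ≤ edim (Gal F) S * 1 := Nat.mul_le_mul_left _ h5
    _ = _ := mul_one _

/-- The multiplicities of the classes that come from a subfield. -/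
theorem sum_mult_le (hM : P_mult) (hdim : P_dim) (hdesc : P_desc) (hdesc2 : P_desc2) (E : Type)
    [Field E] [NumberField E] [IsCMField E] (F : IntermediateField ℚ E) [IsCMField F] {g : ℕ}
    (hgF : finrank ℚ F = 2 * g)
    {ι : Type*} (Ws : Finset ι) (rep : ι → Submodule ℚ ((E →+* ℂ) → ℚ))
    (hrep : ∀ W ∈ Ws, rep W ∈ minimalSpaces E)
    (hhome : ∀ W ∈ Ws, F ∈ homeFields (rep W) ∧ ∀ F' ∈ homeFields (rep W), F' ≤ F → F ≤ F')
    (hne : ∀ W ∈ Ws, ∀ W' ∈ Ws, W ≠ W' →
      killers (Gal E) (rep W : Set ((E →+* ℂ) → ℚ)) ≠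
        killers (Gal E) (rep W' : Set ((E →+* ℂ) → ℚ))) (ψ : F →+* ℂ) :
    ∑ W ∈ Ws, (finrank ℚ (fixedPart (Gal F) ψ (desc F (rep W))) : ℝ) *
      finrank ℚ (desc F (rep W)) / edim (Gal F) (desc F (rep W)) ≤ g := by
  classical
  obtain ⟨c, hc, hcc, hcen⟩ := exists_conj F
  have hfun : (fun ψ : F →+* ℂ => c • ψ) = ComplexEmbedding.conjugate (K := F) := funext hc
  have hminF : ∀ S ∈ minimalSpaces F, S ∈ MinInv (Gal F) (fun ψ : F →+* ℂ => c • ψ) := by
    intro S hS
    rw [hfun]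
    exact (minInv_iff S).2 hS
  have hfree : ∀ φ : F →+* ℂ, c • φ ≠ φ := fun φ => by
    rw [hc]
    exact conj_ne φ
  have hd : ∀ W ∈ Ws, desc F (rep W) ∈ minimalSpaces F := fun W hW =>
    (hdesc E F (rep W) (hrep W hW) ((hhome W hW).1 _ (hrep W hW) rfl)).1
  have hfam : ∀ W : ι, ∃ Fm : Finset (Submodule ℚ ((F →+* ℂ) → ℚ)), W ∈ Ws →
      (∀ S' ∈ Fm, S' ∈ MinInv (Gal F) (fun φ : F →+* ℂ => c • φ) ∧
        killers (Gal F) (S' : Set ((F →+* ℂ) → ℚ)) =
          killers (Gal F) (desc F (rep W) : Set ((F →+* ℂ) → ℚ)) ∧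
        finrank ℚ S' = finrank ℚ (desc F (rep W))) ∧
      (∀ S' ∈ Fm, ∀ S'' ∈ Fm, S' ≠ S'' → S'' ≤ (dot (F →+* ℂ)).orthogonal S') ∧
      finrank ℚ (fixedPart (Gal F) ψ (desc F (rep W))) ≤
        edim (Gal F) (desc F (rep W)) * Fm.card := by
    intro W
    by_cases hW : W ∈ Ws
    · obtain ⟨Fm, hFm⟩ := hM (Gal F) (F →+* ℂ) c hcc hfree hcen (desc F (rep W))
        (hminF _ (hd W hW)) ψ
      exact ⟨Fm, fun _ => hFm⟩
    · exact ⟨∅, fun h => absurd h hW⟩
  choose fam hfam using hfam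
  have hsum : ∑ W ∈ Ws, ∑ S ∈ fam W, finrank ℚ S ≤ g := by
    have h6 := sum_sum_finrank_le (V := resSpace (⊤ : IntermediateField ℚ F)) Ws fam ?_ ?_ ?_ ?_
    · have h7 := hdim F ⊤ (resSpace ⊤) (fun s hs φ => hs.1 φ) (fun u hu φ ψ h => hu.2 φ ψ h)
      have h8 : finrank ℚ (⊤ : IntermediateField ℚ F) = 2 * g := by
        rw [IntermediateField.finrank_top', hgF]
      omega
    · intro W hW S hS u hu
      have h7 := ((hfam W hW).1 S hS).1
      rw [hfun] at h7
      have h8 := (minInv_iff S).1 h7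
      refine ⟨h8.2.2.1 u hu, fun φ ψ h => ?_⟩
      rw [RingHom.ext fun x => h x IntermediateField.mem_top]
    · intro W hW S hS
      exact ((hfam W hW).1 S hS).1.1
    · intro W hW
      exact (hfam W hW).2.1
    · intro W hW W' hW' hWW S hS S' hS'
      have h7 := (hfam W hW).1 S hS
      have h8 := (hfam W' hW').1 S' hS'
      refine orth_of_killers_ne h7.1 h8.1 ?_
      rw [h7.2.1, h8.2.1]
      intro heq
      exact hne W hW W' hW' hWW (hdesc2 E F (rep W) (rep W') (hrep W hW) (hrep W' hW')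
        ((hhome W hW).1 _ (hrep W hW) rfl) ((hhome W' hW').1 _ (hrep W' hW') rfl) heq)
  have hone : ∀ W ∈ Ws, (finrank ℚ (fixedPart (Gal F) ψ (desc F (rep W))) : ℝ) *
      finrank ℚ (desc F (rep W)) / edim (Gal F) (desc F (rep W)) ≤
      ((∑ S ∈ fam W, finrank ℚ S : ℕ) : ℝ) := by
    intro W hW
    obtain ⟨h4, h5, h6⟩ := hfam W hW
    have h7 : ∑ S ∈ fam W, finrank ℚ S = (fam W).card * finrank ℚ (desc F (rep W)) := by
      rw [sum_congr rfl fun S hS => (h4 S hS).2.2, sum_const, smul_eq_mul]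
    have he0 : 0 < edim (Gal F) (desc F (rep W)) := edim_pos (hd W hW).1
    have he : (0 : ℝ) < edim (Gal F) (desc F (rep W)) := by exact_mod_cast he0
    rw [h7, div_le_iff₀ he]
    push_cast
    have h6' : (finrank ℚ (fixedPart (Gal F) ψ (desc F (rep W))) : ℝ) ≤
        edim (Gal F) (desc F (rep W)) * (fam W).card := by exact_mod_cast h6
    calc (finrank ℚ (fixedPart (Gal F) ψ (desc F (rep W))) : ℝ) *
          finrank ℚ (desc F (rep W)) ≤
        (edim (Gal F) (desc F (rep W)) * (fam W).card) * finrank ℚ (desc F (rep W)) := by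
          gcongr
      _ = _ := by ring
  refine (sum_le_sum hone).trans ?_
  rw [← Nat.cast_sum]
  exact_mod_cast hsum

/-- The contribution of the classes of codimension at least three. -/
theorem main_part (hM : P_mult) {C : ℝ} (hC0 : 0 ≤ C)
    (hC : ∀ (G X : Type) [Group G] [Fintype G] [MulAction G X] [Fintype X]
      [DecidableEq X] [MulAction.IsPretransitive G X] (m n g : ℕ) [NeZero m] (M : PX X m → ℤ)
      (c : G), PData G X m n g M c → ∀ S ∈ MinInv G (fun x : X => c • x), ∀ x₀ : X, Faith G S →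
      (3 ≤ edim G S + codimFix G x₀ S ∨ Star G c x₀ g) →
      (cntO M c S : ℝ) ≤
        2 ^ (m * g) * (C * (n : ℝ) ^ 2 *
          (finrank ℚ (fixedPart G x₀ S) * finrank ℚ S / (edim G S * g)) *
            ((1 + Real.log g) ^ 16 / √(m * g))))
    (hcorr : P_corr) (hdim : P_dim) (hbij : P_bij)
    (hdesc : P_desc) (hdesc2 : P_desc2) (E : Type) [Field E] [NumberField E] [IsCMField E]
    (F : IntermediateField ℚ E) [IsCMField F] {g m n : ℕ} [NeZero m]
    (hgF : finrank ℚ F = 2 * g) (hgE : finrank ℚ E = 2 * (m * g)) (M : (E →+* ℂ) → ℤ)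
    (hn0 : n ≠ 0) (hMn : ∀ φ, M φ ∣ (n : ℤ)) (hMc : ∀ φ, M (ComplexEmbedding.conjugate φ) = M φ)
    {ι : Type*} (Ws : Finset ι) (rep : ι → Submodule ℚ ((E →+* ℂ) → ℚ))
    (hrep : ∀ W ∈ Ws, rep W ∈ minimalSpaces E)
    (hhome : ∀ W ∈ Ws, F ∈ homeFields (rep W) ∧ ∀ F' ∈ homeFields (rep W), F' ≤ F → F ≤ F')
    (hne : ∀ W ∈ Ws, ∀ W' ∈ Ws, W ≠ W' →
      killers (Gal E) (rep W : Set ((E →+* ℂ) → ℚ)) ≠
        killers (Gal E) (rep W' : Set ((E →+* ℂ) → ℚ))) (ψ : F →+* ℂ)
    (h3 : ∀ W ∈ Ws, 3 ≤ edim (Gal F) (desc F (rep W)) + codimFix (Gal F) ψ (desc F (rep W))) :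
    ((∑ W ∈ Ws, {Φ : Set (E →+* ℂ) | IsCMType Φ ∧ ∃ S ∈ minimalSpaces E,
      component S = component (rep W) ∧ OrthW M Φ S}.ncard : ℕ) : ℝ) ≤
      2 ^ (m * g) * (C * (n : ℝ) ^ 2 * ((1 + Real.log g) ^ 16 / √(m * g))) := by
  classical
  obtain ⟨c, hc, hcc, hcen⟩ := exists_conj F
  have hg0 : 0 < g := by
    have := Module.finrank_pos (R := ℚ) (M := F)
    omega
  have hgR : (0 : ℝ) < g := by exact_mod_cast hg0
  have hg1 : (1 : ℝ) ≤ g := by exact_mod_cast hg0
  have hlog : 0 ≤ Real.log g := Real.log_nonneg hg1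
  have hfun : (fun ψ : F →+* ℂ => c • ψ) = ComplexEmbedding.conjugate (K := F) := funext hc
  have hminF : ∀ S ∈ minimalSpaces F, S ∈ MinInv (Gal F) (fun ψ : F →+* ℂ => c • ψ) := by
    intro S hS
    rw [hfun]
    exact (minInv_iff S).2 hS
  have hd : ∀ W ∈ Ws, desc F (rep W) ∈ minimalSpaces F := fun W hW =>
    (hdesc E F (rep W) (hrep W hW) ((hhome W hW).1 _ (hrep W hW) rfl)).1
  have hone : ∀ W ∈ Ws, (({Φ : Set (E →+* ℂ) | IsCMType Φ ∧ ∃ S ∈ minimalSpaces E,
      component S = component (rep W) ∧ OrthW M Φ S}.ncard : ℕ) : ℝ) ≤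
      2 ^ (m * g) * (C * (n : ℝ) ^ 2 * ((1 + Real.log g) ^ 16 / √(m * g))) *
        ((finrank ℚ (fixedPart (Gal F) ψ (desc F (rep W))) : ℝ) *
          finrank ℚ (desc F (rep W)) / edim (Gal F) (desc F (rep W)) / g) := by
    intro W hW
    obtain ⟨M', D, hle⟩ := ncard_types_le_cntO hdesc hbij E F hgF hgE M hn0 hMn hMc (hrep W hW)
      (hhome W hW).1 hc hcc hcen
    have hfaith := faith_desc hcorr hdesc E F (hrep W hW) (hhome W hW).1 (hhome W hW).2
    have h8 := hC (Gal F) (F →+* ℂ) m n g M' c D _ (hminF _ (hd W hW)) ψ hfaith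
      (Or.inl (h3 W hW))
    refine (Nat.cast_le.2 hle).trans (h8.trans (le_of_eq ?_))
    have he0 : 0 < edim (Gal F) (desc F (rep W)) := edim_pos (hd W hW).1
    have he : (0 : ℝ) < edim (Gal F) (desc F (rep W)) := by exact_mod_cast he0
    rw [div_div]
    ring
  rw [Nat.cast_sum]
  refine (sum_le_sum hone).trans ?_
  rw [← mul_sum, ← sum_div]
  refine mul_le_of_le_one_right (by positivity) ?_
  rw [div_le_one hgR]
  exact sum_mult_le hM hdim hdesc hdesc2 E F hgF Ws rep hrep hhome hne ψ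

/-- The contribution of the classes of codimension at most two. -/
theorem exc_part (hM : P_mult) {K : ℝ} (hK1 : 1 ≤ K)
    (hK : ∀ (g m d c n Gc : ℕ) (N : ℝ), 1 ≤ n → 1 ≤ m → 1 ≤ d → 1 ≤ g →
      d ^ 2 ≤ 2 * g → 1 ≤ Gc → Gc ≤ 4 * g → N ≤ 1 →
      N ≤ boundB (m * g) d c (Real.log ((Gc * n : ℕ) : ℝ)) →
      N ≤ √(K * (n : ℝ) ^ 2 * (1 + Real.log g) ^ 3 * d / (m * g)) ^ c)
    (hGB : P_genB) (hP : P_prod) (hq1 : P_q1) (hq2 : P_q2) (hsub : P_sub) (hnor : P_normal)
    (hcorr : P_corr) (hdim : P_dim) (hbij : P_bij)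
    (hdesc : P_desc) (hdesc2 : P_desc2) (E : Type) [Field E] [NumberField E] [IsCMField E]
    (F : IntermediateField ℚ E) [IsCMField F] {g m n : ℕ} [NeZero m]
    (hgF : finrank ℚ F = 2 * g) (hgE : finrank ℚ E = 2 * (m * g)) (M : (E →+* ℂ) → ℤ)
    (hn0 : n ≠ 0) (hMn : ∀ φ, M φ ∣ (n : ℤ)) (hMc : ∀ φ, M (ComplexEmbedding.conjugate φ) = M φ)
    {ι : Type} (Ws : Finset ι) (rep : ι → Submodule ℚ ((E →+* ℂ) → ℚ))
    (hrep : ∀ W ∈ Ws, rep W ∈ minimalSpaces E)
    (hhome : ∀ W ∈ Ws, F ∈ homeFields (rep W) ∧ ∀ F' ∈ homeFields (rep W), F' ≤ F → F ≤ F')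
    (hne : ∀ W ∈ Ws, ∀ W' ∈ Ws, W ≠ W' →
      killers (Gal E) (rep W : Set ((E →+* ℂ) → ℚ)) ≠
        killers (Gal E) (rep W' : Set ((E →+* ℂ) → ℚ))) (ψ : F →+* ℂ)
    (h2 : ∀ W ∈ Ws, edim (Gal F) (desc F (rep W)) + codimFix (Gal F) ψ (desc F (rep W)) ≤ 2) :
    ((∑ W ∈ Ws, {Φ : Set (E →+* ℂ) | IsCMType Φ ∧ ∃ S ∈ minimalSpaces E,
      component S = component (rep W) ∧ OrthW M Φ S}.ncard : ℕ) : ℝ) ≤
      2 ^ (m * g) * (3 * K * (n : ℝ) ^ 2 * (numCM F * galFactor F) *
        ((1 + Real.log g) ^ 3 / √(m * g))) := by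
  classical
  obtain ⟨c, hc, hcc, hcen⟩ := exists_conj F
  have hg0 : 0 < g := by
    have := Module.finrank_pos (R := ℚ) (M := F)
    omega
  have hm0 : 0 < m := Nat.pos_of_ne_zero (NeZero.ne m)
  have hgR : (0 : ℝ) < g := by exact_mod_cast hg0
  have hmR : (0 : ℝ) < m := by exact_mod_cast hm0
  have hg1 : (1 : ℝ) ≤ g := by exact_mod_cast hg0
  have hm1 : (1 : ℝ) ≤ m := by exact_mod_cast hm0
  have hn1 : 1 ≤ n := Nat.pos_of_ne_zero hn0
  have hn1R : (1 : ℝ) ≤ n := by exact_mod_cast hn1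
  have hlog : 0 ≤ Real.log g := Real.log_nonneg hg1
  have hmgR : (0 : ℝ) < (m : ℝ) * g := by positivity
  have hsq : 0 < √((m : ℝ) * g) := Real.sqrt_pos.2 hmgR
  have hfun : (fun ψ : F →+* ℂ => c • ψ) = ComplexEmbedding.conjugate (K := F) := funext hc
  have hminF : ∀ S ∈ minimalSpaces F, S ∈ MinInv (Gal F) (fun ψ : F →+* ℂ => c • ψ) := by
    intro S hS
    rw [hfun]
    exact (minInv_iff S).2 hS
  have hfree : ∀ φ : F →+* ℂ, c • φ ≠ φ := fun φ => by
    rw [hc]
    exact conj_ne φ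
  have hd : ∀ W ∈ Ws, desc F (rep W) ∈ minimalSpaces F := fun W hW =>
    (hdesc E F (rep W) (hrep W hW) ((hhome W hW).1 _ (hrep W hW) rfl)).1
  have hcard : Fintype.card (F →+* ℂ) = 2 * g := by rw [Embeddings.card, hgF]
  have hfaith : ∀ W ∈ Ws, Faith (Gal F) (desc F (rep W)) := fun W hW =>
    faith_desc hcorr hdesc E F (hrep W hW) (hhome W hW).1 (hhome W hW).2
  have hcs := card_stab_mul (G := Gal F) hcard ψ
  have hkne : ∀ W ∈ Ws, ∀ W' ∈ Ws, W ≠ W' →
      killers (Gal F) (desc F (rep W) : Set ((F →+* ℂ) → ℚ)) ≠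
        killers (Gal F) (desc F (rep W') : Set ((F →+* ℂ) → ℚ)) := by
    intro W hW W' hW' hWW heq
    exact hne W hW W' hW' hWW (hdesc2 E F (rep W) (rep W') (hrep W hW) (hrep W' hW')
      ((hhome W hW).1 _ (hrep W hW) rfl) ((hhome W' hW').1 _ (hrep W' hW') rfl) heq)
  have hpos : (0 : ℝ) ≤ 2 ^ (m * g) * (3 * K * (n : ℝ) ^ 2 * (numCM F * galFactor F) *
        ((1 + Real.log g) ^ 3 / √(m * g))) := by
    have := one_le_galFactor F
    positivity
  rcases Ws.eq_empty_or_nonempty with hemp | ⟨W₀, hW₀⟩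
  · rw [hemp, sum_empty, Nat.cast_zero]
    exact hpos
  have hstab : Nat.card (MulAction.stabilizer (Gal F) ψ) = 1 ∨
      Nat.card (MulAction.stabilizer (Gal F) ψ) = 2 := by
    have h0 : 0 < Nat.card (MulAction.stabilizer (Gal F) ψ) := Nat.card_pos
    by_contra hcon
    have h3 : 3 ≤ Nat.card (MulAction.stabilizer (Gal F) ψ) := by omega
    have h4 := codim_ge_two (hminF _ (hd W₀ hW₀)).2.1 (hfaith W₀ hW₀) ψ h3
    have h5 := h2 W₀ hW₀
    have h6 : 0 < edim (Gal F) (desc F (rep W₀)) := edim_pos (hd W₀ hW₀).1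
    unfold codimFix at h5
    omega
  have hGc : Nat.card (Gal F) ≤ 4 * g := by
    rcases hstab with h | h <;> rw [h] at hcs <;> omega
  -- the bound for one class
  have hone : ∀ W ∈ Ws, finrank ℚ (desc F (rep W)) ^ 2 ≤ 2 * g →
      (({Φ : Set (E →+* ℂ) | IsCMType Φ ∧ ∃ S ∈ minimalSpaces E,
      component S = component (rep W) ∧ OrthW M Φ S}.ncard : ℕ) : ℝ) / 2 ^ (m * g) ≤ 1 ∧
      (({Φ : Set (E →+* ℂ) | IsCMType Φ ∧ ∃ S ∈ minimalSpaces E,
      component S = component (rep W) ∧ OrthW M Φ S}.ncard : ℕ) : ℝ) / 2 ^ (m * g) ≤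
      √(K * (n : ℝ) ^ 2 * (1 + Real.log g) ^ 3 * finrank ℚ (desc F (rep W)) / (m * g)) ^
        (edim (Gal F) (desc F (rep W)) + codimFix (Gal F) ψ (desc F (rep W))) := by
    intro W hW hd2
    obtain ⟨M', D, hle⟩ := ncard_types_le_cntO hdesc hbij E F hgF hgE M hn0 hMn hMc (hrep W hW)
      (hhome W hW).1 hc hcc hcen
    have hS := hminF _ (hd W hW)
    have hd0 : 1 ≤ finrank ℚ (desc F (rep W)) := by
      rw [Nat.one_le_iff_ne_zero]
      intro h
      exact hS.1 (Submodule.finrank_eq_zero.1 h)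
    have hpow : (0 : ℝ) < 2 ^ (m * g) := by positivity
    have hN1 : (({Φ : Set (E →+* ℂ) | IsCMType Φ ∧ ∃ S ∈ minimalSpaces E,
        component S = component (rep W) ∧ OrthW M Φ S}.ncard : ℕ) : ℝ) / 2 ^ (m * g) ≤ 1 := by
      rw [div_le_one hpow]
      obtain ⟨p1, -⟩ := hP (Gal F) (F →+* ℂ) c m ψ _ hS
      refine (Nat.cast_le.2 (hle.trans (cntO_le_cntP hP M' c hS ψ))).trans ?_
      exact ncard_class_le_two_pow M' D.cc' D.free' D.card' _
    refine ⟨hN1, hK g m _ _ n (Nat.card (Gal F)) _ hn1 hm0 hd0 hg0 hd2 Nat.card_pos hGc hN1 ?_⟩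
    rw [div_le_iff₀' hpow]
    exact (Nat.cast_le.2 hle).trans (hGB (Gal F) (F →+* ℂ) m n g M' c D _ hS ψ)
  have hmul : ∀ W ∈ Ws, finrank ℚ (fixedPart (Gal F) ψ (desc F (rep W))) *
      finrank ℚ (desc F (rep W)) ≤ edim (Gal F) (desc F (rep W)) * g := fun W hW =>
    fixed_mul_le hM hcc hfree hcen hcard (hminF _ (hd W hW)) ψ
  have hΛ : (1 : ℝ) ≤ (1 + Real.log g) ^ 3 := one_le_pow₀ (by linarith)
  have hnumS : (numSub (Gal F) c ψ : ℝ) ≤ numCM F := by
    have := hsub F ψ c hc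
    exact_mod_cast this
  rw [Nat.cast_sum, ← div_le_iff₀' (by positivity : (0 : ℝ) < 2 ^ (m * g)), sum_div]
  rcases hstab with hst | hst
  · -- the normal case
    have htriv : ∀ γ : Gal F, γ • ψ = ψ → γ = 1 := by
      intro γ hγ
      rw [Nat.card_eq_one_iff_unique] at hst
      have := hst.1
      exact congrArg Subtype.val (Subsingleton.elim
        (⟨γ, hγ⟩ : MulAction.stabilizer (Gal F) ψ) 1)
    have hgal : IsGalois ℚ F := hnor F ψ htriv
    have hfix : ∀ W ∈ Ws, fixedPart (Gal F) ψ (desc F (rep W)) = desc F (rep W) := by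
      intro W hW
      refine le_antisymm (fun u hu => hu.1) fun u hu => ⟨hu, fun h hh x => ?_⟩
      rw [htriv h hh, one_smul]
    have hcod : ∀ W ∈ Ws, codimFix (Gal F) ψ (desc F (rep W)) = 0 := by
      intro W hW
      unfold codimFix
      rw [hfix W hW, Nat.sub_self]
    have hd2 : ∀ W ∈ Ws, finrank ℚ (desc F (rep W)) ^ 2 ≤ 2 * g := by
      intro W hW
      have h3 := hmul W hW
      rw [hfix W hW] at h3
      have h4 := h2 W hW
      have h5 : edim (Gal F) (desc F (rep W)) * g ≤ 2 * g := Nat.mul_le_mul_right _ (by omega)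
      nlinarith
    have hcardWs : (Ws.card : ℝ) ≤ numCM F := by
      have h3 := hq1 (Gal F) (F →+* ℂ) c Ws (fun W => desc F (rep W)) hcc hcen
        (fun W => hminF _ (hd W W.2)) (fun W W' hWW => hkne W W.2 W' W'.2
          (fun h => hWW (Subtype.ext h)))
      rw [Fintype.card_coe] at h3
      have h4 : {A : Subgroup (Gal F) | c ∉ A}.ncard = numSub (Gal F) c ψ := by
        unfold numSub
        congr 1
        ext A
        refine ⟨fun h => ⟨fun γ hγ => ?_, h⟩, fun h => h.2⟩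
        rw [htriv γ hγ]
        exact A.one_mem
      rw [h4] at h3
      refine le_trans ?_ hnumS
      exact_mod_cast h3
    have hgf := one_le_galFactor F
    have hdgal : ∀ W ∈ Ws, (finrank ℚ (desc F (rep W)) : ℝ) ≤ 2 * galFactor F ^ 2 := by
      intro W hW
      by_cases hab : IsAbelianGalois ℚ F
      · have h3 := fixed_le_edim hM F (hd W hW) ψ
        rw [hfix W hW] at h3
        have h4 := h2 W hW
        have h5 : (finrank ℚ (desc F (rep W)) : ℝ) ≤ 2 := by
          have : finrank ℚ (desc F (rep W)) ≤ 2 := by omega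
          exact_mod_cast this
        nlinarith
      · have hgF4 : galFactor F = ((2 * g : ℕ) : ℝ) ^ (1 / 4 : ℝ) := by
          unfold galFactor
          rw [if_pos ⟨hgal, hab⟩, hgF]
        have h7 : (finrank ℚ (desc F (rep W)) : ℝ) ^ 2 ≤ ((2 * g : ℕ) : ℝ) := by
          exact_mod_cast hd2 W hW
        have h8 : (((2 * g : ℕ) : ℝ) ^ (1 / 4 : ℝ)) ^ 2 = √((2 * g : ℕ) : ℝ) := by
          rw [Real.sqrt_eq_rpow, ← Real.rpow_natCast, ← Real.rpow_mul (Nat.cast_nonneg _)]
          norm_num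
        have h9 : (finrank ℚ (desc F (rep W)) : ℝ) ≤ galFactor F ^ 2 := by
          rw [hgF4, h8]
          exact Real.le_sqrt_of_sq_le h7
        nlinarith
    have hterm : ∀ W ∈ Ws, (({Φ : Set (E →+* ℂ) | IsCMType Φ ∧ ∃ S ∈ minimalSpaces E,
        component S = component (rep W) ∧ OrthW M Φ S}.ncard : ℕ) : ℝ) / 2 ^ (m * g) ≤
        2 * K * (n : ℝ) ^ 2 * galFactor F * ((1 + Real.log g) ^ 3 / √(m * g)) := by
      intro W hW
      obtain ⟨hN1, hN2⟩ := hone W hW (hd2 W hW)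
      set N := (({Φ : Set (E →+* ℂ) | IsCMType Φ ∧ ∃ S ∈ minimalSpaces E,
        component S = component (rep W) ∧ OrthW M Φ S}.ncard : ℕ) : ℝ) / 2 ^ (m * g) with hN
      set d := finrank ℚ (desc F (rep W)) with hdd
      rw [hcod W hW, add_zero] at hN2
      have he := h2 W hW
      rw [hcod W hW, add_zero] at he
      have he1 : 1 ≤ edim (Gal F) (desc F (rep W)) := edim_pos (hd W hW).1
      set x := √(K * (n : ℝ) ^ 2 * (1 + Real.log g) ^ 3 * d / (m * g)) with hx
      have hx0 : 0 ≤ x := Real.sqrt_nonneg _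
      have h3 : N ≤ x := by
        rcases Nat.lt_or_ge (edim (Gal F) (desc F (rep W))) 2 with h | h
        · have h4 : edim (Gal F) (desc F (rep W)) = 1 := by omega
          rwa [h4, pow_one] at hN2
        · have h4 : edim (Gal F) (desc F (rep W)) = 2 := by omega
          rw [h4] at hN2
          rcases le_total x 1 with h5 | h5
          · nlinarith
          · linarith
      refine h3.trans ?_
      rw [hx, Real.sqrt_div (by positivity), mul_div_assoc', div_le_div_iff_of_pos_right hsq]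
      have h6 : (d : ℝ) ≤ 2 * galFactor F ^ 2 := hdgal W hW
      refine Real.sqrt_le_iff.2 ⟨by positivity, ?_⟩
      calc K * (n : ℝ) ^ 2 * (1 + Real.log g) ^ 3 * d ≤
          K * (n : ℝ) ^ 2 * (1 + Real.log g) ^ 3 * (2 * galFactor F ^ 2) := by gcongr
        _ = (K * (n : ℝ) ^ 2 * (1 + Real.log g) ^ 3) * (2 * galFactor F ^ 2) := by ring
        _ ≤ (K * (n : ℝ) ^ 2 * (1 + Real.log g) ^ 3) ^ 2 * (4 * galFactor F ^ 2) := by
            refine mul_le_mul ?_ (by nlinarith) (by positivity) (by positivity)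
            refine le_self_pow₀ ?_ two_ne_zero
            have h9 : (1 : ℝ) ≤ (n : ℝ) ^ 2 := one_le_pow₀ hn1R
            have h10 : (1 : ℝ) ≤ K * (n : ℝ) ^ 2 := by nlinarith
            nlinarith
        _ = _ := by ring
    refine (sum_le_sum hterm).trans ?_
    rw [sum_const, nsmul_eq_mul]
    have hX : (0 : ℝ) ≤ 2 * K * (n : ℝ) ^ 2 * galFactor F *
        ((1 + Real.log g) ^ 3 / √(m * g)) := by
      positivity
    calc (Ws.card : ℝ) * (2 * K * (n : ℝ) ^ 2 * galFactor F *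
          ((1 + Real.log g) ^ 3 / √(m * g))) ≤
        numCM F * (2 * K * (n : ℝ) ^ 2 * galFactor F * ((1 + Real.log g) ^ 3 / √(m * g))) := by
          gcongr
      _ = 2 * (numCM F * (K * (n : ℝ) ^ 2 * galFactor F *
            ((1 + Real.log g) ^ 3 / √(m * g)))) := by ring
      _ ≤ 3 * (numCM F * (K * (n : ℝ) ^ 2 * galFactor F *
            ((1 + Real.log g) ^ 3 / √(m * g)))) := by
          have : (0 : ℝ) ≤ numCM F * (K * (n : ℝ) ^ 2 * galFactor F *
            ((1 + Real.log g) ^ 3 / √(m * g))) := by positivity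
          linarith
      _ = _ := by ring
  · -- the case of a reflection
    obtain ⟨s, hs1, hs2⟩ : ∃ s : Gal F, s ≠ 1 ∧ ∀ γ : Gal F, γ • ψ = ψ ↔ γ = 1 ∨ γ = s := by
      obtain ⟨a, b, hab, huniv⟩ := Nat.card_eq_two_iff.1 hst
      have hmem : ∀ γ : MulAction.stabilizer (Gal F) ψ, γ = a ∨ γ = b := by
        intro γ
        have : γ ∈ ({a, b} : Set (MulAction.stabilizer (Gal F) ψ)) := by
          rw [huniv]
          trivial
        exact this
      rcases hmem 1 with h | h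
      · refine ⟨b, fun hb => hab ?_, fun γ => ⟨fun hγ => ?_, ?_⟩⟩
        · apply Subtype.ext
          rw [hb, ← h]
          rfl
        · rcases hmem ⟨γ, hγ⟩ with h' | h'
          · left
            rw [← h] at h'
            exact congrArg Subtype.val h'
          · right
            exact congrArg Subtype.val h'
        · rintro (rfl | rfl)
          · exact one_smul _ _
          · exact b.2
      · refine ⟨a, fun hb => hab ?_, fun γ => ⟨fun hγ => ?_, ?_⟩⟩
        · apply Subtype.ext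
          rw [hb, ← h]
          rfl
        · rcases hmem ⟨γ, hγ⟩ with h' | h'
          · right
            exact congrArg Subtype.val h'
          · left
            rw [← h] at h'
            exact congrArg Subtype.val h'
        · rintro (rfl | rfl)
          · exact one_smul _ _
          · exact a.2
    have hcod1 : ∀ W ∈ Ws, codimFix (Gal F) ψ (desc F (rep W)) ≤ 1 := by
      intro W hW
      have h3 := h2 W hW
      have h4 : 1 ≤ edim (Gal F) (desc F (rep W)) := edim_pos (hd W hW).1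
      omega
    have hcod0 : ∀ W ∈ Ws, codimFix (Gal F) ψ (desc F (rep W)) ≠ 0 := by
      intro W hW h0
      unfold codimFix at h0
      have hle : fixedPart (Gal F) ψ (desc F (rep W)) ≤ desc F (rep W) := fun u hu => hu.1
      have h3 := Submodule.finrank_mono hle
      have h4 : fixedPart (Gal F) ψ (desc F (rep W)) = desc F (rep W) :=
        Submodule.eq_of_le_of_finrank_eq hle (by omega)
      apply hs1
      apply hfaith W hW
      intro u hu x
      rw [← h4] at hu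
      exact hu.2 s ((hs2 s).2 (Or.inr rfl)) x
    have hdata : ∀ W ∈ Ws, edim (Gal F) (desc F (rep W)) = 1 ∧
        codimFix (Gal F) ψ (desc F (rep W)) = 1 ∧
        finrank ℚ (fixedPart (Gal F) ψ (desc F (rep W))) + 1 = finrank ℚ (desc F (rep W)) ∧
        1 ≤ finrank ℚ (fixedPart (Gal F) ψ (desc F (rep W))) := by
      intro W hW
      have h3 := h2 W hW
      have h4 : 1 ≤ edim (Gal F) (desc F (rep W)) := edim_pos (hd W hW).1
      have h5 := hcod1 W hW
      have h6 := hcod0 W hW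
      have h7 : edim (Gal F) (desc F (rep W)) ≤
          finrank ℚ (fixedPart (Gal F) ψ (desc F (rep W))) :=
        edim_le hcc hcen ψ (hminF _ (hd W hW)).2.1 (hminF _ (hd W hW)).2.2.1
      have h8 : codimFix (Gal F) ψ (desc F (rep W)) = 1 := by omega
      have h9 := h8
      unfold codimFix at h9
      refine ⟨by omega, h8, by omega, by omega⟩
    have hd2 : ∀ W ∈ Ws, finrank ℚ (desc F (rep W)) ^ 2 ≤ 2 * g := by
      intro W hW
      obtain ⟨h3, h4, h5, h6⟩ := hdata W hW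
      have h7 := hmul W hW
      rw [h3, one_mul] at h7
      rw [← h5] at h7 ⊢
      nlinarith
    have hcardWs : (Ws.card : ℝ) ≤ 4 * (numCM F : ℝ) ^ 2 := by
      have h3 := hq2 (Gal F) (F →+* ℂ) c s ψ Ws (fun W => desc F (rep W)) hcc hcen hfree hs2 hs1
        (fun W => hminF _ (hd W W.2)) (fun W W' hWW => hkne W W.2 W' W'.2
          (fun h => hWW (Subtype.ext h))) (fun W => hfaith W W.2) (fun W => hcod1 W W.2)
      rw [Fintype.card_coe] at h3
      have h4 : (Ws.card : ℝ) ≤ 4 * (numSub (Gal F) c ψ : ℝ) ^ 2 := by exact_mod_cast h3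
      refine h4.trans ?_
      gcongr
    have hterm : ∀ W ∈ Ws, (({Φ : Set (E →+* ℂ) | IsCMType Φ ∧ ∃ S ∈ minimalSpaces E,
        component S = component (rep W) ∧ OrthW M Φ S}.ncard : ℕ) : ℝ) / 2 ^ (m * g) ≤
        K * (n : ℝ) ^ 2 * (1 + Real.log g) ^ 3 / (m * g) * finrank ℚ (desc F (rep W)) := by
      intro W hW
      obtain ⟨hN1, hN2⟩ := hone W hW (hd2 W hW)
      obtain ⟨h3, h4, h5, h6⟩ := hdata W hW
      rw [h3, h4, Real.sq_sqrt (by positivity)] at hN2
      refine hN2.trans (le_of_eq ?_)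
      ring
    refine (sum_le_sum hterm).trans ?_
    rw [← mul_sum]
    have hsumd : ∑ W ∈ Ws, (finrank ℚ (desc F (rep W)) : ℝ) ^ 2 ≤ 2 * g := by
      have h3 := sum_mult_le hM hdim hdesc hdesc2 E F hgF Ws rep hrep hhome hne ψ
      have h4 : ∀ W ∈ Ws, (finrank ℚ (desc F (rep W)) : ℝ) ^ 2 ≤
          2 * ((finrank ℚ (fixedPart (Gal F) ψ (desc F (rep W))) : ℝ) *
            finrank ℚ (desc F (rep W)) / edim (Gal F) (desc F (rep W))) := by
        intro W hW
        obtain ⟨h5, h6, h7, h8⟩ := hdata W hW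
        rw [h5, Nat.cast_one, div_one]
        have h9 : (finrank ℚ (desc F (rep W)) : ℝ) =
            finrank ℚ (fixedPart (Gal F) ψ (desc F (rep W))) + 1 := by
          rw [← h7]
          push_cast
          rfl
        rw [h9]
        have h10 : (1 : ℝ) ≤ finrank ℚ (fixedPart (Gal F) ψ (desc F (rep W))) := by
          exact_mod_cast h8
        nlinarith
      calc ∑ W ∈ Ws, (finrank ℚ (desc F (rep W)) : ℝ) ^ 2 ≤
          ∑ W ∈ Ws, 2 * ((finrank ℚ (fixedPart (Gal F) ψ (desc F (rep W))) : ℝ) *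
            finrank ℚ (desc F (rep W)) / edim (Gal F) (desc F (rep W))) := sum_le_sum h4
        _ = 2 * ∑ W ∈ Ws, ((finrank ℚ (fixedPart (Gal F) ψ (desc F (rep W))) : ℝ) *
            finrank ℚ (desc F (rep W)) / edim (Gal F) (desc F (rep W))) := by rw [mul_sum]
        _ ≤ 2 * g := by linarith
    have hsum1 : ∑ W ∈ Ws, (finrank ℚ (desc F (rep W)) : ℝ) ≤ 3 * numCM F * √g := by
      have h3 := sq_sum_le_card_mul_sum_sq (s := Ws)
        (f := fun W => (finrank ℚ (desc F (rep W)) : ℝ))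
      have h4 : (∑ W ∈ Ws, (finrank ℚ (desc F (rep W)) : ℝ)) ^ 2 ≤ (3 * numCM F * √g) ^ 2 := by
        refine h3.trans ?_
        rw [mul_pow, mul_pow, Real.sq_sqrt hgR.le]
        calc (Ws.card : ℝ) * ∑ W ∈ Ws, (finrank ℚ (desc F (rep W)) : ℝ) ^ 2 ≤
            (4 * (numCM F : ℝ) ^ 2) * (2 * g) := by gcongr
          _ ≤ _ := by nlinarith [mul_nonneg (sq_nonneg (numCM F : ℝ)) hgR.le]
      exact (sq_le_sq₀ (sum_nonneg fun _ _ => Nat.cast_nonneg _) (by positivity)).1 h4
    have hgf := one_le_galFactor F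
    have hsg : √(g : ℝ) ≤ √((m : ℝ) * g) := Real.sqrt_le_sqrt (by nlinarith)
    have hX : (0 : ℝ) ≤ K * (n : ℝ) ^ 2 * (1 + Real.log g) ^ 3 / (m * g) := by positivity
    calc K * (n : ℝ) ^ 2 * (1 + Real.log g) ^ 3 / (m * g) *
          ∑ W ∈ Ws, (finrank ℚ (desc F (rep W)) : ℝ) ≤
        K * (n : ℝ) ^ 2 * (1 + Real.log g) ^ 3 / (m * g) * (3 * numCM F * √((m : ℝ) * g)) := by
          refine mul_le_mul_of_nonneg_left (hsum1.trans ?_) hX
          gcongr
      _ = 3 * K * (n : ℝ) ^ 2 * (numCM F * 1) * ((1 + Real.log g) ^ 3 / √(m * g)) := by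
          have h5 : (m : ℝ) * g = √((m : ℝ) * g) * √((m : ℝ) * g) :=
            (Real.mul_self_sqrt hmgR.le).symm
          have h6 : √((m : ℝ) * g) ≠ 0 := hsq.ne'
          rw [show K * (n : ℝ) ^ 2 * (1 + Real.log g) ^ 3 / ((m : ℝ) * g) =
            K * (n : ℝ) ^ 2 * (1 + Real.log g) ^ 3 / (√((m : ℝ) * g) * √((m : ℝ) * g)) by
              rw [← h5]]
          field_simp
      _ ≤ _ := by gcongr

end Pool.Agent.Y1.KN
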