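import Mathlib
import Pool.Agent.Y1.KN.Field4

/-!
# The number of the degenerate types of a CM field: the sum over the fields of definition
-/

set_option linter.unusedSectionVars false
set_option linter.unusedVariables false

namespace Pool.Agent.Y1.KN

open NumberField Finset Module Pool.Agent.H204R3.CM Pool.Agent.TH170.MF Pool.Agent.TH170.QC
  Pool.Agent.TH170.QE Pool.Agent.TH170.FW Pool.Agent.TH170.CM Pool.Agent.TH170.GC

/-- The bound in terms of the fields of definition and their CM subfields. -/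
def P_field_bound4 : Prop :=
  ∃ C : ℝ, 0 ≤ C ∧ ∀ (E : Type) [Field E] [NumberField E] [IsCMField E] (M : (E →+* ℂ) → ℤ)
    (n g : ℕ), n ≠ 0 → (∀ φ, M φ ∣ (n : ℤ)) → (∀ φ, M (ComplexEmbedding.conjugate φ) = M φ) →
    finrank ℚ E = 2 * g →
    ((degTypes M).ncard : ℝ) ≤
      2 ^ g * ((n : ℝ) ^ 2 / √g * ∑ᶠ F ∈ defFields E,
        C * (numCM F * galFactor F * (1 + Real.log (finrank ℚ F)) ^ 16))

theorem field_bound4 (hM : P_mult) (hFa : P_faith3) (hN7 : P_num7)
    (hGB : P_genB) (hP : P_prod) (hq1 : P_q1) (hq2 : P_q2) (hsub : P_sub) (hnor : P_normal)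
    (hcorr : P_corr) (hdim : P_dim)
    (hcm : P_cm) (hbij : P_bij) (hdesc : P_desc) (hdesc2 : P_desc2) :
    P_field_bound4 := by
  classical
  obtain ⟨C, hC0, hC⟩ := hFa
  obtain ⟨K, hK1, hK⟩ := hN7
  refine ⟨C + 3 * K, by positivity, ?_⟩
  intro E _ _ _ M n g hn0 hMn hMc hg
  have hg0 : 0 < g := by
    have := Module.finrank_pos (R := ℚ) (M := E)
    omega
  have hgR : (0 : ℝ) < g := by exact_mod_cast hg0
  have hsq : 0 < √(g : ℝ) := Real.sqrt_pos.2 hgR
  -- the components and the representatives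
  have hfin := finite_components (E := E)
  have hrep : ∀ W : Submodule ℚ ((E →+* ℂ) → ℚ), ∃ S, W ∈ components E →
      S ∈ minimalSpaces E ∧ component S = W := by
    intro W
    by_cases hW : W ∈ components E
    · obtain ⟨S, hS, hSW⟩ := hW
      exact ⟨S, fun _ => ⟨hS, hSW⟩⟩
    · exact ⟨⊥, fun h => absurd h hW⟩
  choose rep hrep using hrep
  set cnt : Submodule ℚ ((E →+* ℂ) → ℚ) → ℕ := fun W => {Φ : Set (E →+* ℂ) | IsCMType Φ ∧
      ∃ S ∈ minimalSpaces E, component S = W ∧ OrthW M Φ S}.ncard with hcnt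
  have hkne : ∀ W ∈ components E, ∀ W' ∈ components E, W ≠ W' →
      killers (Gal E) ((rep W : Submodule ℚ ((E →+* ℂ) → ℚ)) : Set ((E →+* ℂ) → ℚ)) ≠
      killers (Gal E) ((rep W' : Submodule ℚ ((E →+* ℂ) → ℚ)) : Set ((E →+* ℂ) → ℚ)) := by
    intro W hW W' hW' hne h
    apply hne
    rw [← (hrep W hW).2, ← (hrep W' hW').2]
    exact component_congr h
  -- the total number
  have htot : (degTypes M).ncard ≤ ∑ W ∈ hfin.toFinset, cnt W := by
    have h1 : degTypes M ⊆ ⋃ W ∈ hfin.toFinset, {Φ : Set (E →+* ℂ) | IsCMType Φ ∧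
        ∃ S ∈ minimalSpaces E, component S = W ∧ OrthW M Φ S} := by
      rintro Φ ⟨hΦ, S, hS, hmem⟩
      exact Set.mem_biUnion (hfin.mem_toFinset.2 ⟨S, hS, rfl⟩) ⟨hΦ, S, hS, rfl, hmem⟩
    refine (Set.ncard_le_ncard h1 (Set.toFinite _)).trans ?_
    exact Finset.set_ncard_biUnion_le _ _
  -- the smallest home fields
  have hhome : ∀ W : Submodule ℚ ((E →+* ℂ) → ℚ), ∃ F : IntermediateField ℚ E,
      W ∈ components E → F ∈ homeFields (rep W) ∧
        ∀ F' ∈ homeFields (rep W), F' ≤ F → F ≤ F' := by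
    intro W
    obtain ⟨F, -, hF⟩ := (Set.toFinite (homeFields (rep W))).exists_le_minimal
      (top_mem_homeFields (rep W))
    exact ⟨F, fun _ => ⟨hF.1, fun F' h h' => hF.2 h h'⟩⟩
  choose home hhome using hhome
  have hdef : ∀ W ∈ components E, home W ∈ defFields E := fun W hW =>
    ⟨rep W, (hrep W hW).1, hhome W hW⟩
  have hfinD : (defFields E).Finite := Set.toFinite _
  -- one field
  have hone : ∀ F ∈ hfinD.toFinset,
      ((∑ W ∈ hfin.toFinset.filter (fun W => home W = F), cnt W : ℕ) : ℝ) ≤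
      2 ^ g * ((n : ℝ) ^ 2 / √g * ((C + 3 * K) *
        (numCM F * galFactor F * (1 + Real.log (finrank ℚ F)) ^ 16))) := by
    intro F hF
    obtain ⟨S, hS, hSF, -⟩ := hfinD.mem_toFinset.1 hF
    have hcmF : IsCMField F := hcm E F (exists_not_real hS (hSF S hS rfl))
    obtain ⟨gF, hgF⟩ := finrank_even F
    have hmul : finrank ℚ F * finrank F E = finrank ℚ E := finrank_mul_finrank ℚ F E
    set m := finrank F E with hm
    have hm0 : m ≠ 0 := by
      rintro h0
      rw [h0, mul_zero, hg] at hmul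
      omega
    have : NeZero m := ⟨hm0⟩
    have hgm : g = m * gF := by
      rw [hgF, hg] at hmul
      have : 2 * (m * gF) = 2 * g := by rw [← hmul]; ring
      omega
    have hgF0 : 0 < gF := by
      rcases Nat.eq_zero_or_pos gF with h0 | h0
      · rw [h0, mul_zero] at hgm
        omega
      · exact h0
    have hgFR : (0 : ℝ) < gF := by exact_mod_cast hgF0
    have hgF1 : (1 : ℝ) ≤ gF := by exact_mod_cast hgF0
    obtain ⟨ψ⟩ : Nonempty (F →+* ℂ) := inferInstance
    have hmg : ((m : ℝ) * gF) = g := by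
      rw [hgm]
      push_cast
      ring
    set B := hfin.toFinset.filter (fun W => home W = F) with hB
    have hBmem : ∀ W ∈ B, W ∈ components E ∧ home W = F := by
      intro W hW
      rw [hB, mem_filter, hfin.mem_toFinset] at hW
      exact hW
    set B₁ := B.filter (fun W => 3 ≤ edim (Gal F) (desc F (rep W)) +
      codimFix (Gal F) ψ (desc F (rep W))) with hB₁
    set B₂ := B.filter (fun W => ¬ 3 ≤ edim (Gal F) (desc F (rep W)) +
      codimFix (Gal F) ψ (desc F (rep W))) with hB₂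
    have hB₁mem : ∀ W ∈ B₁, W ∈ B := fun W hW => (mem_filter.1 hW).1
    have hB₂mem : ∀ W ∈ B₂, W ∈ B := fun W hW => (mem_filter.1 hW).1
    have hsplit : ∑ W ∈ B, cnt W = ∑ W ∈ B₁, cnt W + ∑ W ∈ B₂, cnt W := by
      rw [hB₁, hB₂, sum_filter_add_sum_filter_not]
    have hcntW : ∀ T : Finset (Submodule ℚ ((E →+* ℂ) → ℚ)), (∀ W ∈ T, W ∈ B) →
        ∑ W ∈ T, cnt W = ∑ W ∈ T, {Φ : Set (E →+* ℂ) | IsCMType Φ ∧
          ∃ S ∈ minimalSpaces E, component S = component (rep W) ∧ OrthW M Φ S}.ncard := by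
      intro T hT
      refine sum_congr rfl fun W hW => ?_
      rw [(hrep W (hBmem W (hT W hW)).1).2]
    have h1 := main_part hM hC0 hC hcorr hdim hbij hdesc hdesc2 E F (m := m)
      hgF (by rw [hg, hgm]) M hn0 hMn hMc B₁ rep
      (fun W hW => (hrep W (hBmem W (hB₁mem W hW)).1).1)
      (fun W hW => by
        rw [← (hBmem W (hB₁mem W hW)).2]
        exact hhome W (hBmem W (hB₁mem W hW)).1)
      (fun W hW W' hW' hne => hkne W (hBmem W (hB₁mem W hW)).1 W'
        (hBmem W' (hB₁mem W' hW')).1 hne) ψ (fun W hW => (mem_filter.1 hW).2)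
    have h2 := exc_part hM hK1 hK hGB hP hq1 hq2 hsub hnor hcorr hdim hbij hdesc hdesc2 E F
      (m := m) hgF (by rw [hg, hgm]) M hn0 hMn hMc B₂ rep
      (fun W hW => (hrep W (hBmem W (hB₂mem W hW)).1).1)
      (fun W hW => by
        rw [← (hBmem W (hB₂mem W hW)).2]
        exact hhome W (hBmem W (hB₂mem W hW)).1)
      (fun W hW W' hW' hne => hkne W (hBmem W (hB₂mem W hW)).1 W'
        (hBmem W' (hB₂mem W' hW')).1 hne) ψ (fun W hW => by
          have := (mem_filter.1 hW).2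
          omega)
    rw [← hcntW B₁ hB₁mem, ← hgm, hmg] at h1
    rw [← hcntW B₂ hB₂mem, ← hgm, hmg] at h2
    rw [hsplit, Nat.cast_add]
    refine (add_le_add h1 h2).trans ?_
    have hl1 : 0 ≤ Real.log gF := Real.log_nonneg hgF1
    have hl2 : Real.log gF ≤ Real.log ((finrank ℚ F : ℕ) : ℝ) := by
      refine Real.log_le_log hgFR ?_
      rw [hgF]
      push_cast
      linarith
    have hgf := one_le_galFactor F
    have hnc : (1 : ℝ) ≤ numCM F := by exact_mod_cast one_le_numCM F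
    have hw : (1 : ℝ) ≤ numCM F * galFactor F := by nlinarith
    set Λ := 1 + Real.log ((finrank ℚ F : ℕ) : ℝ) with hΛ
    have hΛ1 : (1 : ℝ) ≤ Λ := by linarith
    have h3 : (1 + Real.log gF) ^ 16 ≤ Λ ^ 16 :=
      pow_le_pow_left₀ (by linarith) (by linarith : 1 + Real.log gF ≤ Λ) 16
    have h4 : (1 + Real.log gF) ^ 3 ≤ Λ ^ 16 :=
      (pow_le_pow_left₀ (by linarith) (by linarith : 1 + Real.log gF ≤ Λ) 3).trans
        (pow_le_pow_right₀ hΛ1 (by norm_num))
    have hΛ0 : (0 : ℝ) ≤ Λ ^ 16 / √g := by positivity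
    have e1 : (1 + Real.log gF) ^ 16 / √g ≤ Λ ^ 16 / √g := div_le_div_of_nonneg_right h3 hsq.le
    have e2 : (1 + Real.log gF) ^ 3 / √g ≤ Λ ^ 16 / √g := div_le_div_of_nonneg_right h4 hsq.le
    have f1 : (2 : ℝ) ^ g * (C * (n : ℝ) ^ 2 * ((1 + Real.log gF) ^ 16 / √g)) ≤
        2 ^ g * (C * (n : ℝ) ^ 2 * (Λ ^ 16 / √g) * (numCM F * galFactor F)) := by
      refine mul_le_mul_of_nonneg_left ?_ (by positivity)
      calc C * (n : ℝ) ^ 2 * ((1 + Real.log gF) ^ 16 / √g) ≤
          C * (n : ℝ) ^ 2 * (Λ ^ 16 / √g) := mul_le_mul_of_nonneg_left e1 (by positivity)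
        _ = C * (n : ℝ) ^ 2 * (Λ ^ 16 / √g) * 1 := (mul_one _).symm
        _ ≤ _ := mul_le_mul_of_nonneg_left hw (by positivity)
    have f2 : (2 : ℝ) ^ g * (3 * K * (n : ℝ) ^ 2 * (numCM F * galFactor F) *
          ((1 + Real.log gF) ^ 3 / √g)) ≤
        2 ^ g * (3 * K * (n : ℝ) ^ 2 * (numCM F * galFactor F) * (Λ ^ 16 / √g)) :=
      mul_le_mul_of_nonneg_left (mul_le_mul_of_nonneg_left e2 (by positivity)) (by positivity)
    refine (add_le_add f1 f2).trans (le_of_eq ?_)
    ring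
  have hsum : ((∑ W ∈ hfin.toFinset, cnt W : ℕ) : ℝ) ≤ 2 ^ g * ((n : ℝ) ^ 2 / √g *
      ∑ᶠ F ∈ defFields E, (C + 3 * K) *
        (numCM F * galFactor F * (1 + Real.log (finrank ℚ F)) ^ 16)) := by
    rw [← sum_fiberwise_of_maps_to (s := hfin.toFinset) (t := hfinD.toFinset) (g := home)
      (fun W hW => hfinD.mem_toFinset.2 (hdef W (hfin.mem_toFinset.1 hW))), Nat.cast_sum,
      finsum_mem_eq_finite_toFinset_sum _ hfinD, mul_sum, mul_sum]
    exact sum_le_sum hone
  exact (Nat.cast_le.2 htot).trans hsum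

end Pool.Agent.Y1.KN
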