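import Mathlib
import Pool.Agent.Y1.KN.Defs
import Pool.Agent.Y1.KN.Field3
import Pool.Agent.TH170.QD.Bridge

/-!
# The fields of definition
-/

set_option linter.unusedSectionVars false
set_option linter.unusedVariables false

namespace Pool.Agent.Y1.KN

open NumberField Finset Module Pool.Agent.H204R3.CM Pool.Agent.TH170.MF Pool.Agent.TH170.QC
  Pool.Agent.TH170.QE Pool.Agent.TH170.FW Pool.Agent.TH170.CM Pool.Agent.TH170.GC

variable {E : Type*} [Field E] [NumberField E]

variable [IsCMField E]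

theorem isStable_resSpace (F : IntermediateField ℚ E) : IsStable (resSpace F) := by
  rintro σ u ⟨h1, h2⟩
  refine ⟨fun φ => ?_, fun φ ψ h => h2 _ _ fun x hx => ?_⟩
  · change u ((σ : ℂ →+* ℂ).comp (ComplexEmbedding.conjugate φ)) = - u ((σ : ℂ →+* ℂ).comp φ)
    rw [comp_conj, h1]
  · change σ (φ x) = σ (ψ x)
    rw [h x hx]

/-- All functions in the component come from a home field. -/
theorem component_le_resSpace {S : Submodule ℚ ((E →+* ℂ) → ℚ)} (hS : S ∈ minimalSpaces E)
    {F : IntermediateField ℚ E} (hF : F ∈ homeFields S) : Pool.Agent.TH170.QC.component S ≤ resSpace F := by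
  classical
  obtain ⟨c, hc, hcc, hcen⟩ := Pool.Agent.TH170.QC.exists_conj E
  have hfun : (fun φ : E →+* ℂ => c • φ) = ComplexEmbedding.conjugate (K := E) := funext hc
  by_contra hnle
  obtain ⟨u, hu, huR⟩ := SetLike.not_le_iff_exists.1 hnle
  set W' := Pool.Agent.TH170.QC.component S ⊓ resSpace F with hW'
  have hW'i : Invariant (Gal E) W' := by
    rintro γ w ⟨h1, h2⟩
    exact ⟨(invariant_iff _).2 (Pool.Agent.TH170.QC.isStable_component S) γ w h1,
      (invariant_iff _).2 (isStable_resSpace F) γ w h2⟩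
  let S₁ := Pool.Agent.TH170.QC.component S ⊓ (dot (E →+* ℂ)).orthogonal W'
  have hS₁0 : S₁ ≠ ⊥ := by
    rw [Submodule.ne_bot_iff]
    refine ⟨u - proj W' u, ⟨Submodule.sub_mem _ hu (proj_mem W' u).1,
      sub_proj_mem W' u⟩, ?_⟩
    intro h
    apply huR
    rw [sub_eq_zero] at h
    rw [h]
    exact (proj_mem W' u).2
  have hS₁i : Invariant (Gal E) S₁ := by
    rintro γ s ⟨h1, h2⟩
    refine ⟨(invariant_iff _).2 (Pool.Agent.TH170.QC.isStable_component S) γ s h1, ?_⟩
    rw [SetLike.mem_coe, mem_orth] at h2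
    change (fun x => s (γ • x)) ∈ (dot (E →+* ℂ)).orthogonal W'
    rw [mem_orth]
    intro t ht
    have h3 := h2 _ (hW'i γ⁻¹ t ht)
    rw [← Equiv.sum_comp (MulAction.toPerm γ)] at h3
    simp only [MulAction.toPerm_apply, inv_smul_smul] at h3
    exact h3
  have hS₁o : AllOdd (fun φ : E →+* ℂ => c • φ) S₁ := by
    rw [hfun]
    exact fun s hs => hs.1.1
  obtain ⟨S', hS', hle'⟩ := exists_minInv (G := Gal E) S₁ hS₁i hS₁o hS₁0
  have hSm : S ∈ MinInv (Gal E) (fun φ : E →+* ℂ => c • φ) := by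
    rw [hfun]
    exact (minInv_iff S).2 hS
  have hK := Pool.Agent.TH170.QC.killers_eq_of_le hSm hS'
    (Pool.Agent.TH170.QC.killers_le_of_le_component fun s hs => (hle' hs).1)
  have hS'm : S' ∈ minimalSpaces E := by
    refine (minInv_iff S').1 ?_
    rw [← hfun]
    exact hS'
  have h1 := hF S' hS'm hK.symm
  apply hS'.1
  rw [eq_bot_iff]
  intro s hs
  exact (Submodule.disjoint_def.1 (isCompl_orth W').disjoint) _ ⟨(hle' hs).1, h1 hs⟩ (hle' hs).2

theorem mem_homeFields_iff {S : Submodule ℚ ((E →+* ℂ) → ℚ)} (hS : S ∈ minimalSpaces E)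
    (F : IntermediateField ℚ E) :
    F ∈ homeFields S ↔ FactorsThrough (Pool.Agent.TH170.QD.component S) F := by
  rw [Pool.Agent.TH170.QD.component_eq hS]
  constructor
  · intro hF u hu
    exact (component_le_resSpace hS hF hu).2
  · intro h S' hS' hK u hu
    refine ⟨hS'.2.2.1 u hu, h u ?_⟩
    have h1 : Pool.Agent.TH170.QC.component S' = Pool.Agent.TH170.QC.component S := Pool.Agent.TH170.QC.component_congr hK
    rw [← h1]
    exact Pool.Agent.TH170.QC.le_component hS' hu

theorem defFields_eq : defFields E = fieldsOfDefinition E := by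
  ext F
  constructor
  · rintro ⟨S, hS, h1, h2⟩
    refine ⟨Pool.Agent.TH170.QD.component S, ⟨S, hS, rfl⟩, (mem_homeFields_iff hS F).1 h1, fun F' h3 h4 => ?_⟩
    exact h2 F' ((mem_homeFields_iff hS F').2 h3) h4
  · rintro ⟨_, ⟨S, hS, rfl⟩, h1, h2⟩
    exact ⟨S, hS, (mem_homeFields_iff hS F).2 h1, fun F' h3 h4 =>
      h2 ((mem_homeFields_iff hS F').1 h3) h4⟩

end Pool.Agent.Y1.KN
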