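import Mathlib
import Pool.Agent.Y1.KN.Home
import Pool.Agent.Y1.KN.Field5

/-!
# The bound in terms of the fields of definition
-/

set_option linter.unusedSectionVars false
set_option linter.unusedVariables false

namespace Pool.Agent.Y1.KN

open NumberField Finset Module Pool.Agent.H204R3.CM Pool.Agent.TH170.MF Pool.Agent.TH170.QC
  Pool.Agent.TH170.QE Pool.Agent.TH170.FW Pool.Agent.TH170.CM Pool.Agent.TH170.GC

/-- The sum of the weights of the fields of definition, with logarithms. -/
noncomputable def defWeight (E : Type*) [Field E] [NumberField E] : ℝ :=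
  ∑ᶠ F ∈ fieldsOfDefinition E,
    numCMSubfields F * galFactor F * (1 + Real.log (finrank ℚ F)) ^ 16

theorem isCM_iff (hcm : P_cm) (E : Type) [Field E] [NumberField E] [IsCMField E]
    (F : IntermediateField ℚ E) :
    IsCMField F ↔ ∃ ψ : F →+* ℂ, ComplexEmbedding.conjugate ψ ≠ ψ := by
  constructor
  · intro h
    obtain ⟨ψ⟩ : Nonempty (F →+* ℂ) := inferInstance
    exact ⟨ψ, conj_ne ψ⟩
  · exact hcm E F

theorem numCM_eq (hcm : P_cm) (E : Type) [Field E] [NumberField E] [IsCMField E] :
    numCM E = numCMSubfields E := by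
  unfold numCM numCMSubfields
  congr 1
  ext F
  exact (isCM_iff hcm E F).symm

/-- CM subfields of subfields. -/
theorem numCM_mono (E : Type) [Field E] [NumberField E] (F : IntermediateField ℚ E) :
    numCM F ≤ numCM E := by
  classical
  unfold numCM
  refine Set.ncard_le_ncard_of_injOn (fun F' : IntermediateField ℚ F => F'.map F.val) ?_ ?_
    (Set.toFinite _)
  · rintro F' ⟨ψ, hψ⟩
    let e := IntermediateField.equivMap F' F.val
    refine ⟨ψ.comp e.symm.toAlgHom.toRingHom, fun h => hψ ?_⟩
    ext x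
    have h1 := congrArg (fun f : F'.map F.val →+* ℂ => f (e x)) h
    simp only [ComplexEmbedding.conjugate_coe_eq, RingHom.comp_apply] at h1
    have h2 : e.symm.toAlgHom.toRingHom (e x) = x := e.symm_apply_apply x
    have h3 := congrArg ψ h2
    exact (congrArg (starRingEnd ℂ) h3.symm).trans (h1.trans h3)
  · intro F' _ F'' _ h
    exact IntermediateField.map_injective F.val h

theorem defFields_cm (hcm : P_cm) (E : Type) [Field E] [NumberField E] [IsCMField E] :
    ∀ F ∈ fieldsOfDefinition E, IsCMField F := by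
  intro F hF
  rw [← defFields_eq] at hF
  obtain ⟨S, hS, h1, -⟩ := hF
  exact hcm E F (exists_not_real hS (h1 S hS rfl))

/-- The sum of the weights for a field with few CM subfields. -/
theorem weight_estimate (hcm : P_cm) : WeightEstimate := by
  classical
  intro E _ _ _ D hD1 hD
  have hfin : (fieldsOfDefinition E).Finite := Set.toFinite _
  have hcmF := defFields_cm hcm E
  have hDpow : (1 : ℝ) ≤ D ^ (1 / 4 : ℝ) := Real.one_le_rpow hD1 (by norm_num)
  unfold subfieldWeight
  rw [finsum_mem_eq_finite_toFinset_sum _ hfin]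
  have hterm : ∀ F ∈ hfin.toFinset, (numCMSubfields F : ℝ) * galFactor F ≤
      numCMSubfields E * D ^ (1 / 4 : ℝ) := by
    intro F hF
    have hF' := hcmF F (hfin.mem_toFinset.1 hF)
    have h1 : (numCMSubfields F : ℝ) ≤ numCMSubfields E := by
      rw [← numCM_eq hcm E, ← numCM_eq hcm F]
      exact_mod_cast numCM_mono E F
    have h2 : galFactor F ≤ D ^ (1 / 4 : ℝ) := by
      unfold galFactor
      split_ifs with h
      · exact Real.rpow_le_rpow (Nat.cast_nonneg _) (hD F hF' h.1 h.2) (by norm_num)
      · exact hDpow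
    have h7 := one_le_galFactor F
    exact mul_le_mul h1 h2 (by linarith) (Nat.cast_nonneg _)
  refine (sum_le_sum hterm).trans ?_
  rw [sum_const, nsmul_eq_mul]
  have hcard : (hfin.toFinset.card : ℝ) ≤ numCMSubfields E := by
    rw [← Set.ncard_eq_toFinset_card _ hfin]
    have : (fieldsOfDefinition E).ncard ≤ numCMSubfields E :=
      Set.ncard_le_ncard (fun F hF => hcmF F hF) (Set.toFinite _)
    exact_mod_cast this
  calc (hfin.toFinset.card : ℝ) * (numCMSubfields E * D ^ (1 / 4 : ℝ)) ≤
      numCMSubfields E * (numCMSubfields E * D ^ (1 / 4 : ℝ)) :=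
        mul_le_mul_of_nonneg_right hcard (by positivity)
    _ = _ := by ring

/-- The logarithms. -/
theorem defWeight_le (hcm : P_cm) (E : Type) [Field E] [NumberField E] [IsCMField E] {g : ℕ}
    (hg : finrank ℚ E = 2 * g) :
    defWeight E ≤ (1 + Real.log (2 * g)) ^ 16 * subfieldWeight E := by
  classical
  have hfin : (fieldsOfDefinition E).Finite := Set.toFinite _
  have hcmF := defFields_cm hcm E
  unfold defWeight subfieldWeight
  rw [finsum_mem_eq_finite_toFinset_sum _ hfin, finsum_mem_eq_finite_toFinset_sum _ hfin, mul_sum]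
  refine sum_le_sum fun F hF => ?_
  have hF' := hcmF F (hfin.mem_toFinset.1 hF)
  have hF0 : 0 < finrank ℚ F := Module.finrank_pos
  have hF1 : (1 : ℝ) ≤ finrank ℚ F := by exact_mod_cast hF0
  have hlogF : 0 ≤ Real.log (finrank ℚ F) := Real.log_nonneg hF1
  have h3 : Real.log (finrank ℚ F) ≤ Real.log (2 * g) := by
    refine Real.log_le_log (by linarith) ?_
    have h4 : finrank ℚ F ≤ 2 * g := by
      have h5 : finrank ℚ F * finrank F E = finrank ℚ E := finrank_mul_finrank ℚ F E
      have h6 : 0 < finrank F E := Module.finrank_pos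
      nlinarith
    exact_mod_cast h4
  have h7 := one_le_galFactor F
  have h8 : (1 + Real.log (finrank ℚ F)) ^ 16 ≤ (1 + Real.log (2 * g)) ^ 16 :=
    pow_le_pow_left₀ (by linarith) (by linarith) 16
  rw [mul_comm]
  exact mul_le_mul_of_nonneg_right h8 (by positivity)

/-- The bound for one field, in its final form. -/
def P_final : Prop :=
  ∃ C : ℝ, 0 ≤ C ∧ ∀ (E : Type) [Field E] [NumberField E] [IsCMField E] (M : (E →+* ℂ) → ℤ)
    (n g : ℕ), n ≠ 0 → (∀ φ, M φ ∣ (n : ℤ)) → (∀ φ, M (ComplexEmbedding.conjugate φ) = M φ) →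
    finrank ℚ E = 2 * g →
    ((degTypes M).ncard : ℝ) ≤ 2 ^ g * (C * (n : ℝ) ^ 2 * defWeight E / √g)

theorem final (hcm : P_cm) (h4 : P_field_bound4) : P_final := by
  classical
  obtain ⟨C, hC0, hC⟩ := h4
  refine ⟨C, hC0, ?_⟩
  intro E _ _ _ M n g hn0 hMn hMc hg
  refine (hC E M n g hn0 hMn hMc hg).trans (le_of_eq ?_)
  have hfin : (fieldsOfDefinition E).Finite := Set.toFinite _
  have h1 : ∑ᶠ F ∈ defFields E, C * (numCM F * galFactor F *
      (1 + Real.log (finrank ℚ F)) ^ 16) = C * defWeight E := by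
    unfold defWeight
    rw [defFields_eq, finsum_mem_eq_finite_toFinset_sum _ hfin,
      finsum_mem_eq_finite_toFinset_sum _ hfin, mul_sum]
    refine sum_congr rfl fun F hF => ?_
    have hcmF : IsCMField F := by
      have h2 := hfin.mem_toFinset.1 hF
      rw [← defFields_eq] at h2
      obtain ⟨S, hS, h3, -⟩ := h2
      exact hcm E F (exists_not_real hS (h3 S hS rfl))
    rw [numCM_eq hcm F]
  rw [h1]
  ring

end Pool.Agent.Y1.KN
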