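import Mathlib
import Pool.Agent.Y1.KN.Field
import Pool.Agent.Y903.KN.Key
import Pool.Agent.Y333.KN.Mult
import Pool.Agent.Y710.KN.Base
import Pool.Agent.Y710.KN.Num
import Pool.Agent.Y281.KN.Corr
import Pool.Agent.Y275.KN.Avg
import Pool.Agent.Y275.KN.Field

/-!
# The bound in terms of the maximal proper CM subfields
-/

namespace Pool.Agent.Y1.KN

theorem key_holds : P_key := Pool.Agent.Y903.KN.key Pool.Agent.Y275.KN.avg_trace

theorem base_holds : P_base := Pool.Agent.Y710.KN.base Pool.Agent.Y275.KN.avg_trace

theorem mult_holds : P_mult := Pool.Agent.Y333.KN.mult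

theorem faith_holds : P_faith := faith mult_holds base_holds key_holds Pool.Agent.Y710.KN.num

theorem field_bound_holds : P_field_bound :=
  field_bound mult_holds key_holds faith_holds Pool.Agent.Y281.KN.corr Pool.Agent.Y281.KN.dim
    Pool.Agent.Y275.KN.closure_degree

end Pool.Agent.Y1.KN
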