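import Mathlib
import Pool.Agent.Y1.KN.First
import Pool.Agent.Y1.KN.Field2
import Pool.Agent.Y304.KN.Num2
import Pool.Agent.Y304.KN.Prod
import Pool.Agent.Y46.KN1.CmBij
import Pool.Agent.Y46.KN1.Desc

/-!
# The bound in terms of all CM subfields
-/

namespace Pool.Agent.Y1.KN

theorem faith2_holds : P_faith2 := faith2 mult_holds base_holds key_holds
  Pool.Agent.Y304.KN.num2 Pool.Agent.Y304.KN.prod

theorem field_bound2_holds : P_field_bound2 :=
  field_bound2 mult_holds key_holds faith2_holds Pool.Agent.Y281.KN.corr Pool.Agent.Y281.KN.dim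
    Pool.Agent.Y275.KN.closure_degree Pool.Agent.Y46.KN1.cm Pool.Agent.Y46.KN1.bij
    Pool.Agent.Y46.KN1.desc Pool.Agent.Y304.KN.prod

end Pool.Agent.Y1.KN
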