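import Mathlib
import Pool.Agent.Y1.KN.Second
import Pool.Agent.Y1.KN.Faith3
import Pool.Agent.Y1.KN.Field3
import Pool.Agent.Y248.KN.Gen
import Pool.Agent.Y248.KN.Num5
import Pool.Agent.Y248.KN.Num6
import Pool.Agent.Y417.KN.GenB
import Pool.Agent.Y674.KN.Order
import Pool.Agent.Y778.KN.Mink
import Pool.Agent.Y281.KN.Char
import Pool.Agent.Y167.KN.Desc2

/-!
# The bound in terms of the fields of definition
-/

namespace Pool.Agent.Y1.KN

theorem faith3_holds : P_faith3 :=
  faith3 mult_holds base_holds key_holds Pool.Agent.Y248.KN.num5 Pool.Agent.Y248.KN.num6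
    Pool.Agent.Y304.KN.prod (Pool.Agent.Y417.KN.genB Pool.Agent.Y248.KN.gen)
    (Pool.Agent.Y417.KN.genP Pool.Agent.Y248.KN.gen) Pool.Agent.Y778.KN.free
    Pool.Agent.Y674.KN.order Pool.Agent.Y281.KN.char Pool.Agent.Y778.KN.mink

theorem field_bound3_holds : P_field_bound3 :=
  field_bound3 mult_holds key_holds faith3_holds Pool.Agent.Y281.KN.corr Pool.Agent.Y281.KN.dim
    Pool.Agent.Y275.KN.field_index Pool.Agent.Y46.KN1.cm Pool.Agent.Y46.KN1.bij
    Pool.Agent.Y46.KN1.desc Pool.Agent.Y167.KN.desc2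

end Pool.Agent.Y1.KN
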