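import Mathlib
import Pool.Agent.Y1.KN.Stm8

/-!
# A statement about the classes of small dimension
-/

set_option linter.unusedSectionVars false
set_option linter.unusedVariables false

namespace Pool.Agent.Y1.KN

open Finset Module Pool.Agent.TH170.MF Pool.Agent.TH170.QC Pool.Agent.TH170.QE
  Pool.Agent.TH170.FW

/-- The classes of dimension less than `p - 1`, if the number of the points is divisible by `p` but
not by `p ^ 2`. -/
def P_small : Prop :=
  ∀ (G X : Type) [Group G] [Fintype G] [MulAction G X] [Fintype X]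
    [MulAction.IsPretransitive G X] (c : G) (p m : ℕ) (ι : Type) [Fintype ι]
    (S : ι → Submodule ℚ (X → ℚ)), c * c = 1 → (∀ x, c * x = x * c) → (∀ x : X, c • x ≠ x) →
    p.Prime → ¬ p ∣ 2 * m → Fintype.card X = 2 * (m * p) →
    (∀ i, S i ∈ MinInv G (fun x : X => c • x)) →
    (∀ i j, i ≠ j → killers G (S i : Set (X → ℚ)) ≠ killers G (S j : Set (X → ℚ))) →
    (∀ i, finrank ℚ (S i) + 1 < p) → ∑ i, finrank ℚ (S i) ≤ m

end Pool.Agent.Y1.KN
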