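import Mathlib
import Pool.Agent.Y1.KN.Field5
import Pool.Agent.Y1.KN.Stm9

/-!
# The bound for one class, and fields whose degree has a large prime factor
-/

set_option linter.unusedSectionVars false
set_option linter.unusedVariables false

namespace Pool.Agent.Y1.KN

open NumberField Finset Module Pool.Agent.H204R3.CM Pool.Agent.TH170.MF Pool.Agent.TH170.QC
  Pool.Agent.TH170.QE Pool.Agent.TH170.FW Pool.Agent.TH170.CM Pool.Agent.TH170.GC

/-- Faithful spaces of codimension at most two. -/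
theorem exc_facts (hM : P_mult) {G X : Type} [Group G] [Fintype G] [MulAction G X] [Fintype X]
    [DecidableEq X] [MulAction.IsPretransitive G X] {c : G} (hcc : c * c = 1)
    (hfree : ∀ x : X, c • x ≠ x) (hcen : ∀ x, c * x = x * c) {g : ℕ}
    (hcard : Fintype.card X = 2 * g) {S : Submodule ℚ (X → ℚ)}
    (hS : S ∈ MinInv G (fun x : X => c • x)) (x₀ : X) (hf : Faith G S)
    (h2 : edim G S + codimFix G x₀ S ≤ 2) :
    finrank ℚ S ^ 2 ≤ 2 * g ∧ Nat.card G ≤ 4 * g := by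
  classical
  have he0 : 1 ≤ edim G S := edim_pos hS.1
  have hcs := card_stab_mul (G := G) hcard x₀
  have hmul := fixed_mul_le hM hcc hfree hcen hcard hS x₀
  have hstab : Nat.card (MulAction.stabilizer G x₀) = 1 ∨
      Nat.card (MulAction.stabilizer G x₀) = 2 := by
    have h0 : 0 < Nat.card (MulAction.stabilizer G x₀) := Nat.card_pos
    by_contra hcon
    have h3 : 3 ≤ Nat.card (MulAction.stabilizer G x₀) := by omega
    have h4 := codim_ge_two hS.2.1 hf x₀ h3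
    unfold codimFix at h2
    omega
  refine ⟨?_, by rcases hstab with h | h <;> rw [h] at hcs <;> omega⟩
  rcases hstab with hst | hst
  · have htriv : ∀ γ : G, γ • x₀ = x₀ → γ = 1 := by
      intro γ hγ
      rw [Nat.card_eq_one_iff_unique] at hst
      have := hst.1
      exact congrArg Subtype.val (Subsingleton.elim
        (⟨γ, hγ⟩ : MulAction.stabilizer G x₀) 1)
    have hfix : fixedPart G x₀ S = S := by
      refine le_antisymm (fun u hu => hu.1) fun u hu => ⟨hu, fun h hh x => ?_⟩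
      rw [htriv h hh, one_smul]
    rw [hfix] at hmul
    have h5 : edim G S * g ≤ 2 * g := Nat.mul_le_mul_right _ (by omega)
    nlinarith
  · have hne : codimFix G x₀ S ≠ 0 := by
      intro h0
      unfold codimFix at h0
      have hle : fixedPart G x₀ S ≤ S := fun u hu => hu.1
      have h3 := Submodule.finrank_mono hle
      have h4 : fixedPart G x₀ S = S := Submodule.eq_of_le_of_finrank_eq hle (by omega)
      have h5 : ∀ γ : MulAction.stabilizer G x₀, γ = 1 := by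
        intro γ
        apply Subtype.ext
        refine hf γ ?_
        intro u hu x
        rw [← h4] at hu
        exact hu.2 γ γ.2 x
      have h6 : Nat.card (MulAction.stabilizer G x₀) = 1 := by
        rw [Nat.card_eq_one_iff_unique]
        exact ⟨⟨fun a b => by rw [h5 a, h5 b]⟩, ⟨1⟩⟩
      omega
    have h7 : edim G S ≤ finrank ℚ (fixedPart G x₀ S) := edim_le hcc hcen x₀ hS.2.1 hS.2.2.1
    have h8 : edim G S = 1 := by omega
    have h9 : codimFix G x₀ S = 1 := by omega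
    unfold codimFix at h9
    rw [h8, one_mul] at hmul
    have h10 : finrank ℚ S = finrank ℚ (fixedPart G x₀ S) + 1 := by omega
    rw [h10] at hmul ⊢
    nlinarith

/-- The bound for one class. -/
theorem one_class (hM : P_mult) {C : ℝ} (hC0 : 0 ≤ C)
    (hC : ∀ (G X : Type) [Group G] [Fintype G] [MulAction G X] [Fintype X]
      [DecidableEq X] [MulAction.IsPretransitive G X] (m n g : ℕ) [NeZero m] (M : PX X m → ℤ)
      (c : G), PData G X m n g M c → ∀ S ∈ MinInv G (fun x : X => c • x), ∀ x₀ : X, Faith G S →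
      (3 ≤ edim G S + codimFix G x₀ S ∨ Star G c x₀ g) →
      (cntO M c S : ℝ) ≤
        2 ^ (m * g) * (C * (n : ℝ) ^ 2 *
          (finrank ℚ (fixedPart G x₀ S) * finrank ℚ S / (edim G S * g)) *
            ((1 + Real.log g) ^ 16 / √(m * g))))
    {K : ℝ} (hK1 : 1 ≤ K)
    (hK : ∀ (g m d c n Gc : ℕ) (N : ℝ), 1 ≤ n → 1 ≤ m → 1 ≤ d → 1 ≤ g →
      d ^ 2 ≤ 2 * g → 1 ≤ Gc → Gc ≤ 4 * g → N ≤ 1 →
      N ≤ boundB (m * g) d c (Real.log ((Gc * n : ℕ) : ℝ)) →
      N ≤ √(K * (n : ℝ) ^ 2 * (1 + Real.log g) ^ 3 * d / (m * g)) ^ c)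
    (hGB : P_genB) (hP : P_prod) (hcorr : P_corr) (hcm : P_cm) (hbij : P_bij) (hdesc : P_desc)
    (E : Type) [Field E] [NumberField E] [IsCMField E] {g n : ℕ} (hg : finrank ℚ E = 2 * g)
    (M : (E →+* ℂ) → ℤ)
    (hn0 : n ≠ 0) (hMn : ∀ φ, M φ ∣ (n : ℤ)) (hMc : ∀ φ, M (ComplexEmbedding.conjugate φ) = M φ)
    {S₀ : Submodule ℚ ((E →+* ℂ) → ℚ)} (hS₀ : S₀ ∈ minimalSpaces E) :
    (({Φ : Set (E →+* ℂ) | IsCMType Φ ∧ ∃ S ∈ minimalSpaces E,
      component S = component S₀ ∧ OrthW M Φ S}.ncard : ℕ) : ℝ) ≤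
      2 ^ g * ((C * (n : ℝ) ^ 2) * ((1 + Real.log (2 * g)) ^ 16 / √g)) ∨
    (finrank ℚ S₀ ^ 2 ≤ 2 * g ∧ (({Φ : Set (E →+* ℂ) | IsCMType Φ ∧ ∃ S ∈ minimalSpaces E,
      component S = component S₀ ∧ OrthW M Φ S}.ncard : ℕ) : ℝ) ≤
      2 ^ g * ((K * (n : ℝ) ^ 2) * ((1 + Real.log (2 * g)) ^ 16 / √g) * √(finrank ℚ S₀))) := by
  classical
  obtain ⟨F, -, hF⟩ := (Set.toFinite (homeFields S₀)).exists_le_minimal
    (top_mem_homeFields S₀)
  have hF1 : F ∈ homeFields S₀ := hF.1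
  have hF2 : ∀ F' ∈ homeFields S₀, F' ≤ F → F ≤ F' := fun F' h h' => hF.2 h h'
  have hcmF : IsCMField F := hcm E F (exists_not_real hS₀ (hF1 S₀ hS₀ rfl))
  obtain ⟨c, hc, hcc, hcen⟩ := exists_conj F
  obtain ⟨ψ⟩ : Nonempty (F →+* ℂ) := inferInstance
  obtain ⟨gF, hgF⟩ := finrank_even F
  have hmul : finrank ℚ F * finrank F E = finrank ℚ E := finrank_mul_finrank ℚ F E
  have hg0 : 0 < g := by
    have := Module.finrank_pos (R := ℚ) (M := E)
    omega
  set m := finrank F E with hm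
  have hm0 : m ≠ 0 := by
    rintro h0
    rw [h0, mul_zero, hg] at hmul
    omega
  have : NeZero m := ⟨hm0⟩
  have hgm : g = m * gF := by
    rw [hgF, hg] at hmul
    have : 2 * (m * gF) = 2 * g := by rw [← hmul]; ring
    omega
  have hgF0 : 0 < gF := by
    rcases Nat.eq_zero_or_pos gF with h0 | h0
    · rw [h0, mul_zero] at hgm
      omega
    · exact h0
  have hgFR : (0 : ℝ) < gF := by exact_mod_cast hgF0
  have hgF1 : (1 : ℝ) ≤ gF := by exact_mod_cast hgF0
  have hmR : (1 : ℝ) ≤ m := by exact_mod_cast Nat.pos_of_ne_zero hm0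
  have hmg : ((m : ℝ) * gF) = g := by
    rw [hgm]
    push_cast
    ring
  have hgR : (0 : ℝ) < g := by exact_mod_cast hg0
  have hsq : 0 < √(g : ℝ) := Real.sqrt_pos.2 hgR
  have hn1 : 1 ≤ n := Nat.pos_of_ne_zero hn0
  have hn1R : (1 : ℝ) ≤ n := by exact_mod_cast hn1
  have hl1 : 0 ≤ Real.log gF := Real.log_nonneg hgF1
  have hl2 : Real.log gF ≤ Real.log (2 * g) := by
    refine Real.log_le_log hgFR ?_
    rw [← hmg]
    nlinarith
  set Λ := 1 + Real.log (2 * g) with hΛ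
  have hΛ1 : (1 : ℝ) ≤ Λ := by linarith
  have hpow : (0 : ℝ) < 2 ^ g := by positivity
  have hfun : (fun ψ : F →+* ℂ => c • ψ) = ComplexEmbedding.conjugate (K := F) := funext hc
  obtain ⟨k1, k2, k3, k4⟩ := hdesc E F S₀ hS₀ (hF1 S₀ hS₀ rfl)
  have hS : desc F S₀ ∈ MinInv (Gal F) (fun ψ : F →+* ℂ => c • ψ) := by
    rw [hfun]
    exact (minInv_iff _).2 k1
  have hfree : ∀ φ : F →+* ℂ, c • φ ≠ φ := fun φ => by
    rw [hc]
    exact conj_ne φ
  have hcard : Fintype.card (F →+* ℂ) = 2 * gF := by rw [Embeddings.card, hgF]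
  have hfaith : Faith (Gal F) (desc F S₀) := faith_desc hcorr hdesc E F hS₀ hF1 hF2
  obtain ⟨M', D, hle⟩ := ncard_types_le_cntO hdesc hbij E F hgF (m := m) (by rw [hg, hgm]) M hn0
    hMn hMc hS₀ hF1 hc hcc hcen
  have he0 : 0 < edim (Gal F) (desc F S₀) := edim_pos hS.1
  have he : (0 : ℝ) < edim (Gal F) (desc F S₀) := by exact_mod_cast he0
  by_cases h3 : 3 ≤ edim (Gal F) (desc F S₀) + codimFix (Gal F) ψ (desc F S₀)
  · left
    have h8 := hC (Gal F) (F →+* ℂ) m n gF M' c D _ hS ψ hfaith (Or.inl h3)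
    refine (Nat.cast_le.2 hle).trans (h8.trans ?_)
    have h9 := fixed_mul_le hM hcc hfree hcen hcard hS ψ
    have h10 : (finrank ℚ (fixedPart (Gal F) ψ (desc F S₀)) : ℝ) * finrank ℚ (desc F S₀) /
        (edim (Gal F) (desc F S₀) * gF) ≤ 1 := by
      rw [div_le_one (by positivity)]
      exact_mod_cast h9
    have h11 : (1 + Real.log gF) ^ 16 / √((m : ℝ) * gF) ≤ Λ ^ 16 / √g := by
      rw [hmg]
      exact div_le_div_of_nonneg_right
        (pow_le_pow_left₀ (by linarith) (by linarith) 16) hsq.le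
    rw [← hgm]
    refine mul_le_mul_of_nonneg_left ?_ hpow.le
    have h12 : (0 : ℝ) ≤ (1 + Real.log gF) ^ 16 / √((m : ℝ) * gF) := by positivity
    calc C * (n : ℝ) ^ 2 * ((finrank ℚ (fixedPart (Gal F) ψ (desc F S₀)) : ℝ) *
          finrank ℚ (desc F S₀) / (edim (Gal F) (desc F S₀) * gF)) *
          ((1 + Real.log gF) ^ 16 / √((m : ℝ) * gF)) ≤
        C * (n : ℝ) ^ 2 * 1 * ((1 + Real.log gF) ^ 16 / √((m : ℝ) * gF)) :=
          mul_le_mul_of_nonneg_right (mul_le_mul_of_nonneg_left h10 (by positivity)) h12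
      _ ≤ C * (n : ℝ) ^ 2 * 1 * (Λ ^ 16 / √g) :=
          mul_le_mul_of_nonneg_left h11 (by positivity)
      _ = _ := by ring
  · right
    obtain ⟨hd2, hGc⟩ := exc_facts hM hcc hfree hcen hcard hS ψ hfaith (by omega)
    rw [k3] at hd2
    have hd0 : 1 ≤ finrank ℚ S₀ := by
      rw [Nat.one_le_iff_ne_zero]
      intro h
      exact hS₀.1 (Submodule.finrank_eq_zero.1 h)
    refine ⟨hd2.trans (by rw [hgm]; nlinarith [Nat.pos_of_ne_zero hm0]), ?_⟩
    set N := (({Φ : Set (E →+* ℂ) | IsCMType Φ ∧ ∃ S ∈ minimalSpaces E,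
      component S = component S₀ ∧ OrthW M Φ S}.ncard : ℕ) : ℝ) / 2 ^ g with hN
    have hN1 : N ≤ 1 := by
      rw [hN, div_le_one hpow]
      obtain ⟨p1, -⟩ := hP (Gal F) (F →+* ℂ) c m ψ _ hS
      refine (Nat.cast_le.2 (hle.trans (cntO_le_cntP hP M' c hS ψ))).trans ?_
      rw [hgm]
      exact ncard_class_le_two_pow M' D.cc' D.free' D.card' _
    have hN2 := hK gF m _ (edim (Gal F) (desc F S₀) + codimFix (Gal F) ψ (desc F S₀)) n
      (Nat.card (Gal F)) N hn1 (Nat.pos_of_ne_zero hm0) hd0 hgF0 hd2 Nat.card_pos hGc hN1 (by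
        rw [hN, div_le_iff₀' hpow, hgm, ← k3]
        exact (Nat.cast_le.2 hle).trans (hGB (Gal F) (F →+* ℂ) m n gF M' c D _ hS ψ))
    set x := √(K * (n : ℝ) ^ 2 * (1 + Real.log gF) ^ 3 * finrank ℚ S₀ / (m * gF)) with hx
    have hx0 : 0 ≤ x := Real.sqrt_nonneg _
    have hNx : N ≤ x := by
      have hc12 : edim (Gal F) (desc F S₀) + codimFix (Gal F) ψ (desc F S₀) = 1 ∨
          edim (Gal F) (desc F S₀) + codimFix (Gal F) ψ (desc F S₀) = 2 := by omega
      rcases hc12 with h | h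
      · rwa [h, pow_one] at hN2
      · rw [h] at hN2
        rcases le_total x 1 with h5 | h5
        · nlinarith
        · linarith
    have hxle : x ≤ (K * (n : ℝ) ^ 2) * (Λ ^ 16 / √g) * √(finrank ℚ S₀) := by
      rw [hx, hmg, Real.sqrt_div (by positivity), Real.sqrt_mul (by positivity)]
      have h6 : √(K * (n : ℝ) ^ 2 * (1 + Real.log gF) ^ 3) ≤ K * (n : ℝ) ^ 2 * Λ ^ 16 := by
        have h9 : (1 : ℝ) ≤ (n : ℝ) ^ 2 := one_le_pow₀ hn1R
        have h10 : (1 : ℝ) ≤ K * (n : ℝ) ^ 2 := by nlinarith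
        have h11 : (1 : ℝ) ≤ (1 + Real.log gF) ^ 3 := one_le_pow₀ (by linarith)
        have h12 : (1 : ℝ) ≤ K * (n : ℝ) ^ 2 * (1 + Real.log gF) ^ 3 := by nlinarith
        have h13 : √(K * (n : ℝ) ^ 2 * (1 + Real.log gF) ^ 3) ≤
            K * (n : ℝ) ^ 2 * (1 + Real.log gF) ^ 3 :=
          Real.sqrt_le_iff.2 ⟨by linarith, le_self_pow₀ h12 two_ne_zero⟩
        have h14 : (1 + Real.log gF) ^ 3 ≤ Λ ^ 16 :=
          (pow_le_pow_left₀ (by linarith) (by linarith : 1 + Real.log gF ≤ Λ) 3).trans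
            (pow_le_pow_right₀ hΛ1 (by norm_num))
        exact h13.trans (mul_le_mul_of_nonneg_left h14 (by positivity))
      calc √(K * (n : ℝ) ^ 2 * (1 + Real.log gF) ^ 3) * √(finrank ℚ S₀ : ℝ) / √(g : ℝ) ≤
          K * (n : ℝ) ^ 2 * Λ ^ 16 * √(finrank ℚ S₀ : ℝ) / √(g : ℝ) := by gcongr
        _ = _ := by ring
    have h7 : (({Φ : Set (E →+* ℂ) | IsCMType Φ ∧ ∃ S ∈ minimalSpaces E,
      component S = component S₀ ∧ OrthW M Φ S}.ncard : ℕ) : ℝ) = 2 ^ g * N := by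
      rw [hN]
      field_simp
    rw [h7]
    exact mul_le_mul_of_nonneg_left (hNx.trans hxle) hpow.le

end Pool.Agent.Y1.KN
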