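import Mathlib
import Pool.Agent.Y1.KN.ClassB
import Pool.Agent.Y1.KN.Sum
import Pool.Agent.TH170.QD.Family

/-!
# Fields whose degree has a large prime factor
-/

set_option linter.unusedSectionVars false
set_option linter.unusedVariables false

namespace Pool.Agent.Y1.KN

open NumberField Finset Module Pool.Agent.H204R3.CM Pool.Agent.TH170.MF Pool.Agent.TH170.QC
  Pool.Agent.TH170.QE Pool.Agent.TH170.FW Pool.Agent.TH170.CM Pool.Agent.TH170.GC

theorem ncard_degTypes_le_two_pow {E : Type*} [Field E] [NumberField E] [IsCMField E] {g : ℕ}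
    (hg : finrank ℚ E = 2 * g) (M : (E →+* ℂ) → ℤ) : (degTypes M).ncard ≤ 2 ^ g := by
  rw [← Pool.Agent.TH170.QD.ncard_cmTypes E hg]
  exact Set.ncard_le_ncard (fun Φ hΦ => hΦ.1) (Set.toFinite _)

/-- The bound for the fields whose degree has a large prime factor. -/
def P_prime_bound : Prop :=
  ∃ C : ℝ, 0 ≤ C ∧ ∀ (E : Type) [Field E] [NumberField E] [IsCMField E] (M : (E →+* ℂ) → ℤ)
    (n g p : ℕ), n ≠ 0 → (∀ φ, M φ ∣ (n : ℤ)) → (∀ φ, M (ComplexEmbedding.conjugate φ) = M φ) →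
    finrank ℚ E = 2 * g → p.Prime → p ∣ g →
    ((degTypes M).ncard : ℝ) ≤
      2 ^ g * (C * (n : ℝ) ^ 2 * ((1 + Real.log (2 * g)) ^ 16 * (√g / p)))

theorem prime_bound (hM : P_mult) (hFa : P_faith3) (hN7 : P_num7)
    (hGB : P_genB) (hP : P_prod) (hcorr : P_corr) (hdim : P_dim)
    (hcm : P_cm) (hbij : P_bij) (hdesc : P_desc) (hSm : P_small) : P_prime_bound := by
  classical
  obtain ⟨C, hC0, hC⟩ := hFa
  obtain ⟨K, hK1, hK⟩ := hN7
  refine ⟨3 * C + K + 3, by positivity, ?_⟩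
  intro E _ _ _ M n g p hn0 hMn hMc hg hp hpg
  have hg0 : 0 < g := by
    have := Module.finrank_pos (R := ℚ) (M := E)
    omega
  have hp2 := hp.two_le
  have hgR : (0 : ℝ) < g := by exact_mod_cast hg0
  have hg1R : (1 : ℝ) ≤ g := by exact_mod_cast hg0
  have hpR : (2 : ℝ) ≤ p := by exact_mod_cast hp2
  have hsq : 0 < √(g : ℝ) := Real.sqrt_pos.2 hgR
  have hn1 : 1 ≤ n := Nat.pos_of_ne_zero hn0
  have hn1R : (1 : ℝ) ≤ n := by exact_mod_cast hn1
  have hnn : (1 : ℝ) ≤ (n : ℝ) ^ 2 := one_le_pow₀ hn1R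
  have hl1 : 0 ≤ Real.log (2 * g) := Real.log_nonneg (by linarith)
  set Λ := 1 + Real.log (2 * g) with hΛ
  have hΛ1 : (1 : ℝ) ≤ Λ := by linarith
  have hΛ16 : (1 : ℝ) ≤ Λ ^ 16 := one_le_pow₀ hΛ1
  have hpow : (0 : ℝ) < 2 ^ g := by positivity
  by_cases hsmall : (p - 1) ^ 2 ≤ 2 * g
  · have h1 : ((degTypes M).ncard : ℝ) ≤ 2 ^ g := by
      exact_mod_cast ncard_degTypes_le_two_pow hg M
    refine h1.trans ?_
    rw [le_mul_iff_one_le_right hpow]
    have h2 : ((p : ℝ) - 1) ^ 2 ≤ 2 * g := by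
      have h3 : (((p - 1 : ℕ) : ℝ)) ^ 2 ≤ 2 * g := by exact_mod_cast hsmall
      rwa [Nat.cast_sub (by omega), Nat.cast_one] at h3
    have h3 : (p : ℝ) ≤ 3 * √g := by
      have h4 : (p : ℝ) - 1 ≤ √(2 * g) := Real.le_sqrt_of_sq_le h2
      have h5 : √(2 * (g : ℝ)) ≤ 2 * √g := by
        rw [Real.sqrt_mul zero_le_two]
        have h6 : √(2 : ℝ) ≤ 2 := by
          rw [Real.sqrt_le_left (by norm_num)]
          norm_num
        exact mul_le_mul_of_nonneg_right h6 hsq.le
      have h6 : (1 : ℝ) ≤ √g := Real.one_le_sqrt.2 hg1R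
      linarith
    have h4 : (1 / 3 : ℝ) ≤ √g / p := by
      rw [le_div_iff₀ (by linarith)]
      linarith
    have h5 : (1 : ℝ) ≤ 3 * (√g / p) := by linarith
    have h6 : (0 : ℝ) ≤ √g / p := by positivity
    calc (1 : ℝ) ≤ 3 * (√g / p) := h5
      _ ≤ (3 * C + K + 3) * (√g / p) := by gcongr; linarith
      _ = (3 * C + K + 3) * 1 * (1 * (√g / p)) := by ring
      _ ≤ (3 * C + K + 3) * (n : ℝ) ^ 2 * (Λ ^ 16 * (√g / p)) := by gcongr
  · push Not at hsmall
    obtain ⟨m, rfl⟩ : ∃ m, g = m * p := by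
      obtain ⟨m, hm⟩ := hpg
      exact ⟨m, by rw [hm, mul_comm]⟩
    have hm0 : 0 < m := Nat.pos_of_mul_pos_right hg0 |> fun _ => by
      rcases Nat.eq_zero_or_pos m with h | h
      · rw [h, zero_mul] at hg0
        omega
      · exact h
    have hm0R : (0 : ℝ) < m := by exact_mod_cast hm0
    have hpm : ¬ p ∣ 2 * m := by
      intro h
      rcases (Nat.Prime.dvd_mul hp).1 h with h1 | h1
      · have h2 : p = 2 := (Nat.prime_dvd_prime_iff_eq hp Nat.prime_two).1 h1
        rw [h2] at hsmall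
        omega
      · have h2 : p ≤ m := Nat.le_of_dvd hm0 h1
        obtain ⟨q, rfl⟩ : ∃ q, p = q + 1 := ⟨p - 1, by omega⟩
        rw [Nat.add_sub_cancel] at hsmall
        nlinarith
    -- the components and the representatives
    obtain ⟨c, hc, hcc, hcen⟩ := exists_conj E
    have hfun : (fun φ : E →+* ℂ => c • φ) = ComplexEmbedding.conjugate (K := E) := funext hc
    have hmin : ∀ S ∈ minimalSpaces E, S ∈ MinInv (Gal E) (fun φ : E →+* ℂ => c • φ) := by
      intro S hS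
      rw [hfun]
      exact (minInv_iff S).2 hS
    have hfree : ∀ φ : E →+* ℂ, c • φ ≠ φ := fun φ => by
      rw [hc]
      exact conj_ne φ
    have hfin := finite_components (E := E)
    have hrep : ∀ W : Submodule ℚ ((E →+* ℂ) → ℚ), ∃ S, W ∈ components E →
        S ∈ minimalSpaces E ∧ component S = W := by
      intro W
      by_cases hW : W ∈ components E
      · obtain ⟨S, hS, hSW⟩ := hW
        exact ⟨S, fun _ => ⟨hS, hSW⟩⟩
      · exact ⟨⊥, fun h => absurd h hW⟩
    choose rep hrep using hrep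
    set cnt : Submodule ℚ ((E →+* ℂ) → ℚ) → ℕ := fun W => {Φ : Set (E →+* ℂ) | IsCMType Φ ∧
        ∃ S ∈ minimalSpaces E, component S = W ∧ OrthW M Φ S}.ncard with hcnt
    have hkne : ∀ W ∈ components E, ∀ W' ∈ components E, W ≠ W' →
        killers (Gal E) ((rep W : Submodule ℚ ((E →+* ℂ) → ℚ)) : Set ((E →+* ℂ) → ℚ)) ≠
        killers (Gal E) ((rep W' : Submodule ℚ ((E →+* ℂ) → ℚ)) : Set ((E →+* ℂ) → ℚ)) := by
      intro W hW W' hW' hne h
      apply hne
      rw [← (hrep W hW).2, ← (hrep W' hW').2]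
      exact component_congr h
    have htot : (degTypes M).ncard ≤ ∑ W ∈ hfin.toFinset, cnt W := by
      have h1 : degTypes M ⊆ ⋃ W ∈ hfin.toFinset, {Φ : Set (E →+* ℂ) | IsCMType Φ ∧
          ∃ S ∈ minimalSpaces E, component S = W ∧ OrthW M Φ S} := by
        rintro Φ ⟨hΦ, S, hS, hmem⟩
        exact Set.mem_biUnion (hfin.mem_toFinset.2 ⟨S, hS, rfl⟩) ⟨hΦ, S, hS, rfl, hmem⟩
      refine (Set.ncard_le_ncard h1 (Set.toFinite _)).trans ?_
      exact Finset.set_ncard_biUnion_le _ _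
    set A := hfin.toFinset.filter (fun W => finrank ℚ (rep W) + 1 < p) with hA
    set B := hfin.toFinset.filter (fun W => ¬ finrank ℚ (rep W) + 1 < p) with hB
    have hAmem : ∀ W ∈ A, W ∈ components E ∧ finrank ℚ (rep W) + 1 < p := by
      intro W hW
      rw [hA, mem_filter, hfin.mem_toFinset] at hW
      exact hW
    have hBmem : ∀ W ∈ B, W ∈ components E ∧ p ≤ finrank ℚ (rep W) + 1 := by
      intro W hW
      rw [hB, mem_filter, hfin.mem_toFinset, not_lt] at hW
      exact hW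
    have hsplit : ∑ W ∈ hfin.toFinset, cnt W = ∑ W ∈ A, cnt W + ∑ W ∈ B, cnt W := by
      rw [hA, hB, sum_filter_add_sum_filter_not]
    have hsumA : ∑ W ∈ A, finrank ℚ (rep W) ≤ m := by
      have h1 := hSm (Gal E) (E →+* ℂ) c p m A (fun W => rep W) hcc hcen hfree hp hpm
        (by rw [Embeddings.card, hg]) (fun W => hmin _ (hrep W (hAmem W W.2).1).1)
        (fun W W' hWW => hkne W (hAmem W W.2).1 W' (hAmem W' W'.2).1
          (fun h => hWW (Subtype.ext h))) (fun W => (hAmem W W.2).2)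
      rw [← Finset.sum_coe_sort A (fun W => finrank ℚ (rep W))]
      exact h1
    have hsumB : ∑ W ∈ B, finrank ℚ (rep W) ≤ m * p := by
      have h6 := sum_sum_finrank_le (V := resSpace (⊤ : IntermediateField ℚ E)) B
        (fun W => {rep W}) ?_ ?_ ?_ ?_
      · have h7 := hdim E ⊤ (resSpace ⊤) (fun s hs φ => hs.1 φ) (fun u hu φ ψ h => hu.2 φ ψ h)
        have h8 : finrank ℚ (⊤ : IntermediateField ℚ E) = 2 * (m * p) := by
          rw [IntermediateField.finrank_top', hg]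
        have h9 : ∑ W ∈ B, finrank ℚ (rep W) = ∑ W ∈ B, ∑ S ∈ {rep W}, finrank ℚ S :=
          sum_congr rfl fun W _ => (sum_singleton _ _).symm
        rw [h9]
        omega
      · intro W hW S hS u hu
        rw [mem_singleton] at hS
        subst hS
        refine ⟨(hrep W (hBmem W hW).1).1.2.2.1 u hu, fun φ ψ h => ?_⟩
        rw [RingHom.ext fun x => h x IntermediateField.mem_top]
      · intro W hW S hS
        rw [mem_singleton] at hS
        subst hS
        exact (hrep W (hBmem W hW).1).1.1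
      · intro W hW S hS S' hS' hne
        rw [mem_singleton] at hS hS'
        exact absurd (hS.trans hS'.symm) hne
      · intro W hW W' hW' hWW S hS S' hS'
        rw [mem_singleton] at hS hS'
        subst hS
        subst hS'
        exact orth_of_killers_ne (hmin _ (hrep W (hBmem W hW).1).1)
          (hmin _ (hrep W' (hBmem W' hW').1).1)
          (hkne W (hBmem W hW).1 W' (hBmem W' hW').1 hWW)
    have hcardB : B.card ≤ 2 * m := by
      have h1 : B.card * (p - 1) ≤ m * p := by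
        refine le_trans ?_ hsumB
        rw [← smul_eq_mul, ← sum_const]
        refine sum_le_sum fun W hW => ?_
        have := (hBmem W hW).2
        omega
      have h2 : m * p ≤ (2 * m) * (p - 1) := by
        obtain ⟨q, rfl⟩ : ∃ q, p = q + 2 := ⟨p - 2, by omega⟩
        rw [show q + 2 - 1 = q + 1 by omega]
        nlinarith
      exact Nat.le_of_mul_le_mul_right (h1.trans h2) (by omega)
    set Y := Λ ^ 16 / √((m * p : ℕ) : ℝ) with hY
    have hY0 : 0 ≤ Y := by positivity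
    have hcls : ∀ W ∈ components E, ((cnt W : ℝ) ≤ 2 ^ (m * p) * ((C * (n : ℝ) ^ 2) * Y)) ∨
        (finrank ℚ (rep W) ^ 2 ≤ 2 * (m * p) ∧
          (cnt W : ℝ) ≤ 2 ^ (m * p) * ((K * (n : ℝ) ^ 2) * Y * √(finrank ℚ (rep W)))) := by
      intro W hW
      have h1 := one_class hM hC0 hC hK1 hK hGB hP hcorr hcm hbij hdesc E hg M hn0 hMn hMc
        (hrep W hW).1
      rw [(hrep W hW).2] at h1
      exact h1
    have hB1 : ∀ W ∈ B, (cnt W : ℝ) ≤ 2 ^ (m * p) * ((C * (n : ℝ) ^ 2) * Y) := by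
      intro W hW
      rcases hcls W (hBmem W hW).1 with h | ⟨h, -⟩
      · exact h
      · exfalso
        have h1 := (hBmem W hW).2
        have h2 : (p - 1) ^ 2 ≤ finrank ℚ (rep W) ^ 2 := Nat.pow_le_pow_left (by omega) 2
        omega
    have hA1 : ∀ W ∈ A, (cnt W : ℝ) ≤
        2 ^ (m * p) * (((C + K) * (n : ℝ) ^ 2) * Y) * finrank ℚ (rep W) := by
      intro W hW
      have hd0 : 1 ≤ finrank ℚ (rep W) := by
        rw [Nat.one_le_iff_ne_zero]
        intro h
        exact (hrep W (hAmem W hW).1).1.1 (Submodule.finrank_eq_zero.1 h)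
      have hd0R : (1 : ℝ) ≤ finrank ℚ (rep W) := by exact_mod_cast hd0
      have hsd : √(finrank ℚ (rep W) : ℝ) ≤ finrank ℚ (rep W) :=
        Real.sqrt_le_iff.2 ⟨by linarith, le_self_pow₀ hd0R two_ne_zero⟩
      have hY1 : (0 : ℝ) ≤ 2 ^ (m * p) * ((n : ℝ) ^ 2 * Y) := by positivity
      rcases hcls W (hAmem W hW).1 with h | ⟨-, h⟩
      · refine h.trans ?_
        calc (2 : ℝ) ^ (m * p) * ((C * (n : ℝ) ^ 2) * Y) =
            (2 ^ (m * p) * ((n : ℝ) ^ 2 * Y)) * (C * 1) := by ring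
          _ ≤ (2 ^ (m * p) * ((n : ℝ) ^ 2 * Y)) * ((C + K) * finrank ℚ (rep W)) := by
              refine mul_le_mul_of_nonneg_left ?_ hY1
              exact mul_le_mul (by linarith) hd0R zero_le_one (by linarith)
          _ = _ := by ring
      · refine h.trans ?_
        calc (2 : ℝ) ^ (m * p) * ((K * (n : ℝ) ^ 2) * Y * √(finrank ℚ (rep W) : ℝ)) =
            (2 ^ (m * p) * ((n : ℝ) ^ 2 * Y)) * (K * √(finrank ℚ (rep W) : ℝ)) := by ring
          _ ≤ (2 ^ (m * p) * ((n : ℝ) ^ 2 * Y)) * ((C + K) * finrank ℚ (rep W)) := by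
              refine mul_le_mul_of_nonneg_left ?_ hY1
              exact mul_le_mul (by linarith) hsd (Real.sqrt_nonneg _) (by linarith)
          _ = _ := by ring
    have hsA : ((∑ W ∈ A, cnt W : ℕ) : ℝ) ≤
        2 ^ (m * p) * (((C + K) * (n : ℝ) ^ 2) * Y) * m := by
      rw [Nat.cast_sum]
      refine (sum_le_sum hA1).trans ?_
      rw [← mul_sum, ← Nat.cast_sum]
      refine mul_le_mul_of_nonneg_left (by exact_mod_cast hsumA) ?_
      have : (0 : ℝ) ≤ C + K := by linarith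
      positivity
    have hsB : ((∑ W ∈ B, cnt W : ℕ) : ℝ) ≤
        2 ^ (m * p) * ((C * (n : ℝ) ^ 2) * Y) * (2 * m) := by
      rw [Nat.cast_sum]
      refine (sum_le_sum hB1).trans ?_
      rw [sum_const, nsmul_eq_mul, mul_comm]
      refine mul_le_mul_of_nonneg_left (by exact_mod_cast hcardB) (by positivity)
    have h4 : ((degTypes M).ncard : ℝ) ≤ ((∑ W ∈ A, cnt W : ℕ) : ℝ) +
        ((∑ W ∈ B, cnt W : ℕ) : ℝ) := by
      rw [← Nat.cast_add, ← hsplit]
      exact_mod_cast htot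
    refine h4.trans ((add_le_add hsA hsB).trans ?_)
    have hmp : (m : ℝ) / √((m * p : ℕ) : ℝ) = √((m * p : ℕ) : ℝ) / p := by
      rw [div_eq_div_iff hsq.ne' (by linarith), Real.mul_self_sqrt (by positivity)]
      push_cast
      rfl
    have hZ : (0 : ℝ) ≤ 2 ^ (m * p) * ((n : ℝ) ^ 2 * (Λ ^ 16 * (√((m * p : ℕ) : ℝ) / p))) := by
      positivity
    calc 2 ^ (m * p) * (((C + K) * (n : ℝ) ^ 2) * Y) * m +
          2 ^ (m * p) * ((C * (n : ℝ) ^ 2) * Y) * (2 * m) =
        (3 * C + K) * (2 ^ (m * p) * ((n : ℝ) ^ 2 *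
          (Λ ^ 16 * ((m : ℝ) / √((m * p : ℕ) : ℝ))))) := by
          rw [hY]
          ring
      _ = (3 * C + K) * (2 ^ (m * p) * ((n : ℝ) ^ 2 *
          (Λ ^ 16 * (√((m * p : ℕ) : ℝ) / p)))) := by rw [hmp]
      _ ≤ (3 * C + K + 3) * (2 ^ (m * p) * ((n : ℝ) ^ 2 *
          (Λ ^ 16 * (√((m * p : ℕ) : ℝ) / p)))) :=
          mul_le_mul_of_nonneg_right (by linarith) hZ
      _ = _ := by ring

end Pool.Agent.Y1.KN
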