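import Mathlib
import Pool.Agent.Y1.KN.PrimeB
import Pool.Agent.TH170.FW.Family

/-!
# The two bounds together, for one field and for families
-/

set_option linter.unusedSectionVars false
set_option linter.unusedVariables false

namespace Pool.Agent.Y1.KN

open NumberField Finset Module Pool.Agent.H204R3.CM Pool.Agent.TH170.MF Pool.Agent.TH170.QC
  Pool.Agent.TH170.QE Pool.Agent.TH170.FW Pool.Agent.TH170.CM Pool.Agent.TH170.GC

/-- The bound for one field. -/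
def P_total : Prop :=
  ∃ C : ℝ, 0 ≤ C ∧ ∀ (E : Type) [Field E] [NumberField E] [IsCMField E] (M : (E →+* ℂ) → ℤ)
    (n g p : ℕ), n ≠ 0 → (∀ φ, M φ ∣ (n : ℤ)) → (∀ φ, M (ComplexEmbedding.conjugate φ) = M φ) →
    finrank ℚ E = 2 * g → p ∣ g → (p = 1 ∨ p.Prime) →
    ((degTypes M).ncard : ℝ) ≤ 2 ^ g * (C * (n : ℝ) ^ 2 * rate E g p)

theorem total (hcm : P_cm) (h1 : P_final) (h2 : P_prime_bound) : P_total := by
  classical
  obtain ⟨C₁, hC₁, h1⟩ := h1
  obtain ⟨C₂, hC₂, h2⟩ := h2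
  refine ⟨C₁ + C₂ + 1, by positivity, ?_⟩
  intro E _ _ _ M n g p hn0 hMn hMc hg hpg hp
  have hg0 : 0 < g := by
    have := Module.finrank_pos (R := ℚ) (M := E)
    omega
  have hgR : (0 : ℝ) < g := by exact_mod_cast hg0
  have hg1R : (1 : ℝ) ≤ g := by exact_mod_cast hg0
  have hn1 : 1 ≤ n := Nat.pos_of_ne_zero hn0
  have hn1R : (1 : ℝ) ≤ n := by exact_mod_cast hn1
  have hnn : (1 : ℝ) ≤ (n : ℝ) ^ 2 := one_le_pow₀ hn1R
  have hl1 : 0 ≤ Real.log (2 * g) := Real.log_nonneg (by linarith)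
  have hΛ16 : (1 : ℝ) ≤ (1 + Real.log (2 * g)) ^ 16 := one_le_pow₀ (by linarith)
  have hpow : (0 : ℝ) < 2 ^ g := by positivity
  have hW0 : 0 ≤ subfieldWeight E := by
    have hfin : (fieldsOfDefinition E).Finite := Set.toFinite _
    unfold subfieldWeight
    rw [finsum_mem_eq_finite_toFinset_sum _ hfin]
    refine sum_nonneg fun F _ => ?_
    have := one_le_galFactor F
    positivity
  unfold rate
  rcases min_choice (subfieldWeight E / √g) (√g / p) with h | h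
  · rw [h]
    refine (h1 E M n g hn0 hMn hMc hg).trans ?_
    refine mul_le_mul_of_nonneg_left ?_ hpow.le
    have h3 := defWeight_le hcm E hg
    calc C₁ * (n : ℝ) ^ 2 * defWeight E / √g ≤
        C₁ * (n : ℝ) ^ 2 * ((1 + Real.log (2 * g)) ^ 16 * subfieldWeight E) / √g := by gcongr
      _ = C₁ * ((n : ℝ) ^ 2 * ((1 + Real.log (2 * g)) ^ 16 * (subfieldWeight E / √g))) := by ring
      _ ≤ (C₁ + C₂ + 1) * ((n : ℝ) ^ 2 * ((1 + Real.log (2 * g)) ^ 16 *
            (subfieldWeight E / √g))) := by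
          refine mul_le_mul_of_nonneg_right (by linarith) (by positivity)
      _ = _ := by ring
  · rw [h]
    rcases hp with rfl | hp
    · have h3 : ((degTypes M).ncard : ℝ) ≤ 2 ^ g := by
        exact_mod_cast ncard_degTypes_le_two_pow hg M
      refine h3.trans ?_
      rw [le_mul_iff_one_le_right hpow, Nat.cast_one, div_one]
      have h4 : (1 : ℝ) ≤ √g := Real.one_le_sqrt.2 hg1R
      calc (1 : ℝ) = 1 * 1 * (1 * 1) := by ring
        _ ≤ (C₁ + C₂ + 1) * (n : ℝ) ^ 2 * ((1 + Real.log (2 * g)) ^ 16 * √g) := by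
            gcongr
            linarith
    · refine (h2 E M n g p hn0 hMn hMc hg hp hpg).trans ?_
      refine mul_le_mul_of_nonneg_left ?_ hpow.le
      calc C₂ * (n : ℝ) ^ 2 * ((1 + Real.log (2 * g)) ^ 16 * (√g / p)) ≤
          (C₁ + C₂ + 1) * (n : ℝ) ^ 2 * ((1 + Real.log (2 * g)) ^ 16 * (√g / p)) := by
            gcongr
            linarith
        _ = _ := rfl

/-- The bound for families. -/
def P_families : Prop :=
  ∃ C : ℝ, 0 ≤ C ∧ ∀ (ι : Type) [Fintype ι] (E : ι → Type) [∀ i, Field (E i)]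
    [∀ i, NumberField (E i)] [∀ i, IsCMField (E i)] (M : ∀ i, (E i →+* ℂ) → ℤ)
    (n g p : ι → ℕ), (∀ i φ, M i (ComplexEmbedding.conjugate φ) = M i φ) → (∀ i, n i ≠ 0) →
    (∀ i φ, M i φ ∣ (n i : ℤ)) → (∀ i, finrank ℚ (E i) = 2 * g i) →
    (∀ i, p i ∣ g i ∧ (p i = 1 ∨ (p i).Prime)) →
    ∀ P : (∀ i, Set (E i →+* ℂ)) → Prop,
    (∀ Φ : ∀ i, Set (E i →+* ℂ), (∀ i, IsCMType (Φ i)) → (∀ i, Φ i ∉ degTypes (M i)) → P Φ) →
    (({Φ : ∀ i, Set (E i →+* ℂ) | (∀ i, IsCMType (Φ i)) ∧ ¬ P Φ}.ncard : ℕ) : ℝ) ≤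
      2 ^ (∑ i, g i) * ∑ i, C * (n i : ℝ) ^ 2 * rate (E i) (g i) (p i)

theorem families (h : P_total) : P_families := by
  obtain ⟨C, hC0, hC⟩ := h
  refine ⟨C, hC0, ?_⟩
  intro ι _ E _ _ _ M n g p hMc hn hMn hg hp P hP
  exact ncard_families_gen E hg (fun i => degTypes (M i))
    (fun i => C * (n i : ℝ) ^ 2 * rate (E i) (g i) (p i)) (fun i Φ hΦ => hΦ.1)
    (fun i => hC (E i) (M i) (n i) (g i) (p i) (hn i) (hMn i) (hMc i) (hg i) (hp i).1 (hp i).2)
    P hP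

end Pool.Agent.Y1.KN
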