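import Mathlib
import Pool.Agent.Y1.KN.Third
import Pool.Agent.Y1.KN.Sum
import Pool.Agent.Y210.KN.Ratl
import Pool.Agent.Y327.KN.Q1
import Pool.Agent.Y903.KN.Quad
import Pool.Agent.Y497.KN.Q2
import Pool.Agent.Y839.KN.Refl
import Pool.Agent.Y515.KN.UniqP
import Pool.Agent.Y207.KN.Sub
import Pool.Agent.Y73.KN.Num7
import Pool.Agent.Y210.KN.Small
import Pool.Agent.Y1.KN.Total

/-!
# The bound for one field
-/

namespace Pool.Agent.Y1.KN

theorem q1_holds : P_q1 := Pool.Agent.Y327.KN.q1 Pool.Agent.Y210.KN.ratl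

theorem q2_holds : P_q2 := Pool.Agent.Y497.KN.q2 Pool.Agent.Y839.KN.refl
  (Pool.Agent.Y903.KN.Quad.quad Pool.Agent.Y515.KN.uniq)

theorem field_bound4_holds : P_field_bound4 :=
  field_bound4 mult_holds faith3_holds Pool.Agent.Y73.KN.num7
    (Pool.Agent.Y417.KN.genB Pool.Agent.Y248.KN.gen) Pool.Agent.Y304.KN.prod q1_holds q2_holds
    Pool.Agent.Y207.KN.sub Pool.Agent.Y207.KN.normal
    Pool.Agent.Y281.KN.corr Pool.Agent.Y281.KN.dim Pool.Agent.Y46.KN1.cm Pool.Agent.Y46.KN1.bij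
    Pool.Agent.Y46.KN1.desc Pool.Agent.Y167.KN.desc2

theorem final_holds : P_final := final Pool.Agent.Y46.KN1.cm field_bound4_holds

theorem prime_bound_holds : P_prime_bound :=
  prime_bound mult_holds faith3_holds Pool.Agent.Y73.KN.num7
    (Pool.Agent.Y417.KN.genB Pool.Agent.Y248.KN.gen) Pool.Agent.Y304.KN.prod
    Pool.Agent.Y281.KN.corr Pool.Agent.Y281.KN.dim Pool.Agent.Y46.KN1.cm Pool.Agent.Y46.KN1.bij
    Pool.Agent.Y46.KN1.desc Pool.Agent.Y210.KN.small

theorem weight_estimate_holds : WeightEstimate := weight_estimate Pool.Agent.Y46.KN1.cm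

theorem total_holds : P_total :=
  total Pool.Agent.Y46.KN1.cm final_holds prime_bound_holds

theorem families_holds : P_families := families total_holds

end Pool.Agent.Y1.KN
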