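import Mathlib
import Pool.Agent.Y1.KN.Total
import Pool.Agent.TH170.GS.Main
import Pool.Agent.TH170.CM.Family

/-!
# The bound for families of CM types and of slope types
-/

set_option linter.unusedSectionVars false
set_option linter.unusedVariables false

namespace Pool.Agent.Y1.KN

open NumberField Finset Module Pool.Agent.H204R3.CM Pool.Agent.H977R3.CM Pool.Agent.TH170
  Pool.Agent.TH170.CM Pool.Agent.TH170.MF Pool.Agent.TH170.FW Pool.Agent.W495.TA

/-- The bound for a property of families of slope types over finite fields. -/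
theorem slope (h : P_families) :
    ∃ C : ℝ, 0 ≤ C ∧ ∀ (p : ℕ) [Fact p.Prime] (ν : PadicAlgCl p ≃+* ℂ) (I : Type) [Fintype I]
      (K : I → Type) [∀ i, Field (K i)] [∀ i, NumberField (K i)] [∀ i, IsCMField (K i)]
      (M : ∀ i, (K i →+* ℂ) → ℤ) (n g q : I → ℕ), PairwiseIndep K →
      (∀ i φ, M i (ComplexEmbedding.conjugate φ) = M i φ) → (∀ i, n i ≠ 0) →
      (∀ i φ, M i φ ∣ (n i : ℤ)) → (∀ i, finrank ℚ (K i) = 2 * g i) →
      (∀ i, q i ∣ g i ∧ (q i = 1 ∨ (q i).Prime)) →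
      ∀ P : (∀ i, Set (K i →+* ℂ)) → Prop,
      (∀ Φ, (∀ Y : RedAV p ν, GS.OfTypes K M Φ Y → ∃ Z : RedAV p ν,
        TH117.BL.HasElementaryRelations Z ∧ TH117.BL.IsPowersTimesSupersingular Z Y) → P Φ) →
      (({Φ : ∀ i, Set (K i →+* ℂ) | (∀ i, IsCMType (Φ i)) ∧ ¬ P Φ}.ncard : ℕ) : ℝ) ≤
        2 ^ (∑ i, g i) * ∑ i, C * (n i : ℝ) ^ 2 * rate (K i) (g i) (q i) := by
  obtain ⟨C, hC0, hC⟩ := h
  refine ⟨C, hC0, ?_⟩
  intro p _ ν I _ K _ _ _ M n g q hind hM hn hMn hg hq P hP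
  refine hC I K M n g q hM hn hMn hg hq P fun Φ hΦ hnd => ?_
  exact hP Φ fun Y hY => ⟨Y, GS.elementary_of_types hind hM hΦ hnd hY, fun k => Or.inr
    ⟨k, RingHom.id _, 1, 1, one_pos, one_pos, rfl, rfl⟩⟩

/-- A degenerate type is orthogonal to a minimal space, with the weights `1`. -/
theorem not_degenerate {E : Type*} [Field E] [NumberField E] [IsCMField E] {Φ : Set (E →+* ℂ)}
    (hΦ : IsCMType Φ) (h : Φ ∉ degTypes (fun _ : E →+* ℂ => 1)) : ¬ Degenerate Φ := by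
  intro hd
  obtain ⟨S, hS, hmem⟩ := exists_minimal_of_degenerate hΦ hd
  refine h ⟨hΦ, S, hS, fun s hs => ?_⟩
  rw [← hmem.2 s hs]
  refine sum_congr rfl fun φ _ => ?_
  push_cast
  ring

/-- The bound for the Hodge classes on abelian varieties of CM type. -/
theorem hodge (h : P_families) :
    ∃ C : ℝ, 0 ≤ C ∧ ∀ (ι : Type) [Fintype ι] (E : ι → Type) [∀ i, Field (E i)]
      [∀ i, NumberField (E i)] [∀ i, IsCMField (E i)] (g p : ι → ℕ), PairwiseIndep E →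
      (∀ i, finrank ℚ (E i) = 2 * g i) → (∀ i, p i ∣ g i ∧ (p i = 1 ∨ (p i).Prime)) →
      (({Φ : ∀ i, Set (E i →+* ℂ) | (∀ i, IsCMType (Φ i)) ∧
        ¬ ∀ (J : Type) [Fintype J] (t : J → ι), HodgeGenerated (per Φ t)}.ncard : ℕ) : ℝ) ≤
        2 ^ (∑ i, g i) * ∑ i, C * rate (E i) (g i) (p i) := by
  obtain ⟨C, hC0, hC⟩ := h
  refine ⟨C, hC0, ?_⟩
  intro ι _ E _ _ _ g p hE hg hp
  have h1 := hC ι E (fun _ _ => 1) (fun _ => 1) g p (fun _ _ => rfl) (fun _ => one_ne_zero)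
    (fun _ _ => one_dvd _) hg hp
    (fun Φ => ∀ (J : Type) [Fintype J] (t : J → ι), HodgeGenerated (per Φ t)) (by
      intro Φ hΦ hnd J _ t
      exact hodge_of_not_degenerate hΦ hE (fun i => not_degenerate (hΦ i) (hnd i)) t)
  simpa only [Nat.cast_one, one_pow, mul_one] using h1

end Pool.Agent.Y1.KN
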